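import Pool.Agent.Run7.h724.SignK

/-!
# The Kloosterman sums over the extensions do not vanish
-/

set_option autoImplicit false

namespace Pool.Agent.Run7.h724.Lift

open Polynomial Finset
open Pool.Agent.H498R2.Kl

/-- a vanishing sum of roots of unity of prime order -/
lemma card_of_sum_zero {p : ℕ} [hp : Fact p.Prime] {ι : Type*} (s : Finset ι) (t : ι → ZMod p)
    (h : ∑ i ∈ s, (ZMod.stdAddChar (t i) : ℂ) = 0) : p ∣ s.card := by
  set ζ : ℂ := Complex.exp (2 * Real.pi * Complex.I / p) with hζ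
  have hprim : IsPrimitiveRoot ζ p := Complex.isPrimitiveRoot_exp p hp.out.ne_zero
  have h1 : ∀ z : ZMod p, (ZMod.stdAddChar z : ℂ) = ζ ^ z.val := by
    intro z
    rw [ZMod.stdAddChar_apply, ZMod.toCircle_apply, hζ, ← Complex.exp_nat_mul]
    congr 1
    ring
  set f : ℤ[X] := ∑ i ∈ s, X ^ (t i).val with hf
  have h2 : aeval ζ f = 0 := by
    rw [hf, map_sum]
    simp only [map_pow, aeval_X]
    rw [← h]
    exact sum_congr rfl fun i _ => (h1 (t i)).symm
  have hint : IsIntegral ℤ ζ := hprim.isIntegral hp.out.pos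
  have h3 : cyclotomic p ℤ ∣ f := by
    rw [cyclotomic_eq_minpoly hprim hp.out.pos]
    exact minpoly.isIntegrallyClosed_dvd hint h2
  obtain ⟨g, hg⟩ := h3
  have h4 : f.eval 1 = s.card := by
    rw [hf, eval_finsetSum]
    simp
  rw [hg, eval_mul, eval_one_cyclotomic_prime] at h4
  exact_mod_cast Dvd.intro _ h4

variable {p : ℕ} [hp : Fact p.Prime]

theorem lifted_ne_zero {a : ℤ} (h : Nat.Coprime p a.natAbs) (m : ℕ) (hm : 1 ≤ m) :
    liftedSum p m a ≠ 0 := by
  classical
  intro h0
  let _ : Fintype (GaloisField p m) := Fintype.ofFinite _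
  have hfr : Module.finrank (ZMod p) (GaloisField p m) = m := GaloisField.finrank p (by omega)
  have h1 := TK_eq_sum (E := GaloisField p m) (ZMod.stdAddChar : AddChar (ZMod p) ℂ)
    (a : ZMod p) 1
  rw [hfr, sum_units] at h1
  have h2 := TG_cos (ψ := (ZMod.stdAddChar : AddChar (ZMod p) ℂ))
    (ZMod.isPrimitive_stdAddChar p) (cast_ne h) one_ne_zero (Real.sqrt p) (angle p a)
    (by rw [Real.sq_sqrt (Nat.cast_nonneg _), ZMod.card]) (by rw [TG_real, kl_cos h]) m hm
  rw [← lifted_cos h m hm, h0, Complex.ofReal_zero] at h2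
  rw [h2] at h1
  have h3 := card_of_sum_zero (p := p) univ _ h1.symm
  have h4 : Fintype.card (GaloisField p m) = p ^ m := by
    rw [← Nat.card_eq_fintype_card]
    exact GaloisField.card p m (by omega)
  rw [card_univ, Fintype.card_units, h4] at h3
  have h5 : p ∣ p ^ m := dvd_pow_self p (by omega)
  have h6 : 1 ≤ p ^ m := Nat.one_le_pow _ _ hp.out.pos
  have h7 : p ∣ 1 := by
    have := (Nat.dvd_sub_iff_right h6 h5).1 h3
    exact this
  exact hp.out.one_lt.ne' (Nat.dvd_one.1 h7)

end Pool.Agent.Run7.h724.Lift
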