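import Pool.Agent.Run7.h724.ThirdsCrit

/-!
# Finite families: thirds, exponential sums and intervals
-/

set_option autoImplicit false

namespace Pool.Agent.Run7.h724.Fam

open Finset Filter Topology
open Pool.Agent.H469R2.NK (e norm_e e_add)
open Pool.Agent.Run7.h776.MS (cnt dev main_ineq cnt_eq dev_nonneg dig dig_eq_iff)
open Pool.Agent.Run7.h724.Thirds (vis vis_le ee_eq neg_third)

section Fin

variable {ι : Type} (S : Finset ι) (y : ι → ℝ)

/-- the number of visits -/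
noncomputable def vF (a b : ℝ) : ℕ :=
  (S.filter fun i => a ≤ Int.fract (y i) ∧ Int.fract (y i) < b).card

/-- an enumeration of the family -/
noncomputable def en (n : ℕ) : ℝ := if h : n < S.card then y (S.equivFin.symm ⟨n, h⟩) else 0

lemma sum_en {β : Type} [AddCommMonoid β] (F : ℝ → β) :
    ∑ n ∈ range S.card, F (en S y n) = ∑ i ∈ S, F (y i) := by
  rw [← Fin.sum_univ_eq_sum_range (fun n => F (en S y n)) S.card]
  have h1 : ∀ i : Fin S.card, F (en S y i) = F (y (S.equivFin.symm i)) := by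
    intro i
    unfold en
    rw [dif_pos i.2]
  simp only [h1]
  rw [Equiv.sum_comp S.equivFin.symm (fun i : S => F (y i))]
  exact Finset.sum_coe_sort S (fun i => F (y i))

lemma card_en (P : ℝ → Prop) [DecidablePred P] :
    ((range S.card).filter fun n => P (en S y n)).card = (S.filter fun i => P (y i)).card := by
  rw [card_filter, card_filter]
  exact sum_en S y (fun t => if P t then 1 else 0)

/-- the deviation of the thirds -/
noncomputable def dF (y : ι → ℝ) : ℝ :=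
  ∑ d ∈ range 3, |(vF S y ((d : ℝ) / 3) (((d : ℝ) + 1) / 3) : ℝ) - S.card / 3|

lemma dev_en (c : ℝ) : dev 3 S.card (fun n => c * en S y n) = dF S (fun i => c * y i) := by
  unfold dev dF
  refine sum_congr rfl fun d _ => ?_
  have h1 : cnt 3 S.card (fun n => c * en S y n) d =
      vF S (fun i => c * y i) ((d : ℝ) / 3) (((d : ℝ) + 1) / 3) := by
    rw [cnt_eq (by norm_num)]
    unfold vF
    have := card_en S y (fun t => (d : ℝ) / ((3 : ℕ) : ℝ) ≤ Int.fract (c * t) ∧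
      Int.fract (c * t) < ((d : ℝ) + 1) / ((3 : ℕ) : ℝ))
    rw [this]
    norm_num
  rw [h1]
  norm_num

end Fin

/-- exponential sums and thirds -/
theorem mainF (A : ℕ) : ∃ C : ℝ, 0 < C ∧ ∀ M : ℕ, 2 ≤ M → ∀ {ι : Type} (S : Finset ι) (y : ι → ℝ)
    (h : ℝ), ‖∑ i ∈ S, e (h * y i)‖ ≤ C * S.card / Real.log M ^ A +
      12 * ∑ j ∈ Icc 1 M, 1 / (j : ℝ) * dF S (fun i => (j * h) * y i) := by
  obtain ⟨C, hC, h1⟩ := main_ineq (b := 3) le_rfl A
  refine ⟨C, hC, fun M hM ι S y h => ?_⟩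
  have h2 := h1 M hM S.card (fun n => h * en S y n)
  simp only [ee_eq] at h2
  rw [sum_en S y (fun t => e (h * t))] at h2
  refine h2.trans (le_of_eq ?_)
  congr 1
  have e1 : (4 * ((3 : ℕ) : ℝ)) = 12 := by norm_num
  rw [e1]
  congr 1
  refine sum_congr rfl fun j _ => ?_
  congr 1
  have h3 : (fun n : ℕ => (j : ℝ) * (h * en S y n)) = fun n : ℕ => ((j : ℝ) * h) * en S y n := by
    funext n
    ring
  rw [h3, dev_en]

/-- visits and exponential sums -/
theorem visF {ι : Type} (S : Finset ι) (y : ι → ℝ) (a b : ℝ) (h0 : 0 ≤ a) (h1 : a < b) (h2 : b ≤ 1)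
    (K : ℕ) (hK : 2 ≤ K) : |(vF S y a b : ℝ) - (b - a) * S.card| ≤
      2 * (∑ h ∈ Icc 1 K, ‖∑ i ∈ S, e (h * y i)‖ / h + 2 * (S.card * (1 / Real.sqrt K))) := by
  have h3 := vis_le (en S y) a b h0 h1 h2 S.card K hK
  have h4 : vis (en S y) a b S.card = vF S y a b :=
    card_en S y (fun t => a ≤ Int.fract t ∧ Int.fract t < b)
  rw [h4] at h3
  refine h3.trans (le_of_eq ?_)
  congr 2
  refine sum_congr rfl fun h _ => ?_
  rw [sum_en S y (fun t => e (h * t))]

section Lim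

variable {ι : Type} (S : ℕ → Finset ι) (y : ι → ℝ) (w : ℕ → ℝ)

/-- thirds give exponential sums -/
theorem weyl_of_dF (B : ℝ) (hw : ∀ᶠ x in atTop, 0 < w x)
    (hB : ∀ᶠ x in atTop, ((S x).card : ℝ) ≤ B * w x)
    (h3 : ∀ m : ℕ, 1 ≤ m → Tendsto (fun x => dF (S x) (fun i => (m : ℝ) * y i) / w x) atTop (𝓝 0))
    (h : ℕ) (hh : 1 ≤ h) :
    Tendsto (fun x => ‖∑ i ∈ S x, e (h * y i)‖ / w x) atTop (𝓝 0) := by
  obtain ⟨C, hC, hmain⟩ := mainF 1
  have hB0 : ∀ᶠ x in atTop, ((S x).card : ℝ) ≤ (|B| + 1) * w x := by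
    filter_upwards [hB, hw] with x h1 h2
    have : B * w x ≤ (|B| + 1) * w x :=
      mul_le_mul_of_nonneg_right (by linarith [le_abs_self B]) h2.le
    linarith
  rw [Metric.tendsto_atTop]
  intro ε hε
  obtain ⟨M, hM2, hM⟩ : ∃ M : ℕ, 2 ≤ M ∧ C * (|B| + 1) / Real.log M < ε / 2 := by
    have h1 : Tendsto (fun M : ℕ => C * (|B| + 1) / Real.log M) atTop (𝓝 0) :=
      (Real.tendsto_log_atTop.comp tendsto_natCast_atTop_atTop).const_div_atTop _
    obtain ⟨M, hM⟩ := ((h1.eventually (gt_mem_nhds (half_pos hε))).and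
      (eventually_ge_atTop 2)).exists
    exact ⟨M, hM.2, hM.1⟩
  have h4 : Tendsto (fun x : ℕ => 12 * ∑ j ∈ Icc 1 M, 1 / (j : ℝ) *
      (dF (S x) (fun i => ((j * h : ℕ) : ℝ) * y i) / w x)) atTop
      (𝓝 (12 * ∑ j ∈ Icc 1 M, 1 / (j : ℝ) * 0)) := by
    apply Tendsto.const_mul
    apply tendsto_finsetSum
    intro j hj
    rw [mem_Icc] at hj
    exact (h3 (j * h) (Nat.one_le_iff_ne_zero.2 (Nat.mul_ne_zero (by omega) (by omega)))).const_mul _
  simp only [mul_zero, sum_const_zero] at h4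
  obtain ⟨N₀, hN₀⟩ := eventually_atTop.1 ((h4.eventually (gt_mem_nhds (half_pos hε))).and
    (hB0.and hw))
  refine ⟨N₀, fun x hx => ?_⟩
  obtain ⟨h5, h6, h7⟩ := hN₀ x hx
  rw [Real.dist_eq, sub_zero, abs_of_nonneg (by positivity)]
  have h8 := hmain M hM2 (S x) y h
  rw [pow_one] at h8
  have hlog : 0 < Real.log M := Real.log_pos (by exact_mod_cast (by omega : 1 < M))
  have h9 : ‖∑ i ∈ S x, e (h * y i)‖ / w x ≤ C / Real.log M * (((S x).card : ℝ) / w x) +
      12 * ∑ j ∈ Icc 1 M, 1 / (j : ℝ) *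
        (dF (S x) (fun i => ((j * h : ℕ) : ℝ) * y i) / w x) := by
    rw [div_le_iff₀ h7]
    refine h8.trans (le_of_eq ?_)
    rw [add_mul, mul_assoc 12 _ (w x), sum_mul]
    congr 1
    · field_simp
    · congr 1
      refine sum_congr rfl fun j _ => ?_
      push_cast
      field_simp
  have h10 : C / Real.log M * (((S x).card : ℝ) / w x) ≤ C * (|B| + 1) / Real.log M := by
    have h11 : ((S x).card : ℝ) / w x ≤ |B| + 1 := by
      rw [div_le_iff₀ h7]
      exact h6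
    calc C / Real.log M * (((S x).card : ℝ) / w x) ≤ C / Real.log M * (|B| + 1) :=
          mul_le_mul_of_nonneg_left h11 (by positivity)
      _ = _ := by ring
  linarith

/-- exponential sums give intervals -/
theorem int_of_weyl (B : ℝ) (hw : ∀ᶠ x in atTop, 0 < w x)
    (hB : ∀ᶠ x in atTop, ((S x).card : ℝ) ≤ B * w x)
    (h3 : ∀ h : ℕ, 1 ≤ h → Tendsto (fun x => ‖∑ i ∈ S x, e (h * y i)‖ / w x) atTop (𝓝 0))
    (a b : ℝ) (h0 : 0 ≤ a) (h1 : a ≤ b) (h2 : b ≤ 1) :
    Tendsto (fun x => ((vF (S x) y a b : ℝ) - (b - a) * (S x).card) / w x) atTop (𝓝 0) := by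
  rcases h1.eq_or_lt with rfl | h1
  · have h4 : ∀ x, vF (S x) y a a = 0 := by
      intro x
      unfold vF
      rw [card_eq_zero, filter_eq_empty_iff]
      intro i _ hi
      linarith [hi.1, hi.2]
    simp [h4]
  have hB0 : ∀ᶠ x in atTop, ((S x).card : ℝ) ≤ (|B| + 1) * w x := by
    filter_upwards [hB, hw] with x h1 h2
    have : B * w x ≤ (|B| + 1) * w x :=
      mul_le_mul_of_nonneg_right (by linarith [le_abs_self B]) h2.le
    linarith
  rw [Metric.tendsto_atTop]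
  intro ε hε
  obtain ⟨K, hK2, hK⟩ : ∃ K : ℕ, 2 ≤ K ∧ 4 * (|B| + 1) * (1 / Real.sqrt K) < ε / 2 := by
    have h1 : Tendsto (fun K : ℕ => 4 * (|B| + 1) / Real.sqrt K) atTop (𝓝 0) :=
      (Real.tendsto_sqrt_atTop.comp tendsto_natCast_atTop_atTop).const_div_atTop _
    obtain ⟨K, hK⟩ := ((h1.eventually (gt_mem_nhds (half_pos hε))).and
      (eventually_ge_atTop 2)).exists
    refine ⟨K, hK.2, ?_⟩
    rw [mul_one_div]
    exact hK.1
  have h4 : Tendsto (fun x : ℕ => 2 * ∑ h ∈ Icc 1 K, 1 / (h : ℝ) *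
      (‖∑ i ∈ S x, e (h * y i)‖ / w x)) atTop
      (𝓝 (2 * ∑ h ∈ Icc 1 K, 1 / (h : ℝ) * 0)) := by
    apply Tendsto.const_mul
    apply tendsto_finsetSum
    intro h hh
    rw [mem_Icc] at hh
    exact (h3 h hh.1).const_mul _
  simp only [mul_zero, sum_const_zero] at h4
  obtain ⟨N₀, hN₀⟩ := eventually_atTop.1 ((h4.eventually (gt_mem_nhds (half_pos hε))).and
    (hB0.and hw))
  refine ⟨N₀, fun x hx => ?_⟩
  obtain ⟨h5, h6, h7⟩ := hN₀ x hx
  rw [Real.dist_eq, sub_zero, abs_div, abs_of_pos h7]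
  have h8 := visF (S x) y a b h0 h1 h2 K hK2
  have h9 : |(vF (S x) y a b : ℝ) - (b - a) * (S x).card| / w x ≤
      2 * ∑ h ∈ Icc 1 K, 1 / (h : ℝ) * (‖∑ i ∈ S x, e (h * y i)‖ / w x) +
      4 * (1 / Real.sqrt K) * (((S x).card : ℝ) / w x) := by
    rw [div_le_iff₀ h7]
    refine h8.trans (le_of_eq ?_)
    rw [add_mul, mul_assoc 2 _ (w x), sum_mul, mul_add]
    congr 1
    · congr 1
      refine sum_congr rfl fun h _ => ?_
      field_simp
    · field_simp
      ring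
  have h10 : 4 * (1 / Real.sqrt K) * (((S x).card : ℝ) / w x) ≤
      4 * (|B| + 1) * (1 / Real.sqrt K) := by
    have h11 : ((S x).card : ℝ) / w x ≤ |B| + 1 := by
      rw [div_le_iff₀ h7]
      exact h6
    calc 4 * (1 / Real.sqrt K) * (((S x).card : ℝ) / w x) ≤
          4 * (1 / Real.sqrt K) * (|B| + 1) := mul_le_mul_of_nonneg_left h11 (by positivity)
      _ = _ := by ring
  linarith

/-- the total of the three thirds -/
lemma total {ι : Type} (S : Finset ι) (z : ι → ℝ) :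
    (vF S z 0 (1 / 3) : ℝ) + vF S z (1 / 3) (2 / 3) + vF S z (2 / 3) 1 = S.card := by
  unfold vF
  rw [card_filter, card_filter, card_filter, card_eq_sum_ones]
  push_cast
  rw [← sum_add_distrib, ← sum_add_distrib]
  refine sum_congr rfl fun i _ => ?_
  have h0 := Int.fract_nonneg (z i)
  have h1 := Int.fract_lt_one (z i)
  rcases lt_or_ge (Int.fract (z i)) (1 / 3) with h | h
  · rw [if_pos ⟨h0, h⟩, if_neg (by intro h'; linarith [h'.1]), if_neg (by intro h'; linarith [h'.1])]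
    norm_num
  · rcases lt_or_ge (Int.fract (z i)) (2 / 3) with h2 | h2
    · rw [if_neg (by intro h'; linarith [h'.2]), if_pos ⟨h, h2⟩,
        if_neg (by intro h'; linarith [h'.1])]
      norm_num
    · rw [if_neg (by intro h'; linarith [h'.2]), if_neg (by intro h'; linarith [h'.2]),
        if_pos ⟨h2, h1⟩]
      norm_num

/-- the first thirds give all thirds -/
theorem dF_of_first (hw : Tendsto w atTop atTop)
    (hfin : ∀ m : ℕ, 1 ≤ m → ∃ K : ℕ, ∀ x, ∀ T ⊆ S x,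
      (∀ i ∈ T, ∃ k : ℤ, 3 * ((m : ℝ) * y i) = k) → T.card ≤ K)
    (h3 : ∀ m : ℤ, m ≠ 0 → Tendsto (fun x => ((vF (S x) (fun i => (m : ℝ) * y i) 0 (1 / 3) : ℝ) -
      ((S x).card : ℝ) / 3) / w x) atTop (𝓝 0)) (m : ℕ) (hm : 1 ≤ m) :
    Tendsto (fun x => dF (S x) (fun i => (m : ℝ) * y i) / w x) atTop (𝓝 0) := by
  classical
  have hm0 : (m : ℤ) ≠ 0 := by exact_mod_cast (by omega : m ≠ 0)
  have c0 := h3 m hm0
  have c2' := h3 (-(m : ℤ)) (neg_ne_zero.2 hm0)
  obtain ⟨K, hK⟩ := hfin m hm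
  -- the last third
  have hdiff : ∀ x, |(vF (S x) (fun i => (m : ℝ) * y i) (2 / 3) 1 : ℝ) -
      (vF (S x) (fun i => ((-(m : ℤ) : ℤ) : ℝ) * y i) 0 (1 / 3) : ℝ)| ≤ K := by
    intro x
    set T := (S x).filter fun i => ∃ k : ℤ, 3 * ((m : ℝ) * y i) = k with hT
    have hTK : T.card ≤ K := hK x T (filter_subset _ _) fun i hi => (mem_filter.1 hi).2
    have hTr : (T.card : ℝ) ≤ K := by exact_mod_cast hTK
    have e1 : (vF (S x) (fun i => (m : ℝ) * y i) (2 / 3) 1 : ℝ) -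
      (vF (S x) (fun i => ((-(m : ℤ) : ℤ) : ℝ) * y i) 0 (1 / 3) : ℝ) =
      ∑ i ∈ S x, ((if 2 / 3 ≤ Int.fract ((m : ℝ) * y i) ∧ Int.fract ((m : ℝ) * y i) < 1
        then (1 : ℝ) else 0) - if 0 ≤ Int.fract (((-(m : ℤ) : ℤ) : ℝ) * y i) ∧
        Int.fract (((-(m : ℤ) : ℤ) : ℝ) * y i) < 1 / 3 then (1 : ℝ) else 0) := by
      unfold vF
      rw [sum_sub_distrib, card_filter, card_filter]
      push_cast
      rfl
    rw [e1]
    refine (abs_sum_le_sum_abs _ _).trans ?_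
    have h5 : ∀ i ∈ S x, |(if 2 / 3 ≤ Int.fract ((m : ℝ) * y i) ∧ Int.fract ((m : ℝ) * y i) < 1
        then (1 : ℝ) else 0) - if 0 ≤ Int.fract (((-(m : ℤ) : ℤ) : ℝ) * y i) ∧
        Int.fract (((-(m : ℤ) : ℤ) : ℝ) * y i) < 1 / 3 then (1 : ℝ) else 0| ≤
        if ∃ k : ℤ, 3 * ((m : ℝ) * y i) = k then (1 : ℝ) else 0 := by
      intro i _
      by_cases hi : ∃ k : ℤ, 3 * ((m : ℝ) * y i) = k
      · rw [if_pos hi]
        split_ifs <;> norm_num
      · rw [if_neg hi]
        have h6 := neg_third hi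
        have h7 : ((-(m : ℤ) : ℤ) : ℝ) * y i = -((m : ℝ) * y i) := by
          push_cast
          ring
        rw [h7]
        simp only [h6, sub_self, abs_zero, le_refl]
    refine (sum_le_sum h5).trans ?_
    rw [sum_boole]
    exact hTr
  have c2 : Tendsto (fun x => ((vF (S x) (fun i => (m : ℝ) * y i) (2 / 3) 1 : ℝ) -
      ((S x).card : ℝ) / 3) / w x) atTop (𝓝 0) := by
    have h5 : Tendsto (fun x => ((vF (S x) (fun i => (m : ℝ) * y i) (2 / 3) 1 : ℝ) -
      (vF (S x) (fun i => ((-(m : ℤ) : ℤ) : ℝ) * y i) 0 (1 / 3) : ℝ)) / w x) atTop (𝓝 0) := by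
      have h6 : Tendsto (fun x => (K : ℝ) / w x) atTop (𝓝 0) := hw.const_div_atTop _
      refine squeeze_zero_norm' ?_ h6
      filter_upwards [hw.eventually_gt_atTop 0] with x hx
      rw [Real.norm_eq_abs, abs_div, abs_of_pos hx]
      exact div_le_div_of_nonneg_right (hdiff x) hx.le
    have h6 := h5.add c2'
    rw [zero_add] at h6
    refine h6.congr fun x => ?_
    ring
  have c1 : Tendsto (fun x => ((vF (S x) (fun i => (m : ℝ) * y i) (1 / 3) (2 / 3) : ℝ) -
      ((S x).card : ℝ) / 3) / w x) atTop (𝓝 0) := by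
    have h5 := (c0.add c2).neg
    rw [add_zero, neg_zero] at h5
    refine h5.congr fun x => ?_
    have h6 := total (S x) (fun i => (m : ℝ) * y i)
    rw [← add_div, ← neg_div]
    congr 1
    simp only [Int.cast_natCast]
    linarith
  have h5 := (c0.abs.add c1.abs).add c2.abs
  simp only [abs_zero, add_zero] at h5
  refine h5.congr' ?_
  filter_upwards [hw.eventually_gt_atTop 0] with x hx
  unfold dF
  rw [sum_range_succ, sum_range_succ, sum_range_succ, sum_range_zero, zero_add, abs_div, abs_div,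
    abs_div, abs_of_pos hx, ← add_div, ← add_div]
  simp only [Int.cast_natCast]
  norm_num

end Lim

end Pool.Agent.Run7.h724.Fam
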