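import Pool.Agent.Run7.h724.FinA

/-!
# Roots of polynomials modulo primes and scaling of the roots
-/

set_option autoImplicit false

namespace Pool.Agent.Run7.h724.Fam

open Finset Filter Topology Polynomial

/-- the roots of `f` modulo `p` in `[0, p)` -/
def rts (f : ℤ[X]) (p : ℕ) : Finset ℕ :=
  (Finset.range p).filter (fun ν : ℕ => (p : ℤ) ∣ f.eval (ν : ℤ))

/-- the roots in a part of the interval -/
noncomputable def rin (f : ℤ[X]) (a b : ℝ) (p : ℕ) : Finset ℕ :=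
  (rts f p).filter fun ν : ℕ => a ≤ (ν : ℝ) / (p : ℝ) ∧ (ν : ℝ) / (p : ℝ) < b

lemma mem_rts {f : ℤ[X]} {p ν : ℕ} : ν ∈ rts f p ↔ ν < p ∧ (p : ℤ) ∣ f.eval (ν : ℤ) := by
  unfold rts
  rw [mem_filter, mem_range]

lemma fract_div (a : ℤ) (p : ℕ) (hp : 0 < p) :
    Int.fract ((a : ℝ) / (p : ℝ)) = ((a % p : ℤ) : ℝ) / (p : ℝ) := by
  have hp0 : (0 : ℝ) < p := by exact_mod_cast hp
  have h1 : (0 : ℤ) ≤ a % p := Int.emod_nonneg _ (by exact_mod_cast hp.ne')
  have h2 : a % p < p := Int.emod_lt_of_pos _ (by exact_mod_cast hp)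
  rw [Int.fract_eq_iff]
  refine ⟨div_nonneg (by exact_mod_cast h1) hp0.le, ?_, a / p, ?_⟩
  · rw [div_lt_one hp0]
    exact_mod_cast h2
  · have h3 : (a : ℝ) = p * ((a / p : ℤ) : ℝ) + ((a % p : ℤ) : ℝ) := by
      exact_mod_cast (Int.mul_ediv_add_emod a p).symm
    field_simp
    linarith

/-- the residue of `m ν` -/
def mv (m : ℤ) (p ν : ℕ) : ℕ := ((m * ν) % p).toNat

lemma mv_cast (m : ℤ) (p ν : ℕ) (hp : 0 < p) : ((mv m p ν : ℕ) : ℤ) = (m * ν) % p := by
  unfold mv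
  exact Int.toNat_of_nonneg (Int.emod_nonneg _ (by exact_mod_cast hp.ne'))

lemma mv_lt (m : ℤ) (p ν : ℕ) (hp : 0 < p) : mv m p ν < p := by
  have h1 := mv_cast m p ν hp
  have h2 : (m * ν) % (p : ℤ) < p := Int.emod_lt_of_pos _ (by exact_mod_cast hp)
  rw [← h1] at h2
  exact_mod_cast h2

lemma fract_mv (m : ℤ) (p ν : ℕ) (hp : 0 < p) :
    Int.fract ((m : ℝ) * ((ν : ℝ) / (p : ℝ))) = ((mv m p ν : ℕ) : ℝ) / (p : ℝ) := by
  have h1 := fract_div (m * ν) p hp
  rw [← mv_cast m p ν hp] at h1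
  push_cast at h1
  rw [← h1, mul_div_assoc]

lemma eval_congr (g : ℤ[X]) (p : ℕ) (u v : ℤ) (h : (p : ℤ) ∣ u - v) (hu : (p : ℤ) ∣ g.eval u) :
    (p : ℤ) ∣ g.eval v := by
  have h1 : (p : ℤ) ∣ g.eval u - g.eval v := h.trans (Polynomial.sub_dvd_eval_sub u v g)
  have h2 := dvd_sub hu h1
  rwa [sub_sub_cancel] at h2

/-- the scaling, one prime -/
lemma per_prime (f : ℤ[X]) (m : ℤ) (p : ℕ) (hp : p.Prime) (hm : ¬ (p : ℤ) ∣ m) (a b : ℝ) :
    ((rts f p).filter fun ν : ℕ => a ≤ Int.fract ((m : ℝ) * ((ν : ℝ) / (p : ℝ))) ∧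
      Int.fract ((m : ℝ) * ((ν : ℝ) / (p : ℝ))) < b).card = (rin (f.scaleRoots m) a b p).card := by
  have hp0 := hp.pos
  have hpZ : Prime (p : ℤ) := Nat.prime_iff_prime_int.1 hp
  have hdvd : ∀ ν : ℕ, (p : ℤ) ∣ m * ν - (mv m p ν : ℕ) := by
    intro ν
    rw [mv_cast m p ν hp0]
    exact Int.dvd_self_sub_emod
  refine card_bij (fun ν _ => mv m p ν) ?_ ?_ ?_
  · intro ν hν
    rw [mem_filter, mem_rts, fract_mv m p ν hp0] at hν
    unfold rin
    rw [mem_filter, mem_rts]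
    refine ⟨⟨mv_lt m p ν hp0, ?_⟩, hν.2⟩
    refine eval_congr _ p (m * ν) _ (hdvd ν) ?_
    rw [scaleRoots_eval_mul]
    exact Dvd.dvd.mul_left hν.1.2 _
  · intro ν hν ν' hν' h
    rw [mem_filter, mem_rts] at hν hν'
    have h1 := hdvd ν
    have h2 := hdvd ν'
    have h : mv m p ν = mv m p ν' := h
    rw [← h] at h2
    have h3 : (p : ℤ) ∣ m * ((ν : ℤ) - ν') := by
      have := dvd_sub h1 h2
      have e : m * (ν : ℤ) - (mv m p ν : ℕ) - (m * ν' - (mv m p ν : ℕ)) = m * ((ν : ℤ) - ν') := by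
        ring
      rwa [e] at this
    rcases hpZ.dvd_or_dvd h3 with h4 | h4
    · exact absurd h4 hm
    · have h5 : |(ν : ℤ) - ν'| < p := by
        rw [abs_lt]
        constructor
        · have := hν'.1.1
          omega
        · have := hν.1.1
          omega
      have h6 := Int.eq_zero_of_abs_lt_dvd h4 h5
      omega
  · intro μ hμ
    unfold rin at hμ
    rw [mem_filter, mem_rts] at hμ
    -- the inverse of `m`
    have hcop : IsCoprime m (p : ℤ) := by
      rw [isCoprime_comm]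
      exact (Prime.coprime_iff_not_dvd hpZ).2 hm
    obtain ⟨u, v, huv⟩ := hcop
    refine ⟨mv u p μ, ?_, ?_⟩
    · have e1 : (p : ℤ) ∣ m * (mv u p μ : ℕ) - μ := by
        rw [mv_cast u p μ hp0]
        have h1 : (p : ℤ) ∣ u * μ - (u * μ) % p := Int.dvd_self_sub_emod
        have h2 : m * ((u * μ) % (p : ℤ)) - μ = -(m * (u * μ - (u * μ) % p)) - p * (v * μ) := by
          linear_combination (μ : ℤ) * huv
        rw [h2]
        exact dvd_sub ((h1.mul_left m).neg_right) (dvd_mul_right _ _)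
      have e2 : (p : ℤ) ∣ (f.scaleRoots m).eval (m * (mv u p μ : ℕ)) := by
        refine eval_congr _ p μ _ ?_ hμ.1.2
        have := e1.neg_right
        rwa [neg_sub] at this
      have e3 : mv m p (mv u p μ) = μ := by
        have h1 := mv_cast m p (mv u p μ) hp0
        have h2 : (m * ((mv u p μ : ℕ) : ℤ)) % (p : ℤ) = μ := by
          have h3 : (m * ((mv u p μ : ℕ) : ℤ)) % (p : ℤ) = (μ : ℤ) % p :=
            (Int.modEq_iff_dvd.2 e1).symm
          rw [h3]
          exact Int.emod_eq_of_lt (by positivity) (by exact_mod_cast hμ.1.1)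
        rw [h2] at h1
        exact_mod_cast h1
      rw [mem_filter, mem_rts, fract_mv m p _ hp0, e3]
      refine ⟨⟨mv_lt u p μ hp0, ?_⟩, hμ.2⟩
      rw [scaleRoots_eval_mul] at e2
      rcases hpZ.dvd_or_dvd e2 with h4 | h4
      · exact absurd (hpZ.dvd_of_dvd_pow h4) hm
      · exact h4
    · have e1 : (p : ℤ) ∣ m * (mv u p μ : ℕ) - μ := by
        rw [mv_cast u p μ hp0]
        have h1 : (p : ℤ) ∣ u * μ - (u * μ) % p := Int.dvd_self_sub_emod
        have h2 : m * ((u * μ) % (p : ℤ)) - μ = -(m * (u * μ - (u * μ) % p)) - p * (v * μ) := by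
          linear_combination (μ : ℤ) * huv
        rw [h2]
        exact dvd_sub ((h1.mul_left m).neg_right) (dvd_mul_right _ _)
      have h1 := mv_cast m p (mv u p μ) hp0
      have h2 : (m * ((mv u p μ : ℕ) : ℤ)) % (p : ℤ) = μ := by
        have h3 : (m * ((mv u p μ : ℕ) : ℤ)) % (p : ℤ) = (μ : ℤ) % p :=
          (Int.modEq_iff_dvd.2 e1).symm
        rw [h3]
        exact Int.emod_eq_of_lt (by positivity) (by exact_mod_cast hμ.1.1)
      rw [h2] at h1
      exact_mod_cast h1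

end Pool.Agent.Run7.h724.Fam
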