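import Pool.Agent.Run7.h724.FinB

/-!
# Families of roots and the first third
-/

set_option autoImplicit false

namespace Pool.Agent.Run7.h724.Fam

open Finset Filter Topology Polynomial
open Pool.Agent.H469R2.NK (e norm_e e_add)

section Closure

lemma irr_scale {K : Type*} [Field K] (g : K[X]) (hg : Irreducible g) (s : K) (hs : s ≠ 0) :
    Irreducible (g.scaleRoots s) := by
  have hinv : ∀ h : K[X], (h.scaleRoots s).scaleRoots s⁻¹ = h := by
    intro h
    rw [← scaleRoots_mul, mul_inv_cancel₀ hs, scaleRoots_one]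
  have hinv' : ∀ h : K[X], (h.scaleRoots s⁻¹).scaleRoots s = h := by
    intro h
    rw [← scaleRoots_mul, inv_mul_cancel₀ hs, scaleRoots_one]
  have hunit : ∀ (h : K[X]) (t : K), IsUnit h → IsUnit (h.scaleRoots t) := by
    intro h t hu
    obtain ⟨c, hc, rfl⟩ := Polynomial.isUnit_iff.1 hu
    rw [scaleRoots_C]
    exact hu
  refine ⟨fun hu => hg.not_isUnit ?_, fun a b hab => ?_⟩
  · have := hunit _ s⁻¹ hu
    rwa [hinv] at this
  · have h1 : g = a.scaleRoots s⁻¹ * b.scaleRoots s⁻¹ := by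
      rw [← mul_scaleRoots_of_noZeroDivisors, ← hab, hinv]
    rcases hg.isUnit_or_isUnit h1 with h2 | h2
    · left
      have := hunit _ s h2
      rwa [hinv'] at this
    · right
      have := hunit _ s h2
      rwa [hinv'] at this

lemma map_scale (f : ℤ[X]) (hf : f.Monic) (m : ℤ) :
    (f.scaleRoots m).map (Int.castRingHom ℚ) = (f.map (Int.castRingHom ℚ)).scaleRoots (m : ℚ) := by
  have := map_scaleRoots f m (Int.castRingHom ℚ) (by
    rw [hf.leadingCoeff]
    simp)
  simpa using this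

lemma irr_scale_int (f : ℤ[X]) (hf : f.Monic) (hi : Irreducible f) (m : ℤ) (hm : m ≠ 0) :
    Irreducible (f.scaleRoots m) := by
  have h1 := (hf.irreducible_iff_irreducible_map_fraction_map (K := ℚ)).1 hi
  have h2 : (f.scaleRoots m).Monic := (monic_scaleRoots_iff m).2 hf
  rw [h2.irreducible_iff_irreducible_map_fraction_map (K := ℚ)]
  have h3 := irr_scale _ h1 (m : ℚ) (by exact_mod_cast hm)
  have h4 := map_scale f hf m
  rw [algebraMap_int_eq] at h3 ⊢
  rw [h4]
  exact h3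

lemma cyclic_scale_field {K : Type*} [Field K] (g : K[X]) (hg : g ≠ 0) (s : K)
    (h : IsCyclic g.Gal) : IsCyclic (g.scaleRoots s).Gal := by
  have hs : ((g.scaleRoots s).map (algebraMap K g.SplittingField)).Splits := by
    rw [map_scaleRoots _ _ _ (by
      rw [Ne, map_eq_zero]
      exact leadingCoeff_ne_zero.2 hg)]
    exact (SplittingField.splits g).scaleRoots _
  have : Fact (((g.scaleRoots s).map (algebraMap K g.SplittingField)).Splits) := ⟨hs⟩
  have : Normal K g.SplittingField := Normal.of_isSplittingField g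
  have : IsCyclic (g.SplittingField ≃ₐ[K] g.SplittingField) := h
  exact isCyclic_of_surjective (Gal.restrict (g.scaleRoots s) g.SplittingField)
    (Gal.restrict_surjective _ _)

lemma cyclic_scale (f : ℤ[X]) (hf : f.Monic) (m : ℤ)
    (h : IsCyclic (f.map (Int.castRingHom ℚ)).Gal) :
    IsCyclic ((f.scaleRoots m).map (Int.castRingHom ℚ)).Gal := by
  rw [map_scale f hf m]
  exact cyclic_scale_field _ (hf.map _).ne_zero _ h

lemma eval_zero_ne (f : ℤ[X]) (hi : Irreducible f) (hd : 2 ≤ f.natDegree) : f.eval 0 ≠ 0 := by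
  intro h0
  obtain ⟨g, hg⟩ := Polynomial.dvd_iff_isRoot.2 (show f.IsRoot 0 from h0)
  have hX : (X - C (0 : ℤ)) ≠ 0 := X_sub_C_ne_zero 0
  rcases hi.isUnit_or_isUnit hg with h1 | h1
  · have := natDegree_eq_zero_of_isUnit h1
    rw [natDegree_X_sub_C] at this
    omega
  · have h2 := natDegree_eq_zero_of_isUnit h1
    have h3 : g ≠ 0 := h1.ne_zero
    have h4 := natDegree_mul hX h3
    rw [← hg, natDegree_X_sub_C, h2] at h4
    omega

end Closure

section Family

variable (f : ℤ[X]) (P : ℕ → Prop) [DecidablePred P]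

/-- the primes -/
def prs (x : ℕ) : Finset ℕ := (Finset.range (x + 1)).filter (fun p => p.Prime ∧ P p)

/-- the pairs of a prime and a root -/
def fam (x : ℕ) : Finset (Σ _ : ℕ, ℕ) := (prs P x).sigma (rts f)

/-- the quotient -/
noncomputable def yy (q : Σ _ : ℕ, ℕ) : ℝ := (q.2 : ℝ) / (q.1 : ℝ)

/-- the number of roots in a part -/
noncomputable def rc (a b : ℝ) (x : ℕ) : ℕ := ∑ p ∈ prs P x, (rin f a b p).card

lemma card_fam (x : ℕ) : (fam f P x).card = ∑ p ∈ prs P x, (rts f p).card := card_sigma _ _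

lemma vF_fam (c a b : ℝ) (x : ℕ) : vF (fam f P x) (fun q => c * yy q) a b =
    ∑ p ∈ prs P x, ((rts f p).filter fun ν : ℕ => a ≤ Int.fract (c * ((ν : ℝ) / (p : ℝ))) ∧
      Int.fract (c * ((ν : ℝ) / (p : ℝ))) < b).card := by
  unfold vF fam
  rw [card_filter, sum_sigma]
  refine sum_congr rfl fun p _ => ?_
  rw [card_filter]
  rfl

lemma rin_eq (a b : ℝ) (p : ℕ) : rin f a b p = (rts f p).filter fun ν : ℕ =>
    a ≤ Int.fract (1 * ((ν : ℝ) / (p : ℝ))) ∧ Int.fract (1 * ((ν : ℝ) / (p : ℝ))) < b := by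
  unfold rin
  apply filter_congr
  intro ν hν
  rw [mem_rts] at hν
  have hp0 : (0 : ℝ) < p := by
    have : 0 < p := by omega
    exact_mod_cast this
  have h1 : Int.fract (1 * ((ν : ℝ) / (p : ℝ))) = (ν : ℝ) / (p : ℝ) := by
    rw [one_mul, Int.fract_eq_self]
    refine ⟨by positivity, ?_⟩
    rw [div_lt_one hp0]
    exact_mod_cast hν.1
  rw [h1]

lemma rc_eq (a b : ℝ) (x : ℕ) : rc f P a b x = vF (fam f P x) (fun q => 1 * yy q) a b := by
  rw [vF_fam]
  unfold rc
  refine sum_congr rfl fun p _ => ?_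
  rw [rin_eq]

lemma rin_all (p : ℕ) : rin f 0 1 p = rts f p := by
  rw [rin_eq]
  apply filter_true_of_mem
  intro ν _
  exact ⟨Int.fract_nonneg _, Int.fract_lt_one _⟩

/-- the scaling for the families -/
lemma scale_diff (P' : ℕ → Prop) [DecidablePred P'] (m : ℤ) (hm : m ≠ 0)
    (hPP : ∀ p : ℕ, p.Prime → ¬ (p : ℤ) ∣ m → (P p ↔ P' p)) (a b : ℝ) (x : ℕ) :
    |(vF (fam f P x) (fun q => (m : ℝ) * yy q) a b : ℝ) - (rc (f.scaleRoots m) P' a b x : ℝ)| ≤
      ∑ p ∈ m.natAbs.primeFactors, (p : ℝ) := by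
  rw [vF_fam]
  unfold rc prs
  rw [sum_filter, sum_filter]
  push_cast
  rw [← sum_sub_distrib]
  refine (abs_sum_le_sum_abs _ _).trans ?_
  have key : ∀ p ∈ Finset.range (x + 1),
      |((if p.Prime ∧ P p then (((rts f p).filter fun ν : ℕ =>
        a ≤ Int.fract ((m : ℝ) * ((ν : ℝ) / (p : ℝ))) ∧
        Int.fract ((m : ℝ) * ((ν : ℝ) / (p : ℝ))) < b).card : ℝ) else 0) -
        (if p.Prime ∧ P' p then ((rin (f.scaleRoots m) a b p).card : ℝ) else 0))| ≤
      if p ∈ m.natAbs.primeFactors then (p : ℝ) else 0 := by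
    intro p _
    by_cases hp : p.Prime
    · by_cases hd : (p : ℤ) ∣ m
      · have h1 : p ∈ m.natAbs.primeFactors := by
          rw [Nat.mem_primeFactors]
          exact ⟨hp, Int.natCast_dvd.1 hd, Int.natAbs_ne_zero.2 hm⟩
        rw [if_pos h1]
        have c1 : ∀ (g : ℤ[X]) (Q : ℕ → Prop) [DecidablePred Q],
            (((rts g p).filter Q).card : ℝ) ≤ p := by
          intro g Q _
          have : ((rts g p).filter Q).card ≤ (Finset.range p).card :=
            (card_filter_le _ _).trans (card_filter_le _ _)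
          rw [card_range] at this
          exact_mod_cast this
        have b1 : ∀ (Q : Prop) [Decidable Q] (t : ℝ), 0 ≤ t → t ≤ p →
            0 ≤ (if Q then t else 0) ∧ (if Q then t else 0) ≤ (p : ℝ) := by
          intro Q _ t h0 h1
          split_ifs
          · exact ⟨h0, h1⟩
          · exact ⟨le_rfl, Nat.cast_nonneg _⟩
        have b2 := b1 (p.Prime ∧ P p) _ (Nat.cast_nonneg _) (c1 f fun ν : ℕ =>
          a ≤ Int.fract ((m : ℝ) * ((ν : ℝ) / (p : ℝ))) ∧
          Int.fract ((m : ℝ) * ((ν : ℝ) / (p : ℝ))) < b)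
        have b3 := b1 (p.Prime ∧ P' p) ((rin (f.scaleRoots m) a b p).card : ℝ)
          (Nat.cast_nonneg _) (c1 _ _)
        rw [abs_le]
        constructor <;> linarith [b2.1, b2.2, b3.1, b3.2]
      · have h1 := hPP p hp hd
        have h2 := per_prime f m p hp hd a b
        have h3 : (p.Prime ∧ P p) ↔ (p.Prime ∧ P' p) := and_congr_right fun _ => h1
        simp only [h3]
        rw [h2, sub_self, abs_zero]
        split_ifs
        · exact Nat.cast_nonneg _
        · exact le_rfl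
    · rw [if_neg (fun h => hp h.1), if_neg (fun h => hp h.1), sub_self, abs_zero]
      split_ifs
      · exact Nat.cast_nonneg _
      · exact le_rfl
  refine (sum_le_sum key).trans ?_
  rw [← sum_filter]
  apply sum_le_sum_of_subset_of_nonneg
  · intro p hp
    exact (mem_filter.1 hp).2
  · intro p _ _
    exact Nat.cast_nonneg _

lemma card_all (x : ℕ) (c : ℝ) : vF (fam f P x) (fun q => c * yy q) 0 1 = (fam f P x).card := by
  unfold vF
  rw [filter_true_of_mem]
  intro q _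
  exact ⟨Int.fract_nonneg _, Int.fract_lt_one _⟩

lemma rc_all (x : ℕ) : rc f P 0 1 x = (fam f P x).card := by
  rw [rc_eq, card_all]

/-- the exceptional pairs -/
lemma exceptional (h0 : f.eval 0 ≠ 0) (m : ℕ) (hm : 1 ≤ m) :
    ∃ K : ℕ, ∀ x, ∀ T ⊆ fam f P x, (∀ i ∈ T, ∃ k : ℤ, 3 * ((m : ℝ) * yy i) = k) → T.card ≤ K := by
  classical
  set n0 : ℕ := 3 * m * (f.eval 0).natAbs with hn0
  have hn : n0 ≠ 0 := by
    rw [hn0]
    exact Nat.mul_ne_zero (by omega) (Int.natAbs_ne_zero.2 h0)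
  refine ⟨(n0.primeFactors.sigma fun p => Finset.range p).card, fun x T hT hk => card_le_card ?_⟩
  intro q hq
  obtain ⟨p, ν⟩ := q
  have h1 := hT hq
  unfold fam prs at h1
  rw [mem_sigma, mem_filter, mem_rts] at h1
  obtain ⟨⟨_, hp, _⟩, hν, hdvd⟩ := h1
  simp only at hp hν hdvd
  rw [mem_sigma, Nat.mem_primeFactors, mem_range]
  refine ⟨⟨hp, ?_, hn⟩, hν⟩
  simp only
  obtain ⟨k, hk⟩ := hk _ hq
  have hpR : (p : ℝ) ≠ 0 := by exact_mod_cast hp.ne_zero
  have h2 : (3 * m * ν : ℤ) = k * p := by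
    have h3 : (3 * m * ν : ℝ) = k * p := by
      rw [← hk]
      unfold yy
      simp only
      field_simp
    exact_mod_cast h3
  have h3 : p ∣ 3 * m * ν := by
    have : (p : ℤ) ∣ ((3 * m * ν : ℕ) : ℤ) := by
      push_cast
      rw [h2]
      exact dvd_mul_left _ _
    exact_mod_cast this
  rcases hp.dvd_mul.1 h3 with h4 | h4
  · exact h4.mul_right _
  · have h5 : ν = 0 := Nat.eq_zero_of_dvd_of_lt h4 hν
    subst h5
    apply Dvd.dvd.mul_left
    exact Int.natCast_dvd.1 (by simpa using hdvd)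

/-- **The first third of the scaled polynomials decides.** -/
theorem decide (w : ℕ → ℝ) (hw : Tendsto w atTop atTop) (B : ℝ)
    (hB : ∀ᶠ x in atTop, ((fam f P x).card : ℝ) ≤ B * w x) (h0 : f.eval 0 ≠ 0)
    (P' : ℤ → ℕ → Prop) [∀ m, DecidablePred (P' m)]
    (hPP : ∀ m : ℤ, m ≠ 0 → ∀ p : ℕ, p.Prime → ¬ (p : ℤ) ∣ m → (P p ↔ P' m p))
    (h3 : ∀ m : ℤ, m ≠ 0 → Tendsto (fun x => ((rc (f.scaleRoots m) (P' m) 0 (1 / 3) x : ℝ) -
      ((fam (f.scaleRoots m) (P' m) x).card : ℝ) / 3) / w x) atTop (𝓝 0)) :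
    (∀ h : ℕ, 1 ≤ h → Tendsto (fun x => ‖∑ q ∈ fam f P x, e (h * yy q)‖ / w x) atTop (𝓝 0)) ∧
    ∀ a b : ℝ, 0 ≤ a → a ≤ b → b ≤ 1 →
      Tendsto (fun x => ((rc f P a b x : ℝ) - (b - a) * (fam f P x).card) / w x) atTop (𝓝 0) := by
  have hw0 : ∀ᶠ x in atTop, 0 < w x := hw.eventually_gt_atTop 0
  have h4 : ∀ m : ℤ, m ≠ 0 → Tendsto (fun x =>
      ((vF (fam f P x) (fun q => (m : ℝ) * yy q) 0 (1 / 3) : ℝ) - ((fam f P x).card : ℝ) / 3) / w x)
      atTop (𝓝 0) := by
    intro m hm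
    set K : ℝ := ∑ p ∈ m.natAbs.primeFactors, (p : ℝ) with hK
    have h5 : Tendsto (fun x => (2 * K) / w x) atTop (𝓝 0) := hw.const_div_atTop _
    have h6 : Tendsto (fun x =>
        (((vF (fam f P x) (fun q => (m : ℝ) * yy q) 0 (1 / 3) : ℝ) - ((fam f P x).card : ℝ) / 3) -
        ((rc (f.scaleRoots m) (P' m) 0 (1 / 3) x : ℝ) -
        ((fam (f.scaleRoots m) (P' m) x).card : ℝ) / 3)) / w x) atTop (𝓝 0) := by
      refine squeeze_zero_norm' ?_ h5
      filter_upwards [hw0] with x hx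
      rw [Real.norm_eq_abs, abs_div, abs_of_pos hx]
      refine div_le_div_of_nonneg_right ?_ hx.le
      have a1 := scale_diff f P (P' m) m hm (hPP m hm) 0 (1 / 3) x
      have a2 := scale_diff f P (P' m) m hm (hPP m hm) 0 1 x
      rw [card_all, rc_all] at a2
      rw [abs_le] at a1 a2 ⊢
      constructor <;> linarith [a1.1, a1.2, a2.1, a2.2]
    have h7 := h6.add (h3 m hm)
    rw [add_zero] at h7
    refine h7.congr fun x => ?_
    ring
  have h5 : ∀ m : ℕ, 1 ≤ m →
      Tendsto (fun x => dF (fam f P x) (fun q => (m : ℝ) * yy q) / w x) atTop (𝓝 0) :=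
    fun m hm => dF_of_first (fam f P) yy w hw (fun m hm => exceptional f P h0 m hm) h4 m hm
  have h6 : ∀ h : ℕ, 1 ≤ h →
      Tendsto (fun x => ‖∑ q ∈ fam f P x, e (h * yy q)‖ / w x) atTop (𝓝 0) :=
    fun h hh => weyl_of_dF (fam f P) yy w B hw0 hB h5 h hh
  refine ⟨h6, fun a b ha hab hb => ?_⟩
  have h7 := int_of_weyl (fam f P) yy w B hw0 hB h6 a b ha hab hb
  refine h7.congr fun x => ?_
  have h8 := rc_eq f P a b x
  simp only [one_mul] at h8
  rw [h8]

end Family

end Pool.Agent.Run7.h724.Fam
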