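import Pool.Agent.Run7.h724.FinC

/-!
# Multiples of equidistributed families
-/

set_option autoImplicit false

namespace Pool.Agent.Run7.h724.Fam

open Finset Filter Topology Polynomial
open Pool.Agent.H469R2.NK (e norm_e e_add)
open Pool.Agent.Run7.h724.Thirds (neg_third)

lemma vF_mul {ι : Type} (S : Finset ι) (y : ι → ℝ) (m : ℕ) (hm : 1 ≤ m) (a b : ℝ) (h0 : 0 ≤ a)
    (hb : b ≤ 1) : vF S (fun i => (m : ℝ) * y i) a b =
      ∑ k ∈ range m, vF S y (((k : ℝ) + a) / m) (((k : ℝ) + b) / m) := by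
  have hm0 : (0 : ℝ) < m := by exact_mod_cast hm
  unfold vF
  simp only [card_filter]
  rw [sum_comm]
  refine sum_congr rfl fun i _ => ?_
  set u := Int.fract (y i) with hu
  have hu0 : 0 ≤ u := Int.fract_nonneg _
  have hu1 : u < 1 := Int.fract_lt_one _
  set k0 : ℕ := ⌊(m : ℝ) * u⌋₊ with hk0
  have hmu : 0 ≤ (m : ℝ) * u := by positivity
  have h1 : (k0 : ℝ) ≤ m * u := Nat.floor_le hmu
  have h2 : (m : ℝ) * u < k0 + 1 := Nat.lt_floor_add_one _
  have hk0m : k0 < m := by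
    have : (m : ℝ) * u < m := by nlinarith
    have : (k0 : ℝ) < m := by linarith
    exact_mod_cast this
  have h3 : Int.fract ((m : ℝ) * y i) = m * u - k0 := by
    rw [Int.fract_eq_iff]
    refine ⟨by linarith, by linarith, (m : ℤ) * ⌊y i⌋ + k0, ?_⟩
    have h4 : y i = u + ⌊y i⌋ := (Int.fract_add_floor (y i)).symm
    push_cast
    nth_rewrite 1 [h4]
    ring
  rw [sum_eq_single k0]
  · have e : (a ≤ Int.fract ((m : ℝ) * y i) ∧ Int.fract ((m : ℝ) * y i) < b) ↔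
        (((k0 : ℝ) + a) / m ≤ u ∧ u < ((k0 : ℝ) + b) / m) := by
      rw [h3, div_le_iff₀ hm0, lt_div_iff₀ hm0]
      constructor
      · rintro ⟨h5, h6⟩
        constructor <;> linarith
      · rintro ⟨h5, h6⟩
        constructor <;> linarith
    simp only [e]
  · intro k _ hk
    rw [if_neg]
    rintro ⟨h5, h6⟩
    rw [div_le_iff₀ hm0] at h5
    rw [lt_div_iff₀ hm0] at h6
    apply hk
    have h7 : (k : ℝ) < k0 + 1 := by linarith
    have h8 : (k0 : ℝ) < k + 1 := by linarith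
    have h7' : k < k0 + 1 := by exact_mod_cast h7
    have h8' : k0 < k + 1 := by exact_mod_cast h8
    omega
  · intro h
    exact absurd (mem_range.2 hk0m) h

/-- the last third and the first third of the negatives -/
lemma neg_diff {ι : Type} (S : Finset ι) (y : ι → ℝ) (m K : ℕ)
    (hK : ∀ T ⊆ S, (∀ i ∈ T, ∃ k : ℤ, 3 * ((m : ℝ) * y i) = k) → T.card ≤ K) :
    |(vF S (fun i => (m : ℝ) * y i) (2 / 3) 1 : ℝ) -
      (vF S (fun i => ((-(m : ℤ) : ℤ) : ℝ) * y i) 0 (1 / 3) : ℝ)| ≤ K := by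
  classical
  set T := S.filter fun i => ∃ k : ℤ, 3 * ((m : ℝ) * y i) = k with hT
  have hTK : T.card ≤ K := hK T (filter_subset _ _) fun i hi => (mem_filter.1 hi).2
  have hTr : (T.card : ℝ) ≤ K := by exact_mod_cast hTK
  have e1 : (vF S (fun i => (m : ℝ) * y i) (2 / 3) 1 : ℝ) -
    (vF S (fun i => ((-(m : ℤ) : ℤ) : ℝ) * y i) 0 (1 / 3) : ℝ) =
    ∑ i ∈ S, ((if 2 / 3 ≤ Int.fract ((m : ℝ) * y i) ∧ Int.fract ((m : ℝ) * y i) < 1
      then (1 : ℝ) else 0) - if 0 ≤ Int.fract (((-(m : ℤ) : ℤ) : ℝ) * y i) ∧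
      Int.fract (((-(m : ℤ) : ℤ) : ℝ) * y i) < 1 / 3 then (1 : ℝ) else 0) := by
    unfold vF
    rw [sum_sub_distrib, card_filter, card_filter]
    push_cast
    rfl
  rw [e1]
  refine (abs_sum_le_sum_abs _ _).trans ?_
  have h5 : ∀ i ∈ S, |(if 2 / 3 ≤ Int.fract ((m : ℝ) * y i) ∧ Int.fract ((m : ℝ) * y i) < 1
      then (1 : ℝ) else 0) - if 0 ≤ Int.fract (((-(m : ℤ) : ℤ) : ℝ) * y i) ∧
      Int.fract (((-(m : ℤ) : ℤ) : ℝ) * y i) < 1 / 3 then (1 : ℝ) else 0| ≤
      if ∃ k : ℤ, 3 * ((m : ℝ) * y i) = k then (1 : ℝ) else 0 := by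
    intro i _
    by_cases hi : ∃ k : ℤ, 3 * ((m : ℝ) * y i) = k
    · rw [if_pos hi]
      split_ifs <;> norm_num
    · rw [if_neg hi]
      have h6 := neg_third hi
      have h7 : ((-(m : ℤ) : ℤ) : ℝ) * y i = -((m : ℝ) * y i) := by
        push_cast
        ring
      rw [h7]
      simp only [h6, sub_self, abs_zero, le_refl]
  refine (sum_le_sum h5).trans ?_
  rw [sum_boole]
  exact hTr

/-- intervals give the thirds of the multiples -/
theorem thirds_of_int {ι : Type} (S : ℕ → Finset ι) (y : ι → ℝ) (w : ℕ → ℝ)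
    (hw : Tendsto w atTop atTop)
    (hfin : ∀ m : ℕ, 1 ≤ m → ∃ K : ℕ, ∀ x, ∀ T ⊆ S x,
      (∀ i ∈ T, ∃ k : ℤ, 3 * ((m : ℝ) * y i) = k) → T.card ≤ K)
    (h3 : ∀ a b : ℝ, 0 ≤ a → a ≤ b → b ≤ 1 →
      Tendsto (fun x => ((vF (S x) y a b : ℝ) - (b - a) * (S x).card) / w x) atTop (𝓝 0))
    (m : ℤ) (hm : m ≠ 0) :
    Tendsto (fun x => ((vF (S x) (fun i => (m : ℝ) * y i) 0 (1 / 3) : ℝ) -
      ((S x).card : ℝ) / 3) / w x) atTop (𝓝 0) := by
  have key : ∀ (n : ℕ), 1 ≤ n → ∀ a : ℝ, 0 ≤ a → a + 1 / 3 ≤ 1 →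
      Tendsto (fun x => ((vF (S x) (fun i => (n : ℝ) * y i) a (a + 1 / 3) : ℝ) -
        ((S x).card : ℝ) / 3) / w x) atTop (𝓝 0) := by
    intro n hn a ha ha1
    have hn0 : (0 : ℝ) < n := by exact_mod_cast hn
    have h4 : Tendsto (fun x => ∑ k ∈ range n, ((vF (S x) y (((k : ℝ) + a) / n)
        (((k : ℝ) + (a + 1 / 3)) / n) : ℝ) - ((((k : ℝ) + (a + 1 / 3)) / n) -
        (((k : ℝ) + a) / n)) * (S x).card) / w x) atTop (𝓝 (∑ _k ∈ range n, 0)) := by
      apply tendsto_finsetSum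
      intro k hk
      rw [mem_range] at hk
      have hk1 : (k : ℝ) + 1 ≤ n := by exact_mod_cast hk
      apply h3
      · positivity
      · apply div_le_div_of_nonneg_right _ hn0.le
        linarith
      · rw [div_le_one hn0]
        linarith
    rw [sum_const_zero] at h4
    refine h4.congr fun x => ?_
    rw [vF_mul (S x) y n hn a (a + 1 / 3) ha ha1, ← sum_div, sum_sub_distrib]
    congr 1
    push_cast
    congr 1
    rw [← sum_mul]
    have e : ∀ k ∈ range n, ((((k : ℝ) + (a + 1 / 3)) / n) - (((k : ℝ) + a) / n)) =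
        1 / (3 * n) := by
      intro k _
      field_simp
      ring
    rw [sum_congr rfl e, sum_const, card_range, nsmul_eq_mul]
    field_simp
  rcases lt_or_gt_of_ne hm with h | h
  · obtain ⟨n, hn⟩ : ∃ n : ℕ, m = -(n : ℤ) := ⟨m.natAbs, by omega⟩
    have hn1 : 1 ≤ n := by omega
    obtain ⟨K, hK⟩ := hfin n hn1
    have h4 := key n hn1 (2 / 3) (by norm_num) (by norm_num)
    have e1 : (2 / 3 + 1 / 3 : ℝ) = 1 := by norm_num
    rw [e1] at h4
    have h5 : Tendsto (fun x => ((vF (S x) (fun i => (n : ℝ) * y i) (2 / 3) 1 : ℝ) -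
      (vF (S x) (fun i => ((-(n : ℤ) : ℤ) : ℝ) * y i) 0 (1 / 3) : ℝ)) / w x) atTop (𝓝 0) := by
      have h6 : Tendsto (fun x => (K : ℝ) / w x) atTop (𝓝 0) := hw.const_div_atTop _
      refine squeeze_zero_norm' ?_ h6
      filter_upwards [hw.eventually_gt_atTop 0] with x hx
      rw [Real.norm_eq_abs, abs_div, abs_of_pos hx]
      exact div_le_div_of_nonneg_right (neg_diff (S x) y n K (hK x)) hx.le
    have h6 := h4.sub h5
    rw [sub_zero] at h6
    refine h6.congr fun x => ?_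
    rw [hn]
    ring
  · obtain ⟨n, hn⟩ : ∃ n : ℕ, m = (n : ℤ) := ⟨m.natAbs, by omega⟩
    have hn1 : 1 ≤ n := by omega
    have h4 := key n hn1 0 le_rfl (by norm_num)
    rw [zero_add] at h4
    refine h4.congr fun x => ?_
    rw [hn]
    simp only [Int.cast_natCast]

section Family

variable (f : ℤ[X]) (P : ℕ → Prop) [DecidablePred P]

/-- **The converse.** -/
theorem decide_conv (w : ℕ → ℝ) (hw : Tendsto w atTop atTop) (h0 : f.eval 0 ≠ 0)
    (h3 : ∀ a b : ℝ, 0 ≤ a → a ≤ b → b ≤ 1 →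
      Tendsto (fun x => ((rc f P a b x : ℝ) - (b - a) * (fam f P x).card) / w x) atTop (𝓝 0))
    (m : ℤ) (hm : m ≠ 0) (P' : ℕ → Prop) [DecidablePred P']
    (hPP : ∀ p : ℕ, p.Prime → ¬ (p : ℤ) ∣ m → (P p ↔ P' p)) :
    Tendsto (fun x => ((rc (f.scaleRoots m) P' 0 (1 / 3) x : ℝ) -
      ((fam (f.scaleRoots m) P' x).card : ℝ) / 3) / w x) atTop (𝓝 0) := by
  have h4 := thirds_of_int (fam f P) yy w hw (fun m hm => exceptional f P h0 m hm)
    (fun a b ha hab hb => by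
      refine (h3 a b ha hab hb).congr fun x => ?_
      have h8 := rc_eq f P a b x
      simp only [one_mul] at h8
      rw [h8]) m hm
  set K : ℝ := ∑ p ∈ m.natAbs.primeFactors, (p : ℝ) with hK
  have h5 : Tendsto (fun x => (2 * K) / w x) atTop (𝓝 0) := hw.const_div_atTop _
  have h6 : Tendsto (fun x =>
      (((rc (f.scaleRoots m) P' 0 (1 / 3) x : ℝ) -
      ((fam (f.scaleRoots m) P' x).card : ℝ) / 3) -
      ((vF (fam f P x) (fun q => (m : ℝ) * yy q) 0 (1 / 3) : ℝ) - ((fam f P x).card : ℝ) / 3)) /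
      w x) atTop (𝓝 0) := by
    refine squeeze_zero_norm' ?_ h5
    filter_upwards [hw.eventually_gt_atTop 0] with x hx
    rw [Real.norm_eq_abs, abs_div, abs_of_pos hx]
    refine div_le_div_of_nonneg_right ?_ hx.le
    have a1 := scale_diff f P P' m hm hPP 0 (1 / 3) x
    have a2 := scale_diff f P P' m hm hPP 0 1 x
    rw [card_all, rc_all] at a2
    rw [abs_le] at a1 a2 ⊢
    constructor <;> linarith [a1.1, a1.2, a2.1, a2.2]
  have h7 := h6.add h4
  rw [add_zero] at h7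
  refine h7.congr fun x => ?_
  ring

end Family

end Pool.Agent.Run7.h724.Fam
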