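import Pool.Agent.Run7.h724.FinD

/-!
# Shares of the roots
-/

set_option autoImplicit false

namespace Pool.Agent.Run7.h724.Fam

open Finset Filter Topology Polynomial

/-- shares and differences -/
lemma ratio {u c w : ℕ → ℝ} {K : ℝ} (hw : Tendsto w atTop atTop) (hc : ∀ x, |w x - c x| ≤ K)
    (L : ℝ) : Tendsto (fun x => u x / c x) atTop (𝓝 L) ↔
      Tendsto (fun x => (u x - L * c x) / w x) atTop (𝓝 0) := by
  have hw0 : ∀ᶠ x in atTop, 0 < w x := hw.eventually_gt_atTop 0
  have hct : Tendsto c atTop atTop := by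
    refine tendsto_atTop_mono (fun x => ?_) (tendsto_atTop_add_const_right atTop (-K) hw)
    have := (abs_le.1 (hc x)).2
    linarith
  have hc0 : ∀ᶠ x in atTop, 0 < c x := hct.eventually_gt_atTop 0
  have h1 : Tendsto (fun x => (w x - c x) / w x) atTop (𝓝 0) := by
    have h2 : Tendsto (fun x => K / w x) atTop (𝓝 0) := hw.const_div_atTop _
    refine squeeze_zero_norm' ?_ h2
    filter_upwards [hw0] with x hx
    rw [Real.norm_eq_abs, abs_div, abs_of_pos hx]
    exact div_le_div_of_nonneg_right (hc x) hx.le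
  have h2 : Tendsto (fun x => (w x - c x) / c x) atTop (𝓝 0) := by
    have h2 : Tendsto (fun x => K / c x) atTop (𝓝 0) := hct.const_div_atTop _
    refine squeeze_zero_norm' ?_ h2
    filter_upwards [hc0] with x hx
    rw [Real.norm_eq_abs, abs_div, abs_of_pos hx]
    exact div_le_div_of_nonneg_right (hc x) hx.le
  have h3 : Tendsto (fun x => c x / w x) atTop (𝓝 1) := by
    have := h1.const_sub 1
    rw [sub_zero] at this
    refine this.congr' ?_
    filter_upwards [hw0] with x hx
    field_simp
    ring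
  have h4 : Tendsto (fun x => w x / c x) atTop (𝓝 1) := by
    have := h2.const_add 1
    rw [add_zero] at this
    refine this.congr' ?_
    filter_upwards [hc0] with x hx
    field_simp
    ring
  constructor
  · intro h
    have h5 := (h.sub_const L).mul h3
    rw [sub_self, zero_mul] at h5
    refine h5.congr' ?_
    filter_upwards [hw0, hc0] with x hx hx'
    field_simp
  · intro h
    have h5 := (h.mul h4).add_const L
    rw [zero_mul, zero_add] at h5
    refine h5.congr' ?_
    filter_upwards [hw0, hc0] with x hx hx'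
    field_simp
    ring

lemma rts_card (f : ℤ[X]) (m : ℤ) (p : ℕ) (hp : p.Prime) (hd : ¬ (p : ℤ) ∣ m) :
    (rts f p).card = (rts (f.scaleRoots m) p).card := by
  have h1 := per_prime f m p hp hd 0 1
  rw [rin_all] at h1
  rw [← h1]
  congr 1
  symm
  apply filter_true_of_mem
  intro ν _
  exact ⟨Int.fract_nonneg _, Int.fract_lt_one _⟩

lemma prs_card_tendsto (P : ℕ → Prop) [DecidablePred P] (h : {p : ℕ | p.Prime ∧ P p}.Infinite) :
    Tendsto (fun x => (prs P x).card) atTop atTop := by
  rw [tendsto_atTop_atTop]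
  intro b
  obtain ⟨t, ht, htb⟩ := h.exists_subset_card_eq b
  refine ⟨t.sup id, fun x hx => ?_⟩
  rw [← htb]
  apply card_le_card
  intro p hp
  have h1 := ht hp
  unfold prs
  rw [mem_filter, mem_range]
  refine ⟨?_, h1⟩
  have h2 : p ≤ t.sup id := Finset.le_sup (f := id) hp
  omega

lemma card_diff (f : ℤ[X]) (P P' : ℕ → Prop) [DecidablePred P] [DecidablePred P'] (m : ℤ)
    (hm : m ≠ 0) (hPP : ∀ p : ℕ, p.Prime → ¬ (p : ℤ) ∣ m → (P p ↔ P' p)) (x : ℕ) :
    |((fam f P x).card : ℝ) - ((fam (f.scaleRoots m) P' x).card : ℝ)| ≤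
      ∑ p ∈ m.natAbs.primeFactors, (p : ℝ) := by
  have a2 := scale_diff f P P' m hm hPP 0 1 x
  rw [card_all, rc_all] at a2
  exact a2

end Pool.Agent.Run7.h724.Fam
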