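import Pool.Agent.Run7.h724.SignD

/-!
# Products of signs and the joint Sato-Tate law: approximation by signs
-/

set_option autoImplicit false

namespace Pool.Agent.Run7.h724.Pro

open Finset Filter Topology
open scoped Real
open Pool.Agent.Run7.h724.Sign

/-- the mean with respect to the Sato-Tate measure -/
noncomputable def II (g : ℝ → ℝ) : ℝ := (2 / π) * ∫ u in (0 : ℝ)..π, g u * Real.sin u ^ 2

/-- the sign of `cos (m u)` -/
noncomputable def ss (m : ℕ) (u : ℝ) : ℝ := Real.sign (Real.cos (m * u))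

/-- its mean -/
noncomputable def sM (m : ℕ) : ℝ := if m = 0 then 1 else sm m

/-- continuous on `[0, π]` -/
def Ct (g : ℝ → ℝ) : Prop := ContinuousOn g (Set.Icc 0 π)

lemma Ct.ii {g : ℝ → ℝ} (h : Ct g) :
    IntervalIntegrable (fun u => g u * Real.sin u ^ 2) MeasureTheory.volume 0 π := by
  apply ContinuousOn.intervalIntegrable
  rw [Set.uIcc_of_le Real.pi_pos.le]
  exact h.mul (by fun_prop)

lemma Ct.add {g h : ℝ → ℝ} (hg : Ct g) (hh : Ct h) : Ct (g + h) := ContinuousOn.add hg hh

lemma Ct.smul {g : ℝ → ℝ} (c : ℝ) (hg : Ct g) : Ct (c • g) := ContinuousOn.const_smul hg c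

lemma II_add {g h : ℝ → ℝ} (hg : Ct g) (hh : Ct h) : II (g + h) = II g + II h := by
  unfold II
  rw [← mul_add, ← intervalIntegral.integral_add hg.ii hh.ii]
  congr 1
  apply intervalIntegral.integral_congr
  intro u _
  simp only [Pi.add_apply]
  ring

lemma II_smul (c : ℝ) (g : ℝ → ℝ) : II (c • g) = c * II g := by
  have h1 : ∫ u in (0 : ℝ)..π, (c • g) u * Real.sin u ^ 2 =
      c * ∫ u in (0 : ℝ)..π, g u * Real.sin u ^ 2 := by
    rw [← intervalIntegral.integral_const_mul]
    apply intervalIntegral.integral_congr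
    intro u _
    simp only [Pi.smul_apply, smul_eq_mul]
    ring
  unfold II
  rw [h1]
  ring

lemma II_mono {g h : ℝ → ℝ} (hg : Ct g) (hh : Ct h) (hgh : ∀ u ∈ Set.Icc 0 π, g u ≤ h u) :
    II g ≤ II h := by
  unfold II
  have hpi := Real.pi_pos
  apply mul_le_mul_of_nonneg_left _ (by positivity)
  apply intervalIntegral.integral_mono_on hpi.le hg.ii hh.ii
  intro u hu
  exact mul_le_mul_of_nonneg_right (hgh u hu) (sq_nonneg _)

lemma II_const (c : ℝ) : II (fun _ => c) = c := by
  have h1 : (2 / π) * ∫ u in (0 : ℝ)..π, Real.sin u ^ 2 = 1 := by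
    rw [FF_integral, FF_pi, FF_zero, sub_zero]
  unfold II
  rw [intervalIntegral.integral_const_mul, mul_left_comm, h1, mul_one]

lemma ct_const (c : ℝ) : Ct (fun _ => c) := continuousOn_const

lemma II_near {g h : ℝ → ℝ} (hg : Ct g) (hh : Ct h) {ε : ℝ}
    (hgh : ∀ u ∈ Set.Icc 0 π, |g u - h u| ≤ ε) : |II g - II h| ≤ ε := by
  have h1 : II g ≤ II h + ε := by
    have := II_mono hg (hh.add (ct_const ε)) (fun u hu => by
      have := (abs_le.1 (hgh u hu)).2
      simp only [Pi.add_apply]
      linarith)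
    rwa [II_add hh (ct_const ε), II_const] at this
  have h2 : II h ≤ II g + ε := by
    have := II_mono hh (hg.add (ct_const ε)) (fun u hu => by
      have := (abs_le.1 (hgh u hu)).1
      simp only [Pi.add_apply]
      linarith)
    rwa [II_add hg (ct_const ε), II_const] at this
  rw [abs_le]
  constructor <;> linarith

/-- the pairs: a sign and its mean -/
noncomputable def Fp (m : ℕ) : (ℝ → ℝ) × ℝ := (ss m, sM m)

/-- their span -/
noncomputable def VV : Submodule ℝ ((ℝ → ℝ) × ℝ) := Submodule.span ℝ (Set.range Fp)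

/-- approximable by combinations of signs -/
def AP (g : ℝ → ℝ) : Prop := ∀ ε : ℝ, 0 < ε → ∃ v ∈ VV,
  (∀ u ∈ Set.Icc 0 π, |g u - v.1 u| ≤ ε) ∧ |II g - v.2| ≤ ε

lemma AP.add {g h : ℝ → ℝ} (cg : Ct g) (ch : Ct h) (hg : AP g) (hh : AP h) : AP (g + h) := by
  intro ε hε
  obtain ⟨v, hv, v1, v2⟩ := hg (ε / 2) (by positivity)
  obtain ⟨w, hw, w1, w2⟩ := hh (ε / 2) (by positivity)
  refine ⟨v + w, add_mem hv hw, fun u hu => ?_, ?_⟩
  · have e : (g + h) u - (v + w).1 u = (g u - v.1 u) + (h u - w.1 u) := by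
      simp only [Pi.add_apply, Prod.fst_add]
      ring
    rw [e]
    refine (abs_add_le _ _).trans ?_
    linarith [v1 u hu, w1 u hu]
  · have e : II (g + h) - (v + w).2 = (II g - v.2) + (II h - w.2) := by
      rw [II_add cg ch, Prod.snd_add]
      ring
    rw [e]
    refine (abs_add_le _ _).trans ?_
    linarith

lemma AP.smul {g : ℝ → ℝ} (c : ℝ) (hg : AP g) : AP (c • g) := by
  intro ε hε
  obtain ⟨v, hv, v1, v2⟩ := hg (ε / (|c| + 1)) (by positivity)
  have hc : |c| * (ε / (|c| + 1)) ≤ ε := by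
    rw [mul_div_assoc', div_le_iff₀ (by positivity)]
    nlinarith [abs_nonneg c]
  refine ⟨c • v, VV.smul_mem c hv, fun u hu => ?_, ?_⟩
  · have e : (c • g) u - (c • v).1 u = c * (g u - v.1 u) := by
      simp only [Pi.smul_apply, Prod.smul_fst, smul_eq_mul]
      ring
    rw [e, abs_mul]
    exact (mul_le_mul_of_nonneg_left (v1 u hu) (abs_nonneg _)).trans hc
  · have e : II (c • g) - (c • v).2 = c * (II g - v.2) := by
      rw [II_smul, Prod.smul_snd, smul_eq_mul]
      ring
    rw [e, abs_mul]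
    exact (mul_le_mul_of_nonneg_left v2 (abs_nonneg _)).trans hc

lemma AP.lim {g : ℝ → ℝ} (cg : Ct g)
    (h : ∀ ε : ℝ, 0 < ε → ∃ f, Ct f ∧ AP f ∧ ∀ u ∈ Set.Icc 0 π, |g u - f u| ≤ ε) : AP g := by
  intro ε hε
  obtain ⟨f, cf', hf, h1⟩ := h (ε / 2) (by positivity)
  obtain ⟨v, hv, v1, v2⟩ := hf (ε / 2) (by positivity)
  refine ⟨v, hv, fun u hu => ?_, ?_⟩
  · have e : g u - v.1 u = (g u - f u) + (f u - v.1 u) := by ring
    rw [e]
    refine (abs_add_le _ _).trans ?_
    linarith [h1 u hu, v1 u hu]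
  · have e : II g - v.2 = (II g - II f) + (II f - v.2) := by ring
    rw [e]
    refine (abs_add_le _ _).trans ?_
    linarith [II_near cg cf' h1]

lemma int_cos (n : ℤ) (hn : n ≠ 0) : ∫ u in (0 : ℝ)..π, Real.cos (n * u) = 0 := by
  have hn' : (n : ℝ) ≠ 0 := by exact_mod_cast hn
  rw [intervalIntegral.integral_comp_mul_left (fun x => Real.cos x) hn', integral_cos]
  rw [Real.sin_int_mul_pi]
  simp

lemma II_cos (j : ℕ) (hj : 1 ≤ j) : II (fun u => Real.cos (j * u)) = cm j := by
  have hpi := Real.pi_ne_zero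
  unfold II
  have h1 : ∀ u : ℝ, Real.cos (j * u) * Real.sin u ^ 2 =
      1 / 2 * Real.cos (((j : ℤ) : ℝ) * u) - (1 / 4 * Real.cos (((j + 2 : ℤ) : ℝ) * u) +
        1 / 4 * Real.cos (((j - 2 : ℤ) : ℝ) * u)) := by
    intro u
    have e1 : ((j + 2 : ℤ) : ℝ) * u = j * u + 2 * u := by push_cast; ring
    have e2 : ((j - 2 : ℤ) : ℝ) * u = j * u - 2 * u := by push_cast; ring
    have e3 : Real.sin u ^ 2 = 1 / 2 - Real.cos (2 * u) / 2 := Real.sin_sq_eq_half_sub u
    rw [e1, e2, Real.cos_add, Real.cos_sub, e3]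
    push_cast
    ring
  have ci : ∀ n : ℤ, IntervalIntegrable (fun u : ℝ => Real.cos ((n : ℝ) * u))
      MeasureTheory.volume 0 π := fun n => (by fun_prop : Continuous _).intervalIntegrable _ _
  rw [intervalIntegral.integral_congr (fun u _ => h1 u),
    intervalIntegral.integral_sub ((ci _).const_mul _) (((ci _).const_mul _).add
      ((ci _).const_mul _)), intervalIntegral.integral_add ((ci _).const_mul _)
      ((ci _).const_mul _), intervalIntegral.integral_const_mul,
    intervalIntegral.integral_const_mul, intervalIntegral.integral_const_mul,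
    int_cos _ (by omega), int_cos _ (by omega)]
  unfold cm
  split_ifs with h
  · subst h
    have : ∀ u : ℝ, Real.cos ((((2 : ℕ) : ℤ) - 2 : ℤ) * u) = 1 := by
      intro u
      norm_num
    rw [intervalIntegral.integral_congr (fun u _ => this u)]
    rw [intervalIntegral.integral_const]
    simp only [smul_eq_mul]
    field_simp
    ring
  · rw [int_cos _ (by omega)]
    simp

lemma ct_cos (j : ℕ) : Ct (fun u => Real.cos (j * u)) := by
  unfold Ct
  fun_prop

lemma AP_cos (j : ℕ) : AP (fun u => Real.cos (j * u)) := by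
  rcases Nat.eq_zero_or_pos j with rfl | hj
  · intro ε hε
    refine ⟨Fp 0, Submodule.subset_span ⟨0, rfl⟩, fun u _ => ?_, ?_⟩
    · have : (Fp 0).1 u = 1 := by
        change Real.sign (Real.cos ((0 : ℕ) * u)) = 1
        rw [Nat.cast_zero, zero_mul, Real.cos_zero, Real.sign_of_pos one_pos]
      rw [this]
      change |Real.cos ((0 : ℕ) * u) - 1| ≤ ε
      rw [Nat.cast_zero, zero_mul, Real.cos_zero, sub_self, abs_zero]
      exact hε.le
    · have e : (fun u : ℝ => Real.cos ((0 : ℕ) * u)) = fun _ => (1 : ℝ) := by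
        funext u
        rw [Nat.cast_zero, zero_mul, Real.cos_zero]
      rw [e, II_const]
      change |1 - sM 0| ≤ ε
      rw [sM, if_pos rfl, sub_self, abs_zero]
      exact hε.le
  · intro ε hε
    obtain ⟨C, hC, h⟩ := cos_approx 1
    obtain ⟨J, hJ2, hJ⟩ : ∃ J : ℕ, 2 ≤ J ∧ C / Real.log J < ε := by
      have h1 : Tendsto (fun M : ℕ => C / Real.log M) atTop (𝓝 0) :=
        (Real.tendsto_log_atTop.comp tendsto_natCast_atTop_atTop).const_div_atTop _
      obtain ⟨M, hM⟩ := ((h1.eventually (gt_mem_nhds hε)).and (eventually_ge_atTop 2)).exists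
      exact ⟨M, hM.2, hM.1⟩
    refine ⟨∑ l ∈ Icc 1 J, (π / 4 * cf l) • Fp (l * j), ?_, fun u _ => ?_, ?_⟩
    · exact sum_mem fun l _ => VV.smul_mem _ (Submodule.subset_span ⟨_, rfl⟩)
    · have h2 := h J hJ2 (j * u)
      rw [pow_one] at h2
      have e : (∑ l ∈ Icc 1 J, (π / 4 * cf l) • Fp (l * j)).1 u =
          π / 4 * ∑ l ∈ Icc 1 J, cf l * Real.sign (Real.cos (l * (j * u))) := by
        rw [Prod.fst_sum, Finset.sum_apply, mul_sum]
        refine sum_congr rfl fun l _ => ?_
        change (π / 4 * cf l) * Real.sign (Real.cos ((l * j : ℕ) * u)) = _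
        rw [Nat.cast_mul, mul_assoc (l : ℝ)]
        ring
      rw [e]
      exact h2.trans hJ.le
    · rw [II_cos j hj]
      have e : (∑ l ∈ Icc 1 J, (π / 4 * cf l) • Fp (l * j)).2 =
          π / 4 * ∑ l ∈ Icc 1 J, cf l * sm (l * j) := by
        rw [Prod.snd_sum, mul_sum]
        refine sum_congr rfl fun l hl => ?_
        rw [mem_Icc] at hl
        change (π / 4 * cf l) * sM (l * j) = _
        rw [sM, if_neg (Nat.mul_ne_zero (by omega) (by omega))]
        ring
      rw [e, sm_id J j (by omega), sub_self, abs_zero]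
      exact hε.le

/-- the span of the cosines -/
noncomputable def TC : Submodule ℝ (ℝ → ℝ) :=
  Submodule.span ℝ (Set.range fun j : ℕ => fun u : ℝ => Real.cos (j * u))

lemma TC_mul {g : ℝ → ℝ} (hg : g ∈ TC) : (fun u => g u * Real.cos u) ∈ TC := by
  unfold TC at hg
  induction hg using Submodule.span_induction with
  | mem x hx =>
    obtain ⟨j, rfl⟩ := hx
    rcases Nat.eq_zero_or_pos j with rfl | hj
    · have e : (fun u : ℝ => Real.cos ((0 : ℕ) * u) * Real.cos u) =
          fun u => Real.cos ((1 : ℕ) * u) := by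
        funext u
        simp
      exact e ▸ Submodule.subset_span ⟨1, rfl⟩
    · have e : (fun u : ℝ => Real.cos (j * u) * Real.cos u) =
          (1 / 2 : ℝ) • (fun u => Real.cos ((j + 1 : ℕ) * u)) +
          (1 / 2 : ℝ) • (fun u => Real.cos ((j - 1 : ℕ) * u)) := by
        funext u
        simp only [Pi.add_apply, Pi.smul_apply, smul_eq_mul]
        rw [Nat.cast_sub hj, Nat.cast_add, Nat.cast_one, add_mul, sub_mul, one_mul, Real.cos_add,
          Real.cos_sub]
        ring
      change (fun u : ℝ => Real.cos (j * u) * Real.cos u) ∈ TC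
      rw [e]
      exact TC.add_mem (TC.smul_mem _ (Submodule.subset_span ⟨_, rfl⟩))
        (TC.smul_mem _ (Submodule.subset_span ⟨_, rfl⟩))
  | zero =>
    have e : (fun u : ℝ => (0 : ℝ → ℝ) u * Real.cos u) = 0 := by
      funext u
      simp
    rw [e]
    exact TC.zero_mem
  | add x y _ _ hx hy =>
    have e : (fun u => (x + y) u * Real.cos u) =
        (fun u => x u * Real.cos u) + fun u => y u * Real.cos u := by
      funext u
      simp only [Pi.add_apply]
      ring
    rw [e]
    exact TC.add_mem hx hy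
  | smul c x _ hx =>
    have e : (fun u => (c • x) u * Real.cos u) = c • fun u => x u * Real.cos u := by
      funext u
      simp only [Pi.smul_apply, smul_eq_mul]
      ring
    rw [e]
    exact TC.smul_mem c hx

lemma TC_pow (n : ℕ) : (fun u : ℝ => Real.cos u ^ n) ∈ TC := by
  induction n with
  | zero =>
    have e : (fun u : ℝ => Real.cos u ^ 0) = fun u => Real.cos ((0 : ℕ) * u) := by
      funext u
      simp
    rw [e]
    exact Submodule.subset_span ⟨0, rfl⟩
  | succ n ih =>
    have e : (fun u : ℝ => Real.cos u ^ (n + 1)) = fun u => Real.cos u ^ n * Real.cos u := by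
      funext u
      rw [pow_succ]
    rw [e]
    exact TC_mul ih

lemma TC_AP {g : ℝ → ℝ} (hg : g ∈ TC) : Ct g ∧ AP g := by
  unfold TC at hg
  induction hg using Submodule.span_induction with
  | mem x hx =>
    obtain ⟨j, rfl⟩ := hx
    exact ⟨ct_cos j, AP_cos j⟩
  | zero =>
    refine ⟨continuousOn_const, ?_⟩
    have e : (0 : ℝ → ℝ) = (0 : ℝ) • fun u : ℝ => Real.cos ((0 : ℕ) * u) := by
      rw [zero_smul]
    rw [e]
    exact (AP_cos 0).smul 0
  | add x y _ _ hx hy => exact ⟨hx.1.add hy.1, hx.2.add hx.1 hy.1 hy.2⟩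
  | smul c x _ hx => exact ⟨hx.1.smul c, hx.2.smul c⟩

lemma TC_poly (P : Polynomial ℝ) : (fun u : ℝ => P.eval (Real.cos u)) ∈ TC := by
  induction P using Polynomial.induction_on' with
  | add p q hp hq =>
    have e : (fun u : ℝ => (p + q).eval (Real.cos u)) =
        (fun u => p.eval (Real.cos u)) + fun u => q.eval (Real.cos u) := by
      funext u
      simp
    rw [e]
    exact TC.add_mem hp hq
  | monomial n a =>
    have e : (fun u : ℝ => (Polynomial.monomial n a).eval (Real.cos u)) =
        a • fun u => Real.cos u ^ n := by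
      funext u
      simp
    rw [e]
    exact TC.smul_mem a (TC_pow n)

/-- **Every continuous function is approximable by combinations of signs.** -/
theorem AP_cont {g : ℝ → ℝ} (hg : Ct g) : AP g := by
  refine AP.lim hg fun ε hε => ?_
  have hc : ContinuousOn (fun x => g (Real.arccos x)) (Set.Icc (-1) 1) := by
    refine ContinuousOn.comp hg Real.continuous_arccos.continuousOn fun x _ => ?_
    exact ⟨Real.arccos_nonneg x, Real.arccos_le_pi x⟩
  obtain ⟨P, hP⟩ := exists_polynomial_near_of_continuousOn (-1) 1 _ hc ε hε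
  obtain ⟨h1, h2⟩ := TC_AP (TC_poly P)
  refine ⟨_, h1, h2, fun u hu => ?_⟩
  have h3 := hP (Real.cos u) ⟨Real.neg_one_le_cos u, Real.cos_le_one u⟩
  rw [Real.arccos_cos hu.1 hu.2] at h3
  rw [abs_sub_comm]
  exact h3.le

end Pool.Agent.Run7.h724.Pro
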