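import Pool.Agent.Run7.h724.ProA

/-!
# Products of signs and the joint Sato-Tate law: the two directions
-/

set_option autoImplicit false

namespace Pool.Agent.Run7.h724.Pro

open Finset Filter Topology
open scoped Real
open Pool.Agent.Run7.h724.Sign

lemma prod_diff {κ : Type} [DecidableEq κ] (s : Finset κ) (x y : κ → ℝ) (D δ : ℝ) (hD : 1 ≤ D)
    (hx : ∀ i ∈ s, |x i| ≤ D) (hy : ∀ i ∈ s, |y i| ≤ D) (hδ : ∀ i ∈ s, |x i - y i| ≤ δ) :
    |∏ i ∈ s, x i - ∏ i ∈ s, y i| ≤ s.card * D ^ s.card * δ := by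
  induction s using Finset.induction_on with
  | empty => simp
  | insert a s ha ih =>
    have h1 := ih (fun i hi => hx i (mem_insert_of_mem hi)) (fun i hi => hy i (mem_insert_of_mem hi))
      (fun i hi => hδ i (mem_insert_of_mem hi))
    have ha1 := hx a (mem_insert_self a s)
    have ha3 := hδ a (mem_insert_self a s)
    have h2 : |∏ i ∈ s, y i| ≤ D ^ s.card := by
      rw [abs_prod, ← prod_const]
      exact prod_le_prod (fun i _ => abs_nonneg _) fun i hi => hy i (mem_insert_of_mem hi)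
    rw [prod_insert ha, prod_insert ha, card_insert_of_notMem ha]
    have e : x a * ∏ i ∈ s, x i - y a * ∏ i ∈ s, y i =
        x a * (∏ i ∈ s, x i - ∏ i ∈ s, y i) + (x a - y a) * ∏ i ∈ s, y i := by ring
    rw [e]
    refine (abs_add_le _ _).trans ?_
    rw [abs_mul, abs_mul]
    have hδ0 : 0 ≤ δ := (abs_nonneg _).trans ha3
    have hD0 : 0 ≤ D := by linarith
    have hp : 0 ≤ D ^ s.card := by positivity
    have h3 : |x a| * |∏ i ∈ s, x i - ∏ i ∈ s, y i| ≤ D * (s.card * D ^ s.card * δ) :=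
      mul_le_mul ha1 h1 (abs_nonneg _) hD0
    have h4 : |x a - y a| * |∏ i ∈ s, y i| ≤ δ * D ^ s.card :=
      mul_le_mul ha3 h2 (abs_nonneg _) hδ0
    have h5 : δ * D ^ s.card ≤ δ * (D ^ s.card * D) :=
      mul_le_mul_of_nonneg_left (le_mul_of_one_le_right hp hD) hδ0
    push_cast
    rw [pow_succ]
    nlinarith

section Fam

variable {ι : Type} (S : ℕ → Finset ι) {k : ℕ} (θ : ι → Fin k → ℝ)

/-- the mean -/
noncomputable def av (g : ι → ℝ) (N : ℕ) : ℝ := (∑ i ∈ S N, g i) / (S N).card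

/-- the law for continuous functions -/
def Law : Prop := ∀ f : Fin k → ℝ → ℝ, (∀ l, Ct (f l)) →
  Tendsto (av S fun i => ∏ l, f l (θ i l)) atTop (𝓝 (∏ l, II (f l)))

/-- the law for signs -/
def SLaw : Prop := ∀ m : Fin k → ℕ,
  Tendsto (av S fun i => ∏ l, ss (m l) (θ i l)) atTop (𝓝 (∏ l, sM (m l)))

variable {S θ}

lemma av_near {g h : ι → ℝ} {ε : ℝ} (hε : 0 ≤ ε) (N : ℕ) (hgh : ∀ i ∈ S N, |g i - h i| ≤ ε) :
    |av S g N - av S h N| ≤ ε := by
  unfold av
  rcases Nat.eq_zero_or_pos (S N).card with h0 | h0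
  · rw [h0]
    simpa using hε
  · have h0' : (0 : ℝ) < (S N).card := by exact_mod_cast h0
    rw [← sub_div, ← sum_sub_distrib, abs_div, abs_of_pos h0', div_le_iff₀ h0']
    refine (abs_sum_le_sum_abs _ _).trans ?_
    refine (sum_le_sum hgh).trans (le_of_eq ?_)
    rw [sum_const, nsmul_eq_mul]
    ring

lemma av_sum {κ : Type} (T : Finset κ) (c : κ → ℝ) (g : κ → ι → ℝ) (N : ℕ) :
    av S (fun i => ∑ t ∈ T, c t * g t i) N = ∑ t ∈ T, c t * av S (g t) N := by
  unfold av
  rw [sum_comm, sum_div]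
  refine sum_congr rfl fun t _ => ?_
  rw [← mul_sum, mul_div_assoc]

/-- products of combinations of signs -/
lemma law_comb (h : SLaw S θ) (v : Fin k → (ℝ → ℝ) × ℝ) (hv : ∀ l, v l ∈ VV) :
    Tendsto (av S fun i => ∏ l, (v l).1 (θ i l)) atTop (𝓝 (∏ l, (v l).2)) := by
  classical
  have h1 : ∀ l, ∃ c : ℕ →₀ ℝ, c.sum (fun m a => a • Fp m) = v l := fun l =>
    (Finsupp.mem_span_range_iff_exists_finsupp.1 (hv l))
  choose c hc using h1
  have h2 : ∀ l u, (v l).1 u = ∑ m ∈ (c l).support, c l m * ss m u := by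
    intro l u
    rw [← hc l, Finsupp.sum, Prod.fst_sum, Finset.sum_apply]
    rfl
  have h3 : ∀ l, (v l).2 = ∑ m ∈ (c l).support, c l m * sM m := by
    intro l
    rw [← hc l, Finsupp.sum, Prod.snd_sum]
    rfl
  have e1 : (fun i => ∏ l, (v l).1 (θ i l)) = fun i =>
      ∑ p ∈ Fintype.piFinset (fun l => (c l).support), (∏ l, c l (p l)) *
        ∏ l, ss (p l) (θ i l) := by
    funext i
    simp only [h2]
    rw [Finset.prod_univ_sum]
    refine sum_congr rfl fun p _ => ?_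
    rw [← prod_mul_distrib]
  have e2 : ∏ l, (v l).2 = ∑ p ∈ Fintype.piFinset (fun l => (c l).support),
      (∏ l, c l (p l)) * ∏ l, sM (p l) := by
    simp only [h3]
    rw [Finset.prod_univ_sum]
    refine sum_congr rfl fun p _ => ?_
    rw [← prod_mul_distrib]
  rw [e1, e2]
  have e3 : (av S fun i => ∑ p ∈ Fintype.piFinset (fun l => (c l).support), (∏ l, c l (p l)) *
        ∏ l, ss (p l) (θ i l)) = fun N => ∑ p ∈ Fintype.piFinset (fun l => (c l).support),
        (∏ l, c l (p l)) * av S (fun i => ∏ l, ss (p l) (θ i l)) N := by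
    funext N
    exact av_sum _ _ _ N
  rw [e3]
  exact tendsto_finsetSum _ fun p _ => (h p).const_mul _

/-- a limit by uniform approximation -/
lemma tendsto_of_near {a : ℕ → ℝ} {L : ℝ} (h : ∀ ε : ℝ, 0 < ε → ∃ (b : ℕ → ℝ) (M : ℝ),
    Tendsto b atTop (𝓝 M) ∧ (∀ N, |a N - b N| ≤ ε) ∧ |L - M| ≤ ε) : Tendsto a atTop (𝓝 L) := by
  rw [Metric.tendsto_atTop]
  intro ε hε
  obtain ⟨b, M, h1, h2, h3⟩ := h (ε / 4) (by positivity)
  obtain ⟨N0, hN0⟩ := (Metric.tendsto_atTop.1 h1) (ε / 4) (by positivity)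
  refine ⟨N0, fun N hN => ?_⟩
  have h4 := hN0 N hN
  rw [Real.dist_eq] at h4 ⊢
  have h5 := h2 N
  rw [abs_lt] at h4 ⊢
  rw [abs_le] at h3 h5
  constructor <;> linarith [h4.1, h4.2, h3.1, h3.2, h5.1, h5.2]

lemma Ct.bdd {g : ℝ → ℝ} (h : Ct g) : ∃ D : ℝ, ∀ u ∈ Set.Icc 0 π, |g u| ≤ D := by
  obtain ⟨D, hD⟩ := isCompact_Icc.exists_bound_of_continuousOn h
  exact ⟨D, fun u hu => hD u hu⟩

/-- **Signs imply continuous functions.** -/
theorem law_of_signs (hθ : ∀ i l, θ i l ∈ Set.Icc 0 π) (h : SLaw S θ) : Law S θ := by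
  classical
  intro f hf
  choose D0 hD0 using fun l => (hf l).bdd
  obtain ⟨D, hD, hD1⟩ : ∃ D : ℝ, 1 ≤ D ∧ ∀ l, D0 l ≤ D := by
    refine ⟨1 + ∑ l, |D0 l|, ?_, fun l => ?_⟩
    · have : 0 ≤ ∑ l, |D0 l| := sum_nonneg fun l _ => abs_nonneg _
      linarith
    · have := single_le_sum (f := fun l => |D0 l|) (fun l _ => abs_nonneg _) (mem_univ l)
      linarith [le_abs_self (D0 l)]
  have hII : ∀ l, |II (f l)| ≤ D := by
    intro l
    have h1 := II_near (hf l) (ct_const 0) (ε := D) fun u hu => by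
      rw [sub_zero]
      exact (hD0 l u hu).trans (hD1 l)
    rwa [II_const, sub_zero] at h1
  refine tendsto_of_near fun ε hε => ?_
  obtain ⟨δ, hδ0, hδ1, hδ⟩ : ∃ δ : ℝ, 0 < δ ∧ δ ≤ 1 ∧ (k : ℝ) * (D + 1) ^ k * δ ≤ ε := by
    refine ⟨min 1 (ε / ((k : ℝ) * (D + 1) ^ k + 1)), ?_, min_le_left _ _, ?_⟩
    · apply lt_min one_pos
      positivity
    · have h1 : (0 : ℝ) ≤ (k : ℝ) * (D + 1) ^ k := by positivity
      calc (k : ℝ) * (D + 1) ^ k * min 1 (ε / ((k : ℝ) * (D + 1) ^ k + 1))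
          ≤ (k : ℝ) * (D + 1) ^ k * (ε / ((k : ℝ) * (D + 1) ^ k + 1)) :=
            mul_le_mul_of_nonneg_left (min_le_right _ _) h1
        _ ≤ ε := by
            rw [mul_div_assoc', div_le_iff₀ (by positivity)]
            nlinarith
  choose v hv hv1 hv2 using fun l => AP_cont (hf l) δ hδ0
  refine ⟨_, _, law_comb h v hv, fun N => ?_, ?_⟩
  · refine av_near hε.le N fun i _ => ?_
    have h1 := prod_diff univ (fun l => f l (θ i l)) (fun l => (v l).1 (θ i l)) (D + 1) δ
      (by linarith) (fun l _ => by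
        have := (hD0 l _ (hθ i l)).trans (hD1 l)
        linarith) (fun l _ => by
        have a1 := (hD0 l _ (hθ i l)).trans (hD1 l)
        have a2 := hv1 l _ (hθ i l)
        have a3 : |(v l).1 (θ i l)| ≤ |f l (θ i l)| + |f l (θ i l) - (v l).1 (θ i l)| := by
          have := abs_sub (f l (θ i l)) (f l (θ i l) - (v l).1 (θ i l))
          rwa [sub_sub_cancel] at this
        linarith) (fun l _ => hv1 l _ (hθ i l))
    rw [card_univ, Fintype.card_fin] at h1
    exact h1.trans hδ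
  · have h1 := prod_diff univ (fun l => II (f l)) (fun l => (v l).2) (D + 1) δ
      (by linarith) (fun l _ => by
        have := hII l
        linarith) (fun l _ => by
        have a1 := hII l
        have a2 := hv2 l
        have a3 : |(v l).2| ≤ |II (f l)| + |II (f l) - (v l).2| := by
          have := abs_sub (II (f l)) (II (f l) - (v l).2)
          rwa [sub_sub_cancel] at this
        linarith) (fun l _ => hv2 l)
    rw [card_univ, Fintype.card_fin] at h1
    exact h1.trans hδ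

end Fam

end Pool.Agent.Run7.h724.Pro
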