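import Pool.Agent.Run7.h724.ProB

/-!
# Products of signs and the joint Sato-Tate law: the converse
-/

set_option autoImplicit false

namespace Pool.Agent.Run7.h724.Pro

open Finset Filter Topology
open scoped Real
open Pool.Agent.Run7.h724.Sign

/-- a continuous step -/
noncomputable def ramp (z η u : ℝ) : ℝ := max 0 (min 1 ((u - z) / η))

lemma ramp_ct (z η : ℝ) : Ct (ramp z η) := by
  unfold Ct ramp
  fun_prop

lemma ramp_nonneg (z η u : ℝ) : 0 ≤ ramp z η u := le_max_left _ _

lemma ramp_le (z η u : ℝ) : ramp z η u ≤ 1 := max_le zero_le_one (min_le_left _ _)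

lemma ramp_zero {z η u : ℝ} (hη : 0 < η) (h : u ≤ z) : ramp z η u = 0 := by
  unfold ramp
  apply max_eq_left
  refine (min_le_right _ _).trans ?_
  exact div_nonpos_of_nonpos_of_nonneg (by linarith) hη.le

lemma ramp_one {z η u : ℝ} (hη : 0 < η) (h : z + η ≤ u) : ramp z η u = 1 := by
  unfold ramp
  have h1 : 1 ≤ (u - z) / η := by
    rw [le_div_iff₀ hη]
    linarith
  rw [min_eq_left h1]
  exact max_eq_right zero_le_one

lemma FF_sub (a b : ℝ) : FF b - FF a = (2 / π) * ∫ u in a..b, Real.sin u ^ 2 :=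
  (FF_integral a b).symm

lemma ramp_II {z η : ℝ} (h0 : 0 ≤ z) (hη : 0 < η) (h1 : z + η ≤ π) :
    1 - FF (z + η) ≤ II (ramp z η) ∧ II (ramp z η) ≤ 1 - FF z := by
  have hpi := Real.pi_pos
  have hc : Continuous fun u : ℝ => ramp z η u * Real.sin u ^ 2 := by
    unfold ramp
    fun_prop
  have hs : Continuous fun u : ℝ => Real.sin u ^ 2 := by fun_prop
  have h2 : 0 ≤ 2 / π := by positivity
  constructor
  · rw [← FF_pi, FF_sub]
    unfold II
    apply mul_le_mul_of_nonneg_left _ h2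
    rw [← intervalIntegral.integral_add_adjacent_intervals (hc.intervalIntegrable 0 (z + η))
      (hc.intervalIntegrable (z + η) π)]
    have a1 : 0 ≤ ∫ u in (0 : ℝ)..(z + η), ramp z η u * Real.sin u ^ 2 := by
      apply intervalIntegral.integral_nonneg (by linarith)
      intro u _
      exact mul_nonneg (ramp_nonneg _ _ _) (sq_nonneg _)
    have a2 : ∫ u in (z + η)..π, ramp z η u * Real.sin u ^ 2 =
        ∫ u in (z + η)..π, Real.sin u ^ 2 := by
      apply intervalIntegral.integral_congr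
      intro u hu
      rw [Set.uIcc_of_le h1] at hu
      change ramp z η u * Real.sin u ^ 2 = _
      rw [ramp_one hη hu.1, one_mul]
    rw [a2]
    linarith
  · rw [← FF_pi, FF_sub]
    unfold II
    apply mul_le_mul_of_nonneg_left _ h2
    rw [← intervalIntegral.integral_add_adjacent_intervals (hc.intervalIntegrable 0 z)
      (hc.intervalIntegrable z π)]
    have a1 : ∫ u in (0 : ℝ)..z, ramp z η u * Real.sin u ^ 2 = ∫ u in (0 : ℝ)..z, (0 : ℝ) := by
      apply intervalIntegral.integral_congr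
      intro u hu
      rw [Set.uIcc_of_le h0] at hu
      change ramp z η u * Real.sin u ^ 2 = 0
      rw [ramp_zero hη hu.2, zero_mul]
    have a2 : ∫ u in z..π, ramp z η u * Real.sin u ^ 2 ≤ ∫ u in z..π, Real.sin u ^ 2 := by
      apply intervalIntegral.integral_mono_on (by linarith) (hc.intervalIntegrable z π)
        (hs.intervalIntegrable z π)
      intro u _
      exact mul_le_of_le_one_left (sq_nonneg _) (ramp_le _ _ _)
    rw [a1, intervalIntegral.integral_zero, zero_add]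
    exact a2

/-- integrable in the sense of Riemann, with the integral `L` -/
def Rm (r : ℝ → ℝ) (L : ℝ) : Prop := ∃ D : ℝ, ∀ ε : ℝ, 0 < ε → ∃ h b : ℝ → ℝ, Ct h ∧ Ct b ∧
  (∀ u ∈ Set.Icc 0 π, |r u - h u| ≤ b u) ∧ (∀ u ∈ Set.Icc 0 π, |h u| ≤ D) ∧ II b ≤ ε ∧
  |II h - L| ≤ ε

lemma Rm.add {r r' : ℝ → ℝ} {L L' : ℝ} (h1 : Rm r L) (h2 : Rm r' L') : Rm (r + r') (L + L') := by
  obtain ⟨D, h1⟩ := h1
  obtain ⟨D', h2⟩ := h2
  refine ⟨D + D', fun ε hε => ?_⟩
  obtain ⟨h, b, a1, a2, a3, a4, a5, a6⟩ := h1 (ε / 2) (by positivity)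
  obtain ⟨h', b', c1, c2, c3, c4, c5, c6⟩ := h2 (ε / 2) (by positivity)
  refine ⟨h + h', b + b', a1.add c1, a2.add c2, fun u hu => ?_, fun u hu => ?_, ?_, ?_⟩
  · have e : (r + r') u - (h + h') u = (r u - h u) + (r' u - h' u) := by
      simp only [Pi.add_apply]
      ring
    rw [e]
    exact (abs_add_le _ _).trans (add_le_add (a3 u hu) (c3 u hu))
  · exact (abs_add_le _ _).trans (add_le_add (a4 u hu) (c4 u hu))
  · rw [II_add a2 c2]
    linarith
  · rw [II_add a1 c1]
    have e : II h + II h' - (L + L') = (II h - L) + (II h' - L') := by ring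
    rw [e]
    refine (abs_add_le _ _).trans ?_
    linarith

lemma Rm.smul {r : ℝ → ℝ} {L : ℝ} (c : ℝ) (h1 : Rm r L) : Rm (c • r) (c * L) := by
  obtain ⟨D, h1⟩ := h1
  refine ⟨|c| * D, fun ε hε => ?_⟩
  obtain ⟨h, b, a1, a2, a3, a4, a5, a6⟩ := h1 (ε / (|c| + 1)) (by positivity)
  have hc : |c| * (ε / (|c| + 1)) ≤ ε := by
    rw [mul_div_assoc', div_le_iff₀ (by positivity)]
    nlinarith [abs_nonneg c]
  refine ⟨c • h, |c| • b, a1.smul c, a2.smul _, fun u hu => ?_, fun u hu => ?_, ?_, ?_⟩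
  · have e : (c • r) u - (c • h) u = c * (r u - h u) := by
      simp only [Pi.smul_apply, smul_eq_mul]
      ring
    rw [e, abs_mul]
    exact mul_le_mul_of_nonneg_left (a3 u hu) (abs_nonneg _)
  · simp only [Pi.smul_apply, smul_eq_mul, abs_mul]
    exact mul_le_mul_of_nonneg_left (a4 u hu) (abs_nonneg _)
  · rw [II_smul]
    exact (mul_le_mul_of_nonneg_left a5 (abs_nonneg _)).trans hc
  · rw [II_smul, ← mul_sub, abs_mul]
    exact (mul_le_mul_of_nonneg_left a6 (abs_nonneg _)).trans hc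

lemma Rm.const (c : ℝ) : Rm (fun _ => c) c := by
  refine ⟨|c|, fun ε hε => ⟨fun _ => c, fun _ => 0, ct_const c, ct_const 0, fun u _ => ?_,
    fun u _ => le_rfl, ?_, ?_⟩⟩
  · simp
  · rw [II_const]
    exact hε.le
  · rw [II_const, sub_self, abs_zero]
    exact hε.le

lemma Rm.congr {r r' : ℝ → ℝ} {L : ℝ} (h1 : Rm r L) (h : ∀ u ∈ Set.Icc 0 π, r' u = r u) :
    Rm r' L := by
  obtain ⟨D, h1⟩ := h1
  refine ⟨D, fun ε hε => ?_⟩
  obtain ⟨h', b, a1, a2, a3, a4, a5, a6⟩ := h1 ε hε
  exact ⟨h', b, a1, a2, fun u hu => by rw [h u hu]; exact a3 u hu, a4, a5, a6⟩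

lemma Rm.sum {n : ℕ} {c : ℕ → ℝ} {r : ℕ → ℝ → ℝ} {L : ℕ → ℝ} (h : ∀ j < n, Rm (r j) (L j)) :
    Rm (fun u => ∑ j ∈ range n, c j * r j u) (∑ j ∈ range n, c j * L j) := by
  induction n with
  | zero =>
    simp only [range_zero, sum_empty]
    exact Rm.const 0
  | succ n ih =>
    have h1 := (ih fun j hj => h j (by omega)).add ((h n (by omega)).smul (c n))
    rw [sum_range_succ]
    refine h1.congr fun u _ => ?_
    rw [sum_range_succ]
    rfl

/-- the step -/
lemma Rm.step {z : ℝ} (h0 : 0 < z) (h1 : z < π) :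
    Rm (fun u => (if z < u then (1 : ℝ) else 0) + if z ≤ u then (1 : ℝ) else 0)
      (2 * (1 - FF z)) := by
  have hpi := Real.pi_pos
  have h2pi : 2 / π ≤ 1 := by
    rw [div_le_one hpi]
    linarith [Real.pi_gt_three]
  refine ⟨2, fun ε hε => ?_⟩
  obtain ⟨η, hη, e1, e2, e3⟩ : ∃ η : ℝ, 0 < η ∧ η ≤ z ∧ η ≤ π - z ∧ η ≤ ε / 4 :=
    ⟨min (min z (π - z)) (ε / 4), by
      apply lt_min (lt_min h0 (by linarith)) (by positivity), (min_le_left _ _).trans
        (min_le_left _ _), (min_le_left _ _).trans (min_le_right _ _), min_le_right _ _⟩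
  have r1 := ramp_II (z := z) (η := η) h0.le hη (by linarith)
  have r2 := ramp_II (z := z - η) (η := η) (by linarith) hη (by linarith)
  rw [sub_add_cancel] at r2
  have f1 := (FF_mem (α := z) (β := z + η) (by linarith)).2
  have f2 := (FF_mem (α := z - η) (β := z) (by linarith)).2
  have g1 : (z + η - z) * (2 / π) ≤ η := by
    rw [add_sub_cancel_left]
    exact mul_le_of_le_one_right hη.le h2pi
  have g2 : (z - (z - η)) * (2 / π) ≤ η := by
    rw [sub_sub_cancel]
    exact mul_le_of_le_one_right hη.le h2pi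
  refine ⟨(2 : ℝ) • ramp z η, (2 : ℝ) • ramp (z - η) η + (-2 : ℝ) • ramp z η,
    (ramp_ct _ _).smul 2, ((ramp_ct _ _).smul 2).add ((ramp_ct _ _).smul _), fun u _ => ?_,
    fun u _ => ?_, ?_, ?_⟩
  · simp only [Pi.add_apply, Pi.smul_apply, smul_eq_mul]
    rcases lt_trichotomy u z with h | h | h
    · rw [if_neg (not_lt.2 h.le), if_neg (not_le.2 h), ramp_zero hη h.le]
      have := ramp_nonneg (z - η) η u
      simp only [mul_zero, add_zero, sub_zero, abs_zero]
      linarith
    · subst h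
      rw [if_neg (lt_irrefl _), if_pos le_rfl, ramp_zero hη le_rfl,
        ramp_one hη (by linarith : u - η + η ≤ u)]
      norm_num
    · rw [if_pos h, if_pos h.le, ramp_one (z := z - η) hη (by linarith)]
      have := ramp_le z η u
      rw [abs_of_nonneg (by linarith)]
      linarith
  · simp only [Pi.smul_apply, smul_eq_mul]
    have a1 := ramp_le z η u
    have a2 := ramp_nonneg z η u
    rw [abs_of_nonneg (by linarith)]
    linarith
  · rw [II_add ((ramp_ct _ _).smul _) ((ramp_ct _ _).smul _), II_smul, II_smul]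
    linarith [r1.1, r1.2, r2.1, r2.2]
  · rw [II_smul, ← mul_sub, abs_mul, abs_two]
    have : |II (ramp z η) - (1 - FF z)| ≤ η := by
      rw [abs_le]
      constructor <;> linarith [r1.1, r1.2]
    linarith

lemma zr_pos (m j : ℕ) (hj : j < m) : 0 < zr m j ∧ zr m j < π := by
  have hpi : 0 < π := Real.pi_pos
  have hm : (0 : ℝ) < m := by exact_mod_cast (by omega : 0 < m)
  unfold zr
  constructor
  · positivity
  · rw [div_lt_iff₀ (by positivity)]
    have h1 : (j : ℝ) + 1 ≤ m := by exact_mod_cast hj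
    nlinarith

/-- the signs are integrable -/
theorem Rm.sign (m : ℕ) : Rm (ss m) (sM m) := by
  rcases Nat.eq_zero_or_pos m with rfl | hm
  · have h1 := Rm.const 1
    rw [sM, if_pos rfl]
    refine h1.congr fun u _ => ?_
    unfold ss
    rw [Nat.cast_zero, zero_mul, Real.cos_zero, Real.sign_of_pos one_pos]
  · have h1 := (Rm.const 1).add (Rm.sum (n := m) (c := fun j => (-1 : ℝ) ^ (j + 1))
      (r := fun j u => (if zr m j < u then (1 : ℝ) else 0) + if zr m j ≤ u then (1 : ℝ) else 0)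
      (L := fun j => 2 * (1 - FF (zr m j))) fun j hj =>
        Rm.step (zr_pos m j hj).1 (zr_pos m j hj).2)
    have e : (1 : ℝ) + ∑ j ∈ range m, (-1 : ℝ) ^ (j + 1) * (2 * (1 - FF (zr m j))) = sM m := by
      rw [sM, if_neg (by omega), sm_formula m hm, mul_sum]
      congr 1
      refine sum_congr rfl fun j _ => ?_
      ring
    rw [← e]
    refine h1.congr fun u hu => ?_
    simp only [Pi.add_apply]
    exact sgn_eq m hm u hu.1 hu.2

section Fam

variable {ι : Type} {S : ℕ → Finset ι} {k : ℕ} {θ : ι → Fin k → ℝ}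

lemma av_le {g h c : ι → ℝ} (N : ℕ) (hgh : ∀ i ∈ S N, |g i - h i| ≤ c i) :
    |av S g N - av S h N| ≤ av S c N := by
  unfold av
  have hc : (0 : ℝ) ≤ ((S N).card : ℝ) := Nat.cast_nonneg _
  rw [← sub_div, ← sum_sub_distrib, abs_div, abs_of_nonneg hc]
  exact div_le_div_of_nonneg_right ((abs_sum_le_sum_abs _ _).trans (sum_le_sum hgh))
    (Nat.cast_nonneg _)

lemma tendsto_of_near' {a : ℕ → ℝ} {L : ℝ} (h : ∀ ε : ℝ, 0 < ε → ∃ (b : ℕ → ℝ) (M : ℝ),
    Tendsto b atTop (𝓝 M) ∧ (∀ᶠ N in atTop, |a N - b N| ≤ ε) ∧ |L - M| ≤ ε) :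
    Tendsto a atTop (𝓝 L) := by
  rw [Metric.tendsto_atTop]
  intro ε hε
  obtain ⟨b, M, h1, h2, h3⟩ := h (ε / 4) (by positivity)
  obtain ⟨N0, hN0⟩ := (Metric.tendsto_atTop.1 h1) (ε / 4) (by positivity)
  obtain ⟨N1, hN1⟩ := eventually_atTop.1 h2
  refine ⟨max N0 N1, fun N hN => ?_⟩
  have h4 := hN0 N ((le_max_left _ _).trans hN)
  have h5 := hN1 N ((le_max_right _ _).trans hN)
  rw [Real.dist_eq] at h4 ⊢
  rw [abs_lt] at h4 ⊢
  rw [abs_le] at h3 h5
  constructor <;> linarith [h4.1, h4.2, h3.1, h3.2, h5.1, h5.2]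

/-- one coordinate -/
lemma law_one (h : Law S θ) (l : Fin k) {b : ℝ → ℝ} (hb : Ct b) :
    Tendsto (av S fun i => b (θ i l)) atTop (𝓝 (II b)) := by
  classical
  have h1 := h (Function.update (fun _ _ => (1 : ℝ)) l b) (fun l' => by
    by_cases hl : l' = l
    · subst hl
      rw [Function.update_self]
      exact hb
    · rw [Function.update_of_ne hl]
      exact ct_const 1)
  have e1 : (∏ l', II (Function.update (fun _ _ => (1 : ℝ)) l b l')) = II b := by
    rw [Finset.prod_eq_single l]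
    · rw [Function.update_self]
    · intro l' _ hl
      rw [Function.update_of_ne hl, II_const]
    · intro hl
      exact absurd (mem_univ l) hl
  have e2 : (fun i => ∏ l', Function.update (fun _ _ => (1 : ℝ)) l b l' (θ i l')) =
      fun i => b (θ i l) := by
    funext i
    rw [Finset.prod_eq_single l]
    · rw [Function.update_self]
    · intro l' _ hl
      rw [Function.update_of_ne hl]
    · intro hl
      exact absurd (mem_univ l) hl
  rwa [e1, e2] at h1

lemma ss_abs (m : ℕ) (u : ℝ) : |ss m u| ≤ 1 := by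
  unfold ss
  rcases Real.sign_apply_eq (Real.cos (m * u)) with h | h | h <;> rw [h] <;> norm_num

/-- **Continuous functions imply signs.** -/
theorem signs_of_law (hθ : ∀ i l, θ i l ∈ Set.Icc 0 π) (h : Law S θ) : SLaw S θ := by
  classical
  intro m
  choose D0 hD0 using fun l => Rm.sign (m l)
  obtain ⟨D, hD, hD1, hD2⟩ : ∃ D : ℝ, 1 ≤ D ∧ (∀ l, D0 l ≤ D) ∧ ∀ l, |sM (m l)| ≤ D := by
    have p1 : 0 ≤ ∑ l, |D0 l| := sum_nonneg fun l _ => abs_nonneg _
    have p2 : 0 ≤ ∑ l, |sM (m l)| := sum_nonneg fun l _ => abs_nonneg _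
    refine ⟨1 + ∑ l, |D0 l| + ∑ l, |sM (m l)|, by linarith, fun l => ?_, fun l => ?_⟩
    · have := single_le_sum (f := fun l => |D0 l|) (fun l _ => abs_nonneg _) (mem_univ l)
      linarith [le_abs_self (D0 l)]
    · have := single_le_sum (f := fun l => |sM (m l)|) (fun l _ => abs_nonneg _) (mem_univ l)
      linarith
  refine tendsto_of_near' fun ε hε => ?_
  have hA0 : (0 : ℝ) ≤ (k : ℝ) * D ^ k := by positivity
  obtain ⟨δ, hδ0, hδ⟩ : ∃ δ : ℝ, 0 < δ ∧ ((k : ℝ) * D ^ k) * ((k + 1) * δ + δ) ≤ ε := by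
    refine ⟨ε / (((k : ℝ) * D ^ k + 1) * (k + 2)), by positivity, ?_⟩
    have e : ((k : ℝ) * D ^ k) * ((k + 1) * (ε / (((k : ℝ) * D ^ k + 1) * (k + 2))) +
        ε / (((k : ℝ) * D ^ k + 1) * (k + 2))) = (((k : ℝ) * D ^ k) * ((k + 2) * ε)) /
        (((k : ℝ) * D ^ k + 1) * (k + 2)) := by
      ring
    rw [e, div_le_iff₀ (by positivity)]
    have : 0 ≤ (k + 2 : ℝ) * ε := by positivity
    nlinarith
  choose H b a1 a2 a3 a4 a5 a6 using fun l => hD0 l δ hδ0
  refine ⟨_, _, h H a1, ?_, ?_⟩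
  · have h2 : Tendsto (fun N => ∑ l, av S (fun i => b l (θ i l)) N) atTop
        (𝓝 (∑ l, II (b l))) := tendsto_finsetSum _ fun l _ => law_one h l (a2 l)
    have h3 : ∑ l, II (b l) ≤ k * δ := by
      refine (sum_le_sum fun l _ => a5 l).trans (le_of_eq ?_)
      rw [sum_const, card_univ, Fintype.card_fin, nsmul_eq_mul]
    filter_upwards [h2.eventually (gt_mem_nhds (lt_of_le_of_lt h3
      (by linarith : k * δ < k * δ + δ)))] with N hN
    have h4 := av_le (S := S) (g := fun i => ∏ l, ss (m l) (θ i l))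
      (h := fun i => ∏ l, H l (θ i l))
      (c := fun i => ∑ l, ((k : ℝ) * D ^ k) * b l (θ i l)) N (fun i _ => by
        rw [← mul_sum]
        have hb0 : ∀ l, 0 ≤ b l (θ i l) := fun l => (abs_nonneg _).trans (a3 l _ (hθ i l))
        have h5 := prod_diff univ (fun l => ss (m l) (θ i l)) (fun l => H l (θ i l)) D
          (∑ l, b l (θ i l)) hD (fun l _ => (ss_abs _ _).trans hD)
          (fun l _ => (a4 l _ (hθ i l)).trans (hD1 l)) (fun l _ => (a3 l _ (hθ i l)).trans
            (single_le_sum (f := fun l => b l (θ i l)) (fun l _ => hb0 l) (mem_univ l)))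
        rwa [card_univ, Fintype.card_fin] at h5)
    refine h4.trans ?_
    rw [av_sum univ (fun _ => (k : ℝ) * D ^ k) (fun l i => b l (θ i l)) N, ← mul_sum]
    refine (mul_le_mul_of_nonneg_left hN.le hA0).trans (le_trans ?_ hδ)
    apply mul_le_mul_of_nonneg_left _ hA0
    linarith
  · have h1 := prod_diff univ (fun l => sM (m l)) (fun l => II (H l)) D δ hD
      (fun l _ => hD2 l) (fun l _ => by
        have h6 := II_near (a1 l) (ct_const 0) (ε := D) fun u hu => by
          rw [sub_zero]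
          exact (a4 l u hu).trans (hD1 l)
        rwa [II_const, sub_zero] at h6) (fun l _ => by
        rw [abs_sub_comm]
        exact a6 l)
    rw [card_univ, Fintype.card_fin] at h1
    refine h1.trans (le_trans ?_ hδ)
    apply mul_le_mul_of_nonneg_left _ hA0
    have : (0 : ℝ) ≤ (k + 1) * δ := by positivity
    linarith

end Fam

end Pool.Agent.Run7.h724.Pro
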