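import Pool.Agent.Run7.h724.SignZ
import Pool.Agent.H442R2.KF.Weil

/-!
# Kloosterman sums modulo squarefree numbers and the angles at the prime factors
-/

set_option autoImplicit false

namespace Pool.Agent.Run7.h724.ProK

open Finset
open Pool.Agent.H442R2.KF.TaskB (Kl Kl_mul)
open Pool.Agent.Run7.h724.Lift (kloosterman angle)

/-- the Kloosterman sum with integers -/
noncomputable def KK (q : ℕ) (w v : ℤ) : ℂ :=
  if h : q = 0 then 0 else haveI : NeZero q := ⟨h⟩; Kl q (w : ZMod q) (v : ZMod q)

lemma KK_eq (q : ℕ) [hq : NeZero q] (w v : ℤ) : KK q w v = Kl q (w : ZMod q) (v : ZMod q) := by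
  unfold KK
  rw [dif_neg hq.out]

/-- an integer inverse to `c / p` modulo `p` -/
noncomputable def cv (c p : ℕ) : ℤ := ((((c / p : ℕ) : ZMod p)⁻¹).val : ℤ)

lemma cv_cast (c p : ℕ) [NeZero p] : ((cv c p : ℤ) : ZMod p) = ((c / p : ℕ) : ZMod p)⁻¹ := by
  unfold cv
  rw [Int.cast_natCast, ZMod.natCast_val, ZMod.cast_id', id]

lemma KK_congr (q : ℕ) [NeZero q] {w v w' v' : ℤ} (h1 : (w : ZMod q) = w') (h2 : (v : ZMod q) = v') :
    KK q w v = KK q w' v' := by
  rw [KK_eq, KK_eq, h1, h2]

theorem KK_prod (q : ℕ) (hq : Squarefree q) (w v : ℤ) :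
    KK q w v = ∏ p ∈ q.primeFactors, KK p (cv q p * w) (cv q p * v) := by
  induction q using Nat.strong_induction_on generalizing w v with
  | _ q ih =>
    by_cases h1 : q = 1
    · subst h1
      rw [Nat.primeFactors_one, prod_empty]
      have : NeZero (1 : ℕ) := ⟨one_ne_zero⟩
      rw [KK_eq]
      unfold Kl
      rw [Fintype.sum_unique]
      have : ∀ z : ZMod 1, (ZMod.stdAddChar z : ℂ) = 1 := by
        intro z
        rw [Subsingleton.elim z 0]
        exact AddChar.map_zero_eq_one _
      exact this _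
    · have hq0 : q ≠ 0 := hq.ne_zero
      have hp : (q.minFac).Prime := Nat.minFac_prime h1
      obtain ⟨q', hq'⟩ := Nat.minFac_dvd q
      generalize q.minFac = p at hp hq'
      subst hq'
      have : Fact p.Prime := ⟨hp⟩
      have hq'0 : q' ≠ 0 := fun h => hq0 (by rw [h, mul_zero])
      have : NeZero q' := ⟨hq'0⟩
      have : NeZero (p * q') := ⟨hq0⟩
      have hcop : Nat.Coprime p q' := Nat.coprime_of_squarefree_mul hq
      have hsq' : Squarefree q' := hq.squarefree_of_dvd (Dvd.intro_left p rfl)
      obtain ⟨α, β, hαβ⟩ : ∃ α β : ℤ, α * q' + β * p = 1 := by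
        have h2 : IsCoprime (q' : ℤ) (p : ℤ) := Nat.isCoprime_iff_coprime.mpr hcop.symm
        obtain ⟨a, b, hab⟩ := h2
        exact ⟨a, b, hab⟩
      have hlt : q' < p * q' := by
        have := hp.two_le
        have h3 : 0 < q' := Nat.pos_of_ne_zero hq'0
        nlinarith
      have hcr : ∀ j : ℤ, ZMod.chineseRemainder hcop ((j : ℤ) : ZMod (p * q')) =
          ((j : ZMod p), (j : ZMod q')) := by
        intro j
        rw [map_intCast]
        rfl
      have e1 : KK (p * q') w v = KK p (α * w) (α * v) * KK q' (β * w) (β * v) := by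
        rw [KK_eq, KK_eq, KK_eq, Kl_mul p q' hcop α β hαβ, hcr, hcr]
        push_cast
        rfl
      rw [e1, ih q' hlt hsq']
      have hpn : p ∉ q'.primeFactors := by
        intro h
        have := Nat.dvd_of_mem_primeFactors h
        exact hp.one_lt.ne' (Nat.Coprime.eq_one_of_dvd hcop this)
      have hpf : (p * q').primeFactors = insert p q'.primeFactors := by
        rw [hcop.primeFactors_mul, hp.primeFactors]
        rfl
      rw [hpf, prod_insert hpn]
      congr 1
      · have e2 : ((cv (p * q') p : ℤ) : ZMod p) = α := by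
          rw [cv_cast, Nat.mul_div_cancel_left _ hp.pos]
          have h3 : (α : ZMod p) * (q' : ZMod p) = 1 := by
            have := congrArg (fun z : ℤ => (z : ZMod p)) hαβ
            push_cast at this
            rwa [ZMod.natCast_self, mul_zero, add_zero] at this
          exact (eq_inv_of_mul_eq_one_left h3).symm
        apply KK_congr
        · push_cast
          rw [e2]
        · push_cast
          rw [e2]
      · refine prod_congr rfl fun r hr => ?_
        have hrp : r.Prime := Nat.prime_of_mem_primeFactors hr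
        have hrd : r ∣ q' := Nat.dvd_of_mem_primeFactors hr
        have : Fact r.Prime := ⟨hrp⟩
        have e2 : ((cv (p * q') r : ℤ) : ZMod r) = ((cv q' r * β : ℤ) : ZMod r) := by
          push_cast
          rw [cv_cast, cv_cast, Nat.mul_div_assoc _ hrd, Nat.cast_mul, mul_inv, mul_comm]
          congr 1
          have h3 : (β : ZMod r) * (p : ZMod r) = 1 := by
            have := congrArg (fun z : ℤ => (z : ZMod r)) hαβ
            push_cast at this
            have h4 : ((q' : ℕ) : ZMod r) = 0 := (ZMod.natCast_eq_zero_iff q' r).2 hrd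
            rwa [h4, mul_zero, zero_add] at this
          exact (eq_inv_of_mul_eq_one_left h3).symm
        apply KK_congr
        · push_cast at e2 ⊢
          rw [e2]
          ring
        · push_cast at e2 ⊢
          rw [e2]
          ring

open Pool.Agent.H498R2.Kl in
/-- a prime modulus -/
theorem Kl_prime_eq {p : ℕ} [hp : Fact p.Prime] (a : ℤ) :
    Kl p (a : ZMod p) 1 = ((kloosterman p a : ℝ) : ℂ) := by
  classical
  have h2 := TK_eq_sum (E := ZMod p) (ZMod.stdAddChar : AddChar (ZMod p) ℂ) (a : ZMod p) 1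
  rw [Module.finrank_self, Lift.sum_units, Lift.TG_real] at h2
  rw [h2]
  unfold Kl
  refine sum_congr rfl fun x _ => ?_
  congr 1
  rw [Algebra.trace_self_apply, Algebra.algebraMap_self, RingHom.id_apply, RingHom.id_apply,
    Units.val_inv_eq_inv_val]

/-- scaling of the variable -/
theorem KK_unit {p : ℕ} [hp : Fact p.Prime] (u : ℤ) (hu : (u : ZMod p) ≠ 0) :
    KK p u u = ((kloosterman p (u ^ 2) : ℝ) : ℂ) := by
  rw [KK_eq, ← Kl_prime_eq]
  unfold Kl
  let U : (ZMod p)ˣ := Units.mk0 (u : ZMod p) hu
  rw [← Equiv.sum_comp (Equiv.mulLeft U)]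
  refine sum_congr rfl fun x _ => ?_
  congr 1
  simp only [Equiv.coe_mulLeft, mul_inv_rev, Units.val_mul]
  have hU : (U : ZMod p) = u := rfl
  have hU' : ((U⁻¹ : (ZMod p)ˣ) : ZMod p) = (u : ZMod p)⁻¹ := rfl
  rw [hU, hU']
  have e : (u : ZMod p) * (u : ZMod p)⁻¹ = 1 := mul_inv_cancel₀ hu
  push_cast
  linear_combination ((x : ZMod p)⁻¹) * e

end Pool.Agent.Run7.h724.ProK
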