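import Pool.Agent.Run7.h724.ProC
import Pool.Agent.Run7.h724.ProK

/-!
# The angle of a Kloosterman sum modulo a squarefree number
-/

set_option autoImplicit false

namespace Pool.Agent.Run7.h724.ProL

open Finset Filter Topology
open scoped Real
open Pool.Agent.Run7.h724.Lift (kloosterman angle liftedSum)
open Pool.Agent.Run7.h724.ProK
open Pool.Agent.H442R2.KF.TaskB (Kl)

/-- the sum of cosines -/
noncomputable def cs (c : ℕ) : ℝ :=
  ∑ x ∈ (Finset.range c).filter (fun x => Nat.Coprime x c),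
    Real.cos (2 * Real.pi * (((x + ((x : ZMod c)⁻¹).val : ℕ) : ℝ)) / (c : ℝ))

lemma re_std' {c : ℕ} [hc : NeZero c] (m : ℕ) :
    (ZMod.stdAddChar ((m : ℕ) : ZMod c) : ℂ).re = Real.cos (2 * Real.pi * (m : ℝ) / (c : ℝ)) := by
  have h1 := ZMod.stdAddChar_coe (N := c) (m : ℤ)
  rw [Int.cast_natCast] at h1
  rw [h1]
  have h2 : (2 * (Real.pi : ℂ) * Complex.I * ((m : ℤ) : ℂ) / (c : ℂ)) =
      ((2 * Real.pi * (m : ℝ) / (c : ℝ) : ℝ) : ℂ) * Complex.I := by
    push_cast
    ring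
  rw [h2, Complex.exp_ofReal_mul_I_re]

lemma cs_eq (c : ℕ) [hc : NeZero c] : cs c = (KK c 1 1).re := by
  rw [KK_eq]
  unfold Kl cs
  rw [Complex.re_sum]
  refine sum_bij' (fun x hx => ZMod.unitOfCoprime x (mem_filter.1 hx).2)
    (fun u _ => (u : ZMod c).val) ?_ ?_ ?_ ?_ ?_
  · intro x hx
    exact mem_univ _
  · intro u _
    rw [mem_filter, mem_range]
    exact ⟨ZMod.val_lt _, ZMod.val_coe_unit_coprime u⟩
  · intro x hx
    rw [mem_filter, mem_range] at hx
    change ((x : ZMod c)).val = x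
    exact ZMod.val_cast_of_lt hx.1
  · intro u _
    apply Units.ext
    change (((u : ZMod c).val : ℕ) : ZMod c) = u
    rw [ZMod.natCast_val, ZMod.cast_id', id]
  · intro x hx
    rw [← re_std' (c := c)]
    congr 2
    have h1 : ((ZMod.unitOfCoprime x (mem_filter.1 hx).2 : (ZMod c)ˣ) : ZMod c) = x :=
      ZMod.coe_unitOfCoprime x (mem_filter.1 hx).2
    have h2 : (((ZMod.unitOfCoprime x (mem_filter.1 hx).2)⁻¹ : (ZMod c)ˣ) : ZMod c) =
        (x : ZMod c)⁻¹ := by
      rw [← ZMod.inv_coe_unit, h1]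
    rw [h1, h2]
    push_cast
    rw [ZMod.natCast_val, ZMod.cast_id', id, one_mul, one_mul]

lemma cv_ne {c p : ℕ} (hc : Squarefree c) (hp : p.Prime) (hd : p ∣ c) :
    ((cv c p : ℤ) : ZMod p) ≠ 0 := by
  have : Fact p.Prime := ⟨hp⟩
  rw [cv_cast]
  apply inv_ne_zero
  rw [Ne, ZMod.natCast_eq_zero_iff]
  intro h
  obtain ⟨d, rfl⟩ := hd
  rw [Nat.mul_div_cancel_left _ hp.pos] at h
  have := Nat.coprime_of_squarefree_mul hc
  exact hp.one_lt.ne' (Nat.Coprime.eq_one_of_dvd this h)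

lemma cop {p : ℕ} (hp : p.Prime) {a : ℤ} (h : ((a : ℤ) : ZMod p) ≠ 0) : Nat.Coprime p (a ^ 2).natAbs := by
  rw [hp.coprime_iff_not_dvd, Int.natAbs_pow]
  intro h1
  have h2 := hp.dvd_of_dvd_pow h1
  apply h
  rw [ZMod.intCast_zmod_eq_zero_iff_dvd]
  exact Int.natCast_dvd.2 h2

/-- the angle at a prime factor -/
noncomputable def ang (c p : ℕ) : ℝ := angle p (cv c p ^ 2)

theorem cos_prod {c : ℕ} (hc : Squarefree c) :
    ((2 : ℝ) ^ c.primeFactors.card)⁻¹ * ((Real.sqrt (c : ℝ))⁻¹ * cs c) =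
      ∏ p ∈ c.primeFactors, Real.cos (ang c p) := by
  have hc0 : c ≠ 0 := hc.ne_zero
  have : NeZero c := ⟨hc0⟩
  have h1 : KK c 1 1 = ((∏ p ∈ c.primeFactors, kloosterman p (cv c p ^ 2) : ℝ) : ℂ) := by
    rw [KK_prod c hc 1 1]
    push_cast
    refine prod_congr rfl fun p hp => ?_
    have hp' := Nat.prime_of_mem_primeFactors hp
    have : Fact p.Prime := ⟨hp'⟩
    rw [mul_one, KK_unit (cv c p) (cv_ne hc hp' (Nat.dvd_of_mem_primeFactors hp))]
  have h2 : cs c = ∏ p ∈ c.primeFactors, (2 * Real.sqrt p * Real.cos (ang c p)) := by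
    rw [cs_eq, h1, Complex.ofReal_re]
    refine prod_congr rfl fun p hp => ?_
    have hp' := Nat.prime_of_mem_primeFactors hp
    have : Fact p.Prime := ⟨hp'⟩
    exact Lift.kl_cos (cop hp' (cv_ne hc hp' (Nat.dvd_of_mem_primeFactors hp)))
  have h3 : Real.sqrt c = ∏ p ∈ c.primeFactors, Real.sqrt (p : ℝ) := by
    conv_lhs => rw [← Nat.prod_primeFactors_of_squarefree hc]
    push_cast
    rw [Real.sqrt_prod _ fun p _ => Nat.cast_nonneg _]
  rw [h2, prod_mul_distrib, prod_mul_distrib, ← h3, prod_const]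
  have h4 : Real.sqrt c ≠ 0 := by
    rw [Ne, Real.sqrt_eq_zero (Nat.cast_nonneg _)]
    exact_mod_cast hc0
  field_simp

/-- the `i`-th prime factor -/
def pf (c i : ℕ) : ℕ := c.primeFactorsList.getD i 1

lemma pf_mem {c k : ℕ} (hc : Squarefree c) (hk : c.primeFactors.card = k) (i : Fin k) :
    pf c i ∈ c.primeFactors := by
  have h1 : c.primeFactorsList.length = k := by
    rw [← hk, ← Nat.toFinset_factors, List.toFinset_card_of_nodup hc.nodup_primeFactorsList]
  have h2 : (i : ℕ) < c.primeFactorsList.length := by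
    rw [h1]
    exact i.2
  unfold pf
  rw [List.getD_eq_getElem _ _ h2, ← Nat.toFinset_factors, List.mem_toFinset]
  exact List.getElem_mem h2

lemma pf_prod {c k : ℕ} (hc : Squarefree c) (hk : c.primeFactors.card = k) (g : ℕ → ℝ) :
    ∏ i : Fin k, g (pf c i) = ∏ p ∈ c.primeFactors, g p := by
  have h1 : c.primeFactorsList.length = k := by
    rw [← hk, ← Nat.toFinset_factors, List.toFinset_card_of_nodup hc.nodup_primeFactorsList]
  subst h1
  rw [← Nat.toFinset_factors, List.prod_toFinset _ hc.nodup_primeFactorsList,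
    ← List.prod_ofFn]
  congr 1
  apply List.ext_getElem
  · simp
  · intro n h2 h3
    rw [List.length_ofFn] at h2
    rw [List.getElem_ofFn, List.getElem_map]
    unfold pf
    rw [List.getD_eq_getElem _ _ h2]

end Pool.Agent.Run7.h724.ProL
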