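import Pool.Agent.Run7.h724.ProL

/-!
# From the joint law to the law of the product of the cosines
-/

set_option autoImplicit false

namespace Pool.Agent.Run7.h724.ProM

open Finset Filter Topology MeasureTheory
open scoped Real
open Pool.Agent.Run7.h724.Sign Pool.Agent.Run7.h724.Pro

/-- the box -/
abbrev box (k : ℕ) : Set (Fin k → ℝ) := Set.univ.pi (fun _ : Fin k => Set.Icc (0 : ℝ) π)

lemma box_prod {k : ℕ} (h : Fin k → ℝ → ℝ) :
    ∫ t in box k, ∏ i, h i (t i) = ∏ i, ∫ u in Set.Icc (0 : ℝ) π, h i u := by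
  unfold box
  rw [volume_pi, Measure.restrict_pi_pi]
  exact integral_fintype_prod_eq_prod (𝕜 := ℝ) h

lemma II_Icc (g : ℝ → ℝ) : ∫ u in Set.Icc (0 : ℝ) π, g u * (2 / π * Real.sin u ^ 2) = II g := by
  unfold II
  rw [integral_Icc_eq_integral_Ioc, ← intervalIntegral.integral_of_le Real.pi_pos.le,
    ← intervalIntegral.integral_const_mul]
  apply intervalIntegral.integral_congr
  intro u _
  change g u * (2 / π * Real.sin u ^ 2) = 2 / π * (g u * Real.sin u ^ 2)
  ring

lemma box_II {k : ℕ} (g : Fin k → ℝ → ℝ) :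
    ∫ t in box k, (∏ i, g i (t i)) * ∏ i, (2 / π * Real.sin (t i) ^ 2) = ∏ i, II (g i) := by
  have h1 := box_prod (fun i u => g i u * (2 / π * Real.sin u ^ 2))
  simp only [II_Icc, prod_mul_distrib] at h1 ⊢
  exact h1

lemma box_int {k : ℕ} {G : (Fin k → ℝ) → ℝ} (h : Continuous G) :
    IntegrableOn G (box k) :=
  h.continuousOn.integrableOn_compact (isCompact_univ_pi fun _ => isCompact_Icc)

lemma cos_prod_mem {k : ℕ} (t : Fin k → ℝ) : ∏ i, Real.cos (t i) ∈ Set.Icc (-1 : ℝ) 1 := by
  have h1 : |∏ i, Real.cos (t i)| ≤ 1 := by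
    rw [abs_prod]
    exact prod_le_one (fun i _ => abs_nonneg _) fun i _ => Real.abs_cos_le_one _
  rw [abs_le] at h1
  exact h1

theorem law_arccos {ι : Type} {S : ℕ → Finset ι} {k : ℕ} {θ : ι → Fin k → ℝ}
    (h : Law S θ) {f : ℝ → ℝ} (hf : ContinuousOn f (Set.Icc 0 π)) :
    Tendsto (av S fun i => f (Real.arccos (∏ l, Real.cos (θ i l)))) atTop
      (𝓝 (∫ t in box k, f (Real.arccos (∏ i, Real.cos (t i))) *
        ∏ i, (2 / π * Real.sin (t i) ^ 2))) := by
  have hg : Continuous fun x => f (Real.arccos x) :=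
    hf.comp_continuous Real.continuous_arccos fun x => ⟨Real.arccos_nonneg x, Real.arccos_le_pi x⟩
  refine tendsto_of_near fun ε hε => ?_
  obtain ⟨P, hP⟩ := exists_polynomial_near_of_continuousOn (-1) 1 _ hg.continuousOn ε hε
  have hpow : ∀ (t : Fin k → ℝ), P.eval (∏ i, Real.cos (t i)) =
      ∑ n ∈ range (P.natDegree + 1), P.coeff n * ∏ i, Real.cos (t i) ^ n := by
    intro t
    rw [Polynomial.eval_eq_sum_range]
    refine sum_congr rfl fun n _ => ?_
    rw [prod_pow]
  refine ⟨av S fun i => P.eval (∏ l, Real.cos (θ i l)),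
    ∑ n ∈ range (P.natDegree + 1), P.coeff n * ∏ _i : Fin k, II (fun u => Real.cos u ^ n),
    ?_, fun N => ?_, ?_⟩
  · have e : (av S fun i => P.eval (∏ l, Real.cos (θ i l))) = fun N =>
        ∑ n ∈ range (P.natDegree + 1), P.coeff n * av S (fun i => ∏ l, Real.cos (θ i l) ^ n) N := by
      funext N
      simp only [hpow]
      exact av_sum _ _ _ N
    rw [e]
    refine tendsto_finsetSum _ fun n _ => ?_
    refine Tendsto.const_mul _ ?_
    exact h (fun _ u => Real.cos u ^ n) fun _ => by
      unfold Ct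
      fun_prop
  · refine av_near hε.le N fun i _ => ?_
    have h1 := hP _ (cos_prod_mem (θ i))
    rw [abs_sub_comm]
    exact h1.le
  · have hw : Continuous fun t : Fin k → ℝ => ∏ i, (2 / π * Real.sin (t i) ^ 2) := by fun_prop
    have hcp : Continuous fun t : Fin k → ℝ => ∏ i, Real.cos (t i) := by fun_prop
    have hG : Continuous fun t : Fin k → ℝ => f (Real.arccos (∏ i, Real.cos (t i))) *
        ∏ i, (2 / π * Real.sin (t i) ^ 2) := (hg.comp hcp).mul hw
    have hPc : Continuous fun t : Fin k → ℝ => P.eval (∏ i, Real.cos (t i)) *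
        ∏ i, (2 / π * Real.sin (t i) ^ 2) := (P.continuous.comp hcp).mul hw
    have e : ∑ n ∈ range (P.natDegree + 1), P.coeff n * ∏ _i : Fin k, II (fun u => Real.cos u ^ n) =
        ∫ t in box k, P.eval (∏ i, Real.cos (t i)) * ∏ i, (2 / π * Real.sin (t i) ^ 2) := by
      simp only [hpow, sum_mul]
      rw [integral_finsetSum]
      · refine sum_congr rfl fun n _ => ?_
        rw [← box_II, ← integral_const_mul]
        refine integral_congr_ae (Filter.Eventually.of_forall fun t => ?_)
        change _ = _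
        ring
      · intro n _
        apply box_int
        fun_prop
    rw [e, ← integral_sub (box_int hG) (box_int hPc)]
    have h2 : ∫ t in box k, ε * ∏ i, (2 / π * Real.sin (t i) ^ 2) = ε := by
      rw [integral_const_mul]
      have h3 := box_II (k := k) (fun _ _ => (1 : ℝ))
      simp only [prod_const_one, one_mul] at h3
      rw [h3]
      have h4 : ∀ i : Fin k, II (fun _ => (1 : ℝ)) = 1 := fun _ => II_const 1
      rw [prod_congr rfl fun i _ => h4 i, prod_const_one, mul_one]
    have h5 := norm_integral_le_of_norm_le (μ := volume.restrict (box k))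
      (f := fun t : Fin k → ℝ => f (Real.arccos (∏ i, Real.cos (t i))) *
        ∏ i, (2 / π * Real.sin (t i) ^ 2) - P.eval (∏ i, Real.cos (t i)) *
        ∏ i, (2 / π * Real.sin (t i) ^ 2))
      (g := fun t => ε * ∏ i, (2 / π * Real.sin (t i) ^ 2))
      (box_int (by fun_prop)) (Filter.Eventually.of_forall fun t => by
        rw [← sub_mul, norm_mul, Real.norm_eq_abs, Real.norm_eq_abs]
        have h6 : 0 ≤ ∏ i, (2 / π * Real.sin (t i) ^ 2) := prod_nonneg fun i _ => by positivity
        rw [abs_of_nonneg h6]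
        apply mul_le_mul_of_nonneg_right _ h6
        rw [abs_sub_comm]
        exact (hP _ (cos_prod_mem t)).le)
    rw [h2, Real.norm_eq_abs] at h5
    exact h5

end Pool.Agent.Run7.h724.ProM
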