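import Pool.Agent.Run7.h776.MS.Crit
import Pool.Agent.W565.MOFS
import Pool.Agent.H340R2.LW

/-!
# Thirds of the multiples of a sequence

The number of visits of a finite sequence to an interval is estimated by the first digits of the
multiples of the sequence. The lemmas `saw_bound` and `indicator_eq` are those of
`Pool.Agent.R485.Mult.Moment`, restated here in order to avoid its other imports.
-/

set_option autoImplicit false

namespace Pool.Agent.Run7.h724.Thirds

open Finset Filter Topology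
open Pool.Agent.H469R2.NK (e norm_e e_add)
open Pool.Agent.W565.MOFS (P2 diff_bound saw_upper saw_lower)
open Pool.Agent.Run7.h776.MS (cnt dev main_ineq cnt_eq dev_nonneg)
open Pool.Agent.H534R3.UDist (UD)

/-- an inequality of the type of Erdos and Turan for the sawtooth function -/
theorem saw_bound {ι : Type} (S : Finset ι) (x : ι → ℝ) (K : ℕ) (hK : 1 ≤ K) (δ : ℝ) (hδ0 : 0 < δ)
    (hδ1 : δ ≤ 1) :
    |∑ n ∈ S, (Int.fract (x n) - 1 / 2)| ≤
      ∑ h ∈ Icc 1 K, ‖∑ n ∈ S, e (h * x n)‖ / h + S.card / (K * δ) + S.card * δ := by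
  have hK0 : (0 : ℝ) < K := by exact_mod_cast hK
  set D : ℝ := 1 / Real.pi ^ 2 * (∑ h ∈ Icc 1 K, 2 * Real.pi * δ / h *
    ‖∑ n ∈ S, e (h * x n)‖ + 2 * S.card / K) with hD
  have hu : |∑ n ∈ S, (P2 (Int.fract (x n + δ)) - P2 (Int.fract (x n)))| ≤ D := by
    have := diff_bound S x δ K hK
    rwa [abs_of_pos hδ0] at this
  have hl : |∑ n ∈ S, (P2 (Int.fract (x n + -δ)) - P2 (Int.fract (x n)))| ≤ D := by
    have := diff_bound S x (-δ) K hK
    rwa [abs_neg, abs_of_pos hδ0] at this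
  have h1 : ∑ n ∈ S, (Int.fract (x n) - 1 / 2) ≤ D / (2 * δ) + S.card * (δ / 2) := by
    have h2 : ∑ n ∈ S, (Int.fract (x n) - 1 / 2) ≤
        ∑ n ∈ S, ((P2 (Int.fract (x n)) - P2 (Int.fract (x n - δ))) / (2 * δ) + δ / 2) :=
      sum_le_sum fun n _ => saw_upper (x n) δ hδ0 hδ1
    rw [sum_add_distrib, ← sum_div, sum_const, nsmul_eq_mul] at h2
    have h3 : ∑ n ∈ S, (P2 (Int.fract (x n)) - P2 (Int.fract (x n - δ))) ≤ D := by
      have h4 := (abs_le.1 hl).1
      have h5 : ∑ n ∈ S, (P2 (Int.fract (x n)) - P2 (Int.fract (x n - δ))) =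
          -∑ n ∈ S, (P2 (Int.fract (x n + -δ)) - P2 (Int.fract (x n))) := by
        rw [← sum_neg_distrib]
        refine sum_congr rfl fun n _ => ?_
        rw [sub_eq_add_neg (x n) δ]; ring
      rw [h5]; linarith
    have h6 : (∑ n ∈ S, (P2 (Int.fract (x n)) - P2 (Int.fract (x n - δ)))) / (2 * δ) ≤
        D / (2 * δ) := by gcongr
    linarith
  have h2 : -(D / (2 * δ) + S.card * (δ / 2)) ≤ ∑ n ∈ S, (Int.fract (x n) - 1 / 2) := by
    have h2 : ∑ n ∈ S, ((P2 (Int.fract (x n + δ)) - P2 (Int.fract (x n))) / (2 * δ) - δ / 2) ≤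
        ∑ n ∈ S, (Int.fract (x n) - 1 / 2) :=
      sum_le_sum fun n _ => saw_lower (x n) δ hδ0 hδ1
    rw [sum_sub_distrib, ← sum_div, sum_const, nsmul_eq_mul] at h2
    have h6 : -D / (2 * δ) ≤
        (∑ n ∈ S, (P2 (Int.fract (x n + δ)) - P2 (Int.fract (x n)))) / (2 * δ) := by
      have := (abs_le.1 hu).1
      gcongr
    have h7 : -D / (2 * δ) = -(D / (2 * δ)) := neg_div _ _
    linarith
  have h3 : D / (2 * δ) ≤ ∑ h ∈ Icc 1 K, ‖∑ n ∈ S, e (h * x n)‖ / h + S.card / (K * δ) := by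
    have hpi : 3 < Real.pi := Real.pi_gt_three
    have e1 : D / (2 * δ) = 1 / Real.pi * ∑ h ∈ Icc 1 K, ‖∑ n ∈ S, e (h * x n)‖ / h +
        1 / Real.pi ^ 2 * (S.card / (K * δ)) := by
      rw [hD, mul_add, add_div]
      congr 1
      · rw [mul_sum, sum_div, mul_sum]
        refine sum_congr rfl fun h hh => ?_
        have : (h : ℝ) ≠ 0 := by
          have := (mem_Icc.1 hh).1
          positivity
        field_simp
      · field_simp
    rw [e1]
    have e2 : 1 / Real.pi ≤ 1 := by rw [div_le_one (by positivity)]; linarith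
    have e3 : 1 / Real.pi ^ 2 ≤ 1 := by rw [div_le_one (by positivity)]; nlinarith
    have e4 : 0 ≤ ∑ h ∈ Icc 1 K, ‖∑ n ∈ S, e (h * x n)‖ / h :=
      sum_nonneg fun h _ => by positivity
    have e5 : 0 ≤ (S.card : ℝ) / (K * δ) := by positivity
    nlinarith
  have h4 : (S.card : ℝ) * (δ / 2) ≤ S.card * δ :=
    mul_le_mul_of_nonneg_left (by linarith) (Nat.cast_nonneg _)
  rw [abs_le]
  constructor <;> linarith

lemma indicator_eq (t α β : ℝ) (h0 : 0 ≤ α) (h1 : α < β) (h2 : β ≤ 1) :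
    (if α ≤ Int.fract t ∧ Int.fract t < β then (1 : ℝ) else 0) - (β - α) =
      (Int.fract (t - β) - 1 / 2) - (Int.fract (t - α) - 1 / 2) := by
  have hu0 := Int.fract_nonneg t
  have hu1 := Int.fract_lt_one t
  set u := Int.fract t with hu
  have ht : t = u + (⌊t⌋ : ℤ) := (Int.fract_add_floor t).symm
  have e1 : Int.fract (t - β) = if u < β then u - β + 1 else u - β := by
    have : t - β = (u - β) + (⌊t⌋ : ℤ) := by linarith
    rw [this, Int.fract_add_intCast]
    split_ifs with h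
    · have : u - β = (u - β + 1) + ((-1 : ℤ) : ℝ) := by push_cast; ring
      rw [this, Int.fract_add_intCast, Int.fract_eq_self.2 ⟨by linarith, by linarith⟩]
      push_cast; ring
    · exact Int.fract_eq_self.2 ⟨by linarith, by linarith⟩
  have e2 : Int.fract (t - α) = if u < α then u - α + 1 else u - α := by
    have : t - α = (u - α) + (⌊t⌋ : ℤ) := by linarith
    rw [this, Int.fract_add_intCast]
    split_ifs with h
    · have : u - α = (u - α + 1) + ((-1 : ℤ) : ℝ) := by push_cast; ring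
      rw [this, Int.fract_add_intCast, Int.fract_eq_self.2 ⟨by linarith, by linarith⟩]
      push_cast; ring
    · exact Int.fract_eq_self.2 ⟨by linarith, by linarith⟩
  rw [e1, e2]
  by_cases ha : u < α
  · rw [if_neg (by intro h; linarith [h.1]), if_pos (by linarith), if_pos ha]
    ring
  · by_cases hb : u < β
    · rw [if_pos ⟨by linarith, hb⟩, if_pos hb, if_neg ha]
      ring
    · rw [if_neg (by intro h; exact hb h.2), if_neg hb, if_neg ha]
      ring

lemma ee_eq (x : ℝ) : Pool.Agent.H807R2.Dav.ee x = e x := by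
  unfold Pool.Agent.H807R2.Dav.ee e
  congr 1
  push_cast
  ring

lemma norm_shift (N h : ℕ) (x : ℕ → ℝ) (c : ℝ) :
    ‖∑ n ∈ range N, e (h * (x n - c))‖ = ‖∑ n ∈ range N, e (h * x n)‖ := by
  have h1 : ∀ n : ℕ, e (h * (x n - c)) = e (-(h * c)) * e (h * x n) := by
    intro n
    rw [← e_add]
    congr 1
    ring
  simp only [h1]
  rw [← mul_sum, norm_mul, norm_e, one_mul]

/-- sums over pairs and over products -/
lemma pairs_le (K : ℕ) (f : ℕ → ℝ) (hf : ∀ m, 0 ≤ f m) :
    ∑ h ∈ Icc 1 K, ∑ j ∈ Icc 1 K, f (h * j) ≤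
      ∑ m ∈ Icc 1 (K * K), (m.divisors.card : ℝ) * f m := by
  rw [← sum_product']
  have hmaps : ∀ p ∈ Icc 1 K ×ˢ Icc 1 K, p.1 * p.2 ∈ Icc 1 (K * K) := by
    intro p hp
    rw [mem_product, mem_Icc, mem_Icc] at hp
    rw [mem_Icc]
    exact ⟨Nat.one_le_iff_ne_zero.2 (Nat.mul_ne_zero (by omega) (by omega)),
      Nat.mul_le_mul hp.1.2 hp.2.2⟩
  rw [← sum_fiberwise_of_maps_to hmaps]
  refine sum_le_sum fun m hm => ?_
  rw [mem_Icc] at hm
  have h1 : ∑ p ∈ (Icc 1 K ×ˢ Icc 1 K).filter (fun p => p.1 * p.2 = m), f (p.1 * p.2) =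
      ∑ p ∈ (Icc 1 K ×ˢ Icc 1 K).filter (fun p => p.1 * p.2 = m), f m :=
    sum_congr rfl fun p hp => by rw [(mem_filter.1 hp).2]
  rw [h1, sum_const, nsmul_eq_mul]
  refine mul_le_mul_of_nonneg_right ?_ (hf m)
  have h2 : ((Icc 1 K ×ˢ Icc 1 K).filter (fun p => p.1 * p.2 = m)).card ≤ m.divisors.card := by
    refine card_le_card_of_injOn Prod.fst ?_ ?_
    · intro p hp
      rw [mem_coe, mem_filter] at hp
      rw [mem_coe, Nat.mem_divisors]
      exact ⟨⟨p.2, hp.2.symm⟩, by omega⟩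
    · intro p hp p' hp' he
      rw [mem_coe, mem_filter, mem_product, mem_Icc, mem_Icc] at hp hp'
      ext
      · exact he
      · have h3 : p.1 * p.2 = p.1 * p'.2 := by rw [hp.2, he, hp'.2]
        exact Nat.eq_of_mul_eq_mul_left (by omega) h3
  exact_mod_cast h2

/-- the harmonic sum -/
lemma harm_le (K : ℕ) (hK : 2 ≤ K) : ∑ h ∈ Icc 1 K, 1 / (h : ℝ) ≤ 3 * Real.log K := by
  have h1 : (harmonic K : ℝ) ≤ 1 + Real.log K := harmonic_le_one_add_log K
  have h2 : ((harmonic K : ℚ) : ℝ) = ∑ h ∈ Icc 1 K, 1 / (h : ℝ) := by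
    rw [harmonic_eq_sum_Icc]
    push_cast
    refine sum_congr rfl fun h _ => ?_
    rw [one_div]
  rw [← h2]
  have h3 : Real.log 2 ≤ Real.log K := Real.log_le_log (by norm_num) (by exact_mod_cast hK)
  have h4 := Real.log_two_gt_d9
  linarith

/-- `2 / √K` is small -/
lemma sqrt_le (A : ℕ) : ∃ C : ℝ, 0 < C ∧ ∀ K : ℕ, 2 ≤ K → 1 / Real.sqrt K ≤ C / Real.log K ^ A := by
  obtain ⟨C, hC⟩ : ∃ C : ℝ, ∀ K : ℕ, 2 ≤ K → Real.log K ^ A / Real.sqrt K ≤ C := by
    refine ⟨((2 * (A + 1) : ℕ) : ℝ) ^ A, fun K hK => ?_⟩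
    have hK0 : (0 : ℝ) < K := by
      have : 0 < K := by omega
      exact_mod_cast this
    have hK1 : (1 : ℝ) ≤ K := by
      have : 1 ≤ K := by omega
      exact_mod_cast this
    set ε : ℝ := 1 / (2 * (A + 1)) with hε
    have hε0 : 0 < ε := by positivity
    have h1 : Real.log K ≤ (K : ℝ) ^ ε / ε := Real.log_le_rpow_div hK0.le hε0
    have h2 : Real.log K ^ A ≤ ((K : ℝ) ^ ε / ε) ^ A :=
      pow_le_pow_left₀ (Real.log_nonneg hK1) h1 A
    have h3 : ((K : ℝ) ^ ε / ε) ^ A = ((2 * (A + 1) : ℕ) : ℝ) ^ A * ((K : ℝ) ^ ε) ^ A := by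
      rw [← mul_pow]
      congr 1
      rw [hε]
      push_cast
      field_simp
    have h4 : ((K : ℝ) ^ ε) ^ A ≤ Real.sqrt K := by
      rw [← Real.rpow_natCast, ← Real.rpow_mul hK0.le, Real.sqrt_eq_rpow]
      refine Real.rpow_le_rpow_of_exponent_le hK1 ?_
      rw [hε, div_mul_eq_mul_div, one_mul, div_le_div_iff₀ (by positivity) (by norm_num)]
      nlinarith
    rw [div_le_iff₀ (Real.sqrt_pos.2 hK0)]
    calc Real.log K ^ A ≤ ((2 * (A + 1) : ℕ) : ℝ) ^ A * ((K : ℝ) ^ ε) ^ A := by rw [← h3]; exact h2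
      _ ≤ _ := mul_le_mul_of_nonneg_left h4 (by positivity)
  refine ⟨|C| + 1, by positivity, fun K hK => ?_⟩
  have hK0 : (0 : ℝ) < K := by
    have : 0 < K := by omega
    exact_mod_cast this
  have hlog : 0 < Real.log K := Real.log_pos (by exact_mod_cast (by omega : 1 < K))
  have h1 := hC K hK
  rw [div_le_div_iff₀ (Real.sqrt_pos.2 hK0) (by positivity), one_mul]
  rw [div_le_iff₀ (Real.sqrt_pos.2 hK0)] at h1
  have h2 : C * Real.sqrt K ≤ (|C| + 1) * Real.sqrt K :=
    mul_le_mul_of_nonneg_right (by linarith [le_abs_self C]) (Real.sqrt_nonneg _)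
  linarith

/-- the number of visits of the first `N` terms to `[α, β)` -/
noncomputable def vis (x : ℕ → ℝ) (α β : ℝ) (N : ℕ) : ℕ :=
  ((range N).filter fun n => α ≤ Int.fract (x n) ∧ Int.fract (x n) < β).card

/-- the difference of the number of visits and its expected value by the sawtooth function -/
lemma vis_le (x : ℕ → ℝ) (α β : ℝ) (h0 : 0 ≤ α) (h1 : α < β) (h2 : β ≤ 1) (N K : ℕ) (hK : 2 ≤ K) :
    |(vis x α β N : ℝ) - (β - α) * N| ≤
      2 * (∑ h ∈ Icc 1 K, ‖∑ n ∈ range N, e (h * x n)‖ / h + 2 * (N * (1 / Real.sqrt K))) := by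
  have hK0 : (0 : ℝ) < K := by
    have : 0 < K := by omega
    exact_mod_cast this
  have hK1 : (1 : ℝ) ≤ K := by
    have : 1 ≤ K := by omega
    exact_mod_cast this
  have hs0 : 0 < Real.sqrt K := Real.sqrt_pos.2 hK0
  have hs1 : 1 ≤ Real.sqrt K := Real.one_le_sqrt.2 hK1
  have hss : Real.sqrt K * Real.sqrt K = K := Real.mul_self_sqrt hK0.le
  have key : ∀ c : ℝ, |∑ n ∈ range N, (Int.fract (x n - c) - 1 / 2)| ≤
      ∑ h ∈ Icc 1 K, ‖∑ n ∈ range N, e (h * x n)‖ / h + 2 * (N * (1 / Real.sqrt K)) := by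
    intro c
    have h3 := saw_bound (range N) (fun n => x n - c) K (by omega) (1 / Real.sqrt K)
      (by positivity) (by rw [div_le_one hs0]; exact hs1)
    simp only [norm_shift, card_range] at h3
    refine h3.trans (le_of_eq ?_)
    have h4 : (N : ℝ) / (K * (1 / Real.sqrt K)) = N * (1 / Real.sqrt K) := by
      have h5 : (K : ℝ) * (1 / Real.sqrt K) = Real.sqrt K := by
        rw [mul_one_div, div_eq_iff hs0.ne', hss]
      rw [h5, div_eq_mul_one_div]
    rw [h4]
    ring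
  have h3 : (vis x α β N : ℝ) - (β - α) * N = ∑ n ∈ range N, (Int.fract (x n - β) - 1 / 2) -
      ∑ n ∈ range N, (Int.fract (x n - α) - 1 / 2) := by
    rw [← sum_sub_distrib]
    rw [← sum_congr rfl fun n _ => indicator_eq (x n) α β h0 h1 h2]
    rw [sum_sub_distrib, sum_const]
    unfold vis
    rw [card_filter]
    push_cast
    rw [card_range, nsmul_eq_mul]
    ring
  rw [h3]
  refine (abs_sub _ _).trans ?_
  linarith [key α, key β]

/-- the inequality for a square -/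
theorem disc_sq {b : ℕ} (hb : 3 ≤ b) (A : ℕ) : ∃ C : ℝ, 0 < C ∧ ∀ K : ℕ, 2 ≤ K → ∀ N : ℕ,
    ∀ x : ℕ → ℝ, ∀ α β : ℝ, 0 ≤ α → α < β → β ≤ 1 →
    |(vis x α β N : ℝ) - (β - α) * N| ≤ C * (N / Real.log K ^ A +
      ∑ m ∈ Icc 1 (K * K), (m.divisors.card : ℝ) / m * dev b N (fun n => m * x n)) := by
  obtain ⟨C1, hC1, h1⟩ := main_ineq hb (A + 1)
  obtain ⟨C2, hC2, h2⟩ := sqrt_le A
  refine ⟨2 * (3 * C1 + 2 * C2) + 8 * b, by positivity, fun K hK N x α β ha hab hb1 => ?_⟩
  have hlog : 0 < Real.log K := Real.log_pos (by exact_mod_cast (by omega : 1 < K))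
  set f : ℕ → ℝ := fun m => 1 / (m : ℝ) * dev b N (fun n => m * x n) with hf
  have hf0 : ∀ m, 0 ≤ f m := fun m => mul_nonneg (by positivity) (dev_nonneg _ _ _)
  have h3 : ∀ h ∈ Icc 1 K, ‖∑ n ∈ range N, e (h * x n)‖ / h ≤
      C1 * N / Real.log K ^ (A + 1) * (1 / h) + 4 * b * ∑ j ∈ Icc 1 K, f (h * j) := by
    intro h hh
    have hh0 : (0 : ℝ) < h := by
      have := (mem_Icc.1 hh).1
      exact_mod_cast this
    have h4 := h1 K hK N (fun n => h * x n)
    simp only [ee_eq] at h4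
    rw [div_le_iff₀ hh0]
    refine h4.trans (le_of_eq ?_)
    rw [add_mul, mul_assoc _ (1 / (h : ℝ)) (h : ℝ), one_div_mul_cancel hh0.ne', mul_one]
    congr 1
    rw [mul_assoc (4 * (b : ℝ)), sum_mul]
    congr 1
    refine sum_congr rfl fun j hj => ?_
    have hj0 : (0 : ℝ) < j := by
      have := (mem_Icc.1 hj).1
      exact_mod_cast this
    rw [hf]
    simp only
    have h5 : (fun n : ℕ => (j : ℝ) * (h * x n)) = fun n : ℕ => ((h * j : ℕ) : ℝ) * x n := by
      funext n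
      push_cast
      ring
    rw [h5]
    push_cast
    field_simp
  have h4 : ∑ h ∈ Icc 1 K, ‖∑ n ∈ range N, e (h * x n)‖ / h ≤
      3 * C1 * (N / Real.log K ^ A) + 4 * b *
        ∑ m ∈ Icc 1 (K * K), (m.divisors.card : ℝ) / m * dev b N (fun n => m * x n) := by
    refine (sum_le_sum h3).trans ?_
    rw [sum_add_distrib, ← mul_sum, ← mul_sum]
    refine add_le_add ?_ ?_
    · calc C1 * N / Real.log K ^ (A + 1) * ∑ h ∈ Icc 1 K, 1 / (h : ℝ)
          ≤ C1 * N / Real.log K ^ (A + 1) * (3 * Real.log K) :=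
            mul_le_mul_of_nonneg_left (harm_le K hK) (by positivity)
        _ = 3 * C1 * (N / Real.log K ^ A) := by
            rw [pow_succ]
            field_simp
    · refine mul_le_mul_of_nonneg_left ?_ (by positivity)
      refine (pairs_le K f hf0).trans (le_of_eq ?_)
      refine sum_congr rfl fun m _ => ?_
      rw [hf]
      simp only
      ring
  have h5 := vis_le x α β ha hab hb1 N K hK
  have h6 : (N : ℝ) * (1 / Real.sqrt K) ≤ C2 * (N / Real.log K ^ A) := by
    calc (N : ℝ) * (1 / Real.sqrt K) ≤ N * (C2 / Real.log K ^ A) :=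
          mul_le_mul_of_nonneg_left (h2 K hK) (Nat.cast_nonneg _)
      _ = _ := by ring
  have h7 : 0 ≤ (N : ℝ) / Real.log K ^ A := by positivity
  have h8 : 0 ≤ ∑ m ∈ Icc 1 (K * K), (m.divisors.card : ℝ) / m * dev b N (fun n => m * x n) :=
    sum_nonneg fun m _ => mul_nonneg (by positivity) (dev_nonneg _ _ _)
  have hbr : (0 : ℝ) ≤ b := Nat.cast_nonneg _
  have h9 := mul_nonneg hbr h7
  have h10 := mul_nonneg hC1.le h8
  have h11 := mul_nonneg hC2.le h8
  nlinarith [h4, h5, h6, h7, h8, h9, h10, h11]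

lemma vis_bound (x : ℕ → ℝ) (α β : ℝ) (h0 : 0 ≤ α) (h1 : α < β) (h2 : β ≤ 1) (N : ℕ) :
    |(vis x α β N : ℝ) - (β - α) * N| ≤ N := by
  have h3 : (vis x α β N : ℝ) ≤ N := by
    unfold vis
    have := card_filter_le (range N) fun n => α ≤ Int.fract (x n) ∧ Int.fract (x n) < β
    rw [card_range] at this
    exact_mod_cast this
  have h4 : (0 : ℝ) ≤ vis x α β N := Nat.cast_nonneg _
  have h5 : (0 : ℝ) ≤ N := Nat.cast_nonneg _
  have h6 : (β - α) * N ≤ 1 * N := mul_le_mul_of_nonneg_right (by linarith) h5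
  have h7 : 0 ≤ (β - α) * N := mul_nonneg (by linarith) h5
  rw [abs_le]
  constructor <;> linarith

/-- **The number of visits and the first digits of the multiples.** -/
theorem disc {b : ℕ} (hb : 3 ≤ b) (A : ℕ) : ∃ C : ℝ, 0 < C ∧ ∀ M : ℕ, 2 ≤ M → ∀ N : ℕ,
    ∀ x : ℕ → ℝ, ∀ α β : ℝ, 0 ≤ α → α < β → β ≤ 1 →
    |(vis x α β N : ℝ) - (β - α) * N| ≤ C * (N / Real.log M ^ A +
      ∑ m ∈ Icc 1 M, (m.divisors.card : ℝ) / m * dev b N (fun n => m * x n)) := by
  obtain ⟨C, hC, h1⟩ := disc_sq hb A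
  refine ⟨4 ^ A * (C + 1), by positivity, fun M hM N x α β ha hab hb1 => ?_⟩
  have hlog : 0 < Real.log M := Real.log_pos (by exact_mod_cast (by omega : 1 < M))
  have h8 : ∀ L : ℕ, 0 ≤ ∑ m ∈ Icc 1 L, (m.divisors.card : ℝ) / m * dev b N (fun n => m * x n) :=
    fun L => sum_nonneg fun m _ => mul_nonneg (by positivity) (dev_nonneg _ _ _)
  have h4A : (1 : ℝ) ≤ 4 ^ A := one_le_pow₀ (by norm_num)
  have hN0 : (0 : ℝ) ≤ N := Nat.cast_nonneg _
  rcases lt_or_ge M 4 with hM4 | hM4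
  · have h2 : Real.log M ≤ 4 := by
      have h3 : Real.log M ≤ M - 1 := Real.log_le_sub_one_of_pos (by positivity)
      have h4 : (M : ℝ) ≤ 4 := by exact_mod_cast hM4.le
      linarith
    have h3 : Real.log M ^ A ≤ 4 ^ A := pow_le_pow_left₀ hlog.le h2 A
    have h5 : (N : ℝ) ≤ 4 ^ A * (N / Real.log M ^ A) := by
      rw [mul_div_assoc', le_div_iff₀ (by positivity), mul_comm]
      exact mul_le_mul_of_nonneg_right h3 hN0
    refine (vis_bound x α β ha hab hb1 N).trans (h5.trans ?_)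
    have h6 : 0 ≤ (N : ℝ) / Real.log M ^ A := by positivity
    have h7 : (4 : ℝ) ^ A * (N / Real.log M ^ A) ≤ 4 ^ A * (C + 1) * (N / Real.log M ^ A) := by
      have : (4 : ℝ) ^ A * 1 ≤ 4 ^ A * (C + 1) := by
        refine mul_le_mul_of_nonneg_left (by linarith) (by positivity)
      rw [mul_one] at this
      exact mul_le_mul_of_nonneg_right this h6
    refine h7.trans ?_
    refine mul_le_mul_of_nonneg_left ?_ (by positivity)
    linarith [h8 M]
  · set K := Nat.sqrt M with hKdef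
    have hK2 : 2 ≤ K := Nat.le_sqrt.2 (by omega)
    have hKK : K * K ≤ M := Nat.sqrt_le M
    have hKM : M < (K + 1) * (K + 1) := Nat.lt_succ_sqrt M
    have hM4' : (M : ℝ) ≤ (K : ℝ) ^ 4 := by
      have h3 : (K + 1) * (K + 1) ≤ K ^ 4 := by
        have h4 : K + 1 ≤ K ^ 2 := by nlinarith
        calc (K + 1) * (K + 1) ≤ K ^ 2 * K ^ 2 := Nat.mul_le_mul h4 h4
          _ = K ^ 4 := by ring
      exact_mod_cast (hKM.le.trans h3)
    have hK0 : (0 : ℝ) < K := by
      have : 0 < K := by omega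
      exact_mod_cast this
    have hlogK : 0 < Real.log K := Real.log_pos (by exact_mod_cast (by omega : 1 < K))
    have h2 : Real.log M ≤ 4 * Real.log K := by
      have h3 := Real.log_le_log (by positivity) hM4'
      rw [Real.log_pow] at h3
      exact_mod_cast h3
    have h3 : Real.log M ^ A ≤ 4 ^ A * Real.log K ^ A := by
      rw [← mul_pow]
      exact pow_le_pow_left₀ hlog.le h2 A
    have h4 : (N : ℝ) / Real.log K ^ A ≤ 4 ^ A * (N / Real.log M ^ A) := by
      rw [mul_div_assoc', div_le_div_iff₀ (by positivity) (by positivity)]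
      calc (N : ℝ) * Real.log M ^ A ≤ N * (4 ^ A * Real.log K ^ A) :=
            mul_le_mul_of_nonneg_left h3 hN0
        _ = _ := by ring
    have h5 : ∑ m ∈ Icc 1 (K * K), (m.divisors.card : ℝ) / m * dev b N (fun n => m * x n) ≤
        ∑ m ∈ Icc 1 M, (m.divisors.card : ℝ) / m * dev b N (fun n => m * x n) := by
      refine sum_le_sum_of_subset_of_nonneg (Icc_subset_Icc_right hKK) fun m _ _ => ?_
      exact mul_nonneg (by positivity) (dev_nonneg _ _ _)
    refine (h1 K hK2 N x α β ha hab hb1).trans ?_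
    have h6 : 0 ≤ (N : ℝ) / Real.log M ^ A := by positivity
    calc C * (N / Real.log K ^ A + ∑ m ∈ Icc 1 (K * K), (m.divisors.card : ℝ) / m *
            dev b N (fun n => m * x n))
        ≤ C * (4 ^ A * (N / Real.log M ^ A) + 4 ^ A * ∑ m ∈ Icc 1 M, (m.divisors.card : ℝ) / m *
            dev b N (fun n => m * x n)) := by
          refine mul_le_mul_of_nonneg_left (add_le_add h4 (h5.trans ?_)) hC.le
          exact le_mul_of_one_le_left (h8 M) h4A
      _ = 4 ^ A * C * (N / Real.log M ^ A + ∑ m ∈ Icc 1 M, (m.divisors.card : ℝ) / m *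
            dev b N (fun n => m * x n)) := by ring
      _ ≤ _ := by
          refine mul_le_mul_of_nonneg_right ?_ (add_nonneg h6 (h8 M))
          exact mul_le_mul_of_nonneg_left (by linarith) (by positivity)

end Pool.Agent.Run7.h724.Thirds
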