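import Pool.Agent.Run7.h776.MS.Step
import Pool.Agent.Run7.h724.Thirds

/-!
# The cosine and the signs of the cosines of the multiples

A uniform approximation of `cos θ` by the signs of `cos (j θ)`, by the Moebius inversion of the
Fourier series of the square wave (`Pool.Agent.Run7.h776.MS.approx` for the character modulo four).
-/

set_option autoImplicit false

namespace Pool.Agent.Run7.h724.Sign

open Finset Filter Topology
open Pool.Agent.H807R2.Dav (ee norm_ee ee_add ee_zero ee_int ee_add_int)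
open Pool.Agent.Run7.h776.MS (mu PG TT EE DD psi approx mu_norm)
open scoped Real

/-- the character modulo four -/
noncomputable def x4 (n : ℕ) : ℝ := if n % 4 = 1 then 1 else if n % 4 = 3 then -1 else 0

/-- the character modulo four, complex values -/
noncomputable def g4 (n : ℕ) : ℂ := (x4 n : ℂ)

lemma x4_mul (m n : ℕ) : x4 (m * n) = x4 m * x4 n := by
  unfold x4
  have hm : m % 4 < 4 := Nat.mod_lt _ (by norm_num)
  have hn : n % 4 < 4 := Nat.mod_lt _ (by norm_num)
  rw [Nat.mul_mod]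
  generalize m % 4 = a at *
  generalize n % 4 = b at *
  interval_cases a <;> interval_cases b <;> norm_num

lemma x4_abs (n : ℕ) : |x4 n| ≤ 1 := by
  unfold x4
  split_ifs <;> norm_num

lemma x4_even (n : ℕ) (h : 2 ∣ n) : x4 n = 0 := by
  unfold x4
  rw [if_neg (by omega), if_neg (by omega)]

lemma PG4 : PG 4 g4 := by
  refine ⟨fun n => ?_, fun m n => ?_, ?_, ?_, fun n => ?_⟩
  · unfold g4 x4
    rw [Nat.mod_mod]
  · unfold g4
    rw [x4_mul]
    push_cast
    rfl
  · unfold g4 x4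
    norm_num
  · unfold g4 x4
    norm_num
  · unfold g4
    rw [Complex.norm_real, Real.norm_eq_abs]
    exact x4_abs n

/-- the square wave, continuous from the right -/
noncomputable def sig (t : ℝ) : ℝ := 2 * (psi (t + 1 / 4) - psi (t + 3 / 4))

lemma ee_half : ee (1 / 2) = -1 := by
  unfold ee
  have : (2 * (π : ℂ) * Complex.I * ((1 / 2 : ℝ) : ℂ)) = π * Complex.I := by push_cast; ring
  rw [this, Complex.exp_pi_mul_I]

lemma ee_quarter : ee (1 / 4) = Complex.I := by
  unfold ee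
  have : (2 * (π : ℂ) * Complex.I * ((1 / 4 : ℝ) : ℂ)) = (π / 2 : ℂ) * Complex.I := by
    push_cast; ring
  rw [this, Complex.exp_pi_div_two_mul_I]

lemma ee_3quarter : ee (3 / 4) = -Complex.I := by
  have : (3 / 4 : ℝ) = 1 / 2 + 1 / 4 := by norm_num
  rw [this, ee_add, ee_half, ee_quarter]
  ring

lemma TT4 (d : ℕ) : TT 4 g4 d = ee (-(d / 4 : ℝ)) - ee (-(3 * (d / 4 : ℝ))) := by
  unfold TT
  rw [sum_range_succ, sum_range_succ, sum_range_succ, sum_range_succ, sum_range_zero]
  have h0 : g4 0 = 0 := by unfold g4 x4; norm_num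
  have h1 : g4 1 = 1 := by unfold g4 x4; norm_num
  have h2 : g4 2 = 0 := by unfold g4 x4; norm_num
  have h3 : g4 3 = -1 := by unfold g4 x4; norm_num
  rw [h0, h1, h2, h3]
  push_cast
  ring_nf

lemma EE4 (t : ℝ) : EE 4 g4 t = -Complex.I * ((π / 4 * sig t : ℝ) : ℂ) := by
  unfold EE
  rw [sum_range_succ, sum_range_succ, sum_range_succ, sum_range_succ, sum_range_zero]
  have h0 : TT 4 g4 0 = 0 := by
    rw [TT4]
    norm_num
  have h1 : TT 4 g4 1 = -2 * Complex.I := by
    rw [TT4]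
    have a1 : ee (-(((1 : ℕ) : ℝ) / 4)) = -Complex.I := by
      have : (-(((1 : ℕ) : ℝ) / 4)) = 3 / 4 + ((-1 : ℤ) : ℝ) := by push_cast; norm_num
      rw [this, ee_add_int, ee_3quarter]
    have a2 : ee (-(3 * (((1 : ℕ) : ℝ) / 4))) = Complex.I := by
      have : (-(3 * (((1 : ℕ) : ℝ) / 4))) = 1 / 4 + ((-1 : ℤ) : ℝ) := by push_cast; norm_num
      rw [this, ee_add_int, ee_quarter]
    rw [a1, a2]
    ring
  have h2 : TT 4 g4 2 = 0 := by
    rw [TT4]
    have a1 : ee (-(((2 : ℕ) : ℝ) / 4)) = -1 := by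
      have : (-(((2 : ℕ) : ℝ) / 4)) = 1 / 2 + ((-1 : ℤ) : ℝ) := by push_cast; norm_num
      rw [this, ee_add_int, ee_half]
    have a2 : ee (-(3 * (((2 : ℕ) : ℝ) / 4))) = -1 := by
      have : (-(3 * (((2 : ℕ) : ℝ) / 4))) = 1 / 2 + ((-2 : ℤ) : ℝ) := by push_cast; norm_num
      rw [this, ee_add_int, ee_half]
    rw [a1, a2]
    ring
  have h3 : TT 4 g4 3 = 2 * Complex.I := by
    rw [TT4]
    have a1 : ee (-(((3 : ℕ) : ℝ) / 4)) = Complex.I := by
      have : (-(((3 : ℕ) : ℝ) / 4)) = 1 / 4 + ((-1 : ℤ) : ℝ) := by push_cast; norm_num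
      rw [this, ee_add_int, ee_quarter]
    have a2 : ee (-(3 * (((3 : ℕ) : ℝ) / 4))) = -Complex.I := by
      have : (-(3 * (((3 : ℕ) : ℝ) / 4))) = 3 / 4 + ((-3 : ℤ) : ℝ) := by push_cast; norm_num
      rw [this, ee_add_int, ee_3quarter]
    rw [a1, a2]
    ring
  rw [h0, h1, h2, h3]
  unfold sig
  push_cast
  ring

lemma sig_val (t : ℝ) : sig t = if Int.fract t < 1 / 4 ∨ 3 / 4 ≤ Int.fract t then 1 else -1 := by
  unfold sig psi
  have hu0 := Int.fract_nonneg t
  have hu1 := Int.fract_lt_one t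
  set u := Int.fract t with hu
  have ht : t = u + (⌊t⌋ : ℤ) := (Int.fract_add_floor t).symm
  have e1 : Int.fract (t + 1 / 4) = if u < 3 / 4 then u + 1 / 4 else u - 3 / 4 := by
    have : t + 1 / 4 = (u + 1 / 4) + (⌊t⌋ : ℤ) := by linarith
    rw [this, Int.fract_add_intCast]
    split_ifs with h
    · exact Int.fract_eq_self.2 ⟨by linarith, by linarith⟩
    · have : u + 1 / 4 = (u - 3 / 4) + ((1 : ℤ) : ℝ) := by push_cast; ring
      rw [this, Int.fract_add_intCast, Int.fract_eq_self.2 ⟨by linarith, by linarith⟩]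
  have e2 : Int.fract (t + 3 / 4) = if u < 1 / 4 then u + 3 / 4 else u - 1 / 4 := by
    have : t + 3 / 4 = (u + 3 / 4) + (⌊t⌋ : ℤ) := by linarith
    rw [this, Int.fract_add_intCast]
    split_ifs with h
    · exact Int.fract_eq_self.2 ⟨by linarith, by linarith⟩
    · have : u + 3 / 4 = (u - 1 / 4) + ((1 : ℤ) : ℝ) := by push_cast; ring
      rw [this, Int.fract_add_intCast, Int.fract_eq_self.2 ⟨by linarith, by linarith⟩]
  rw [e1, e2]
  by_cases h1 : u < 1 / 4
  · rw [if_pos (by linarith), if_pos h1, if_pos (Or.inl h1)]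
    ring
  · by_cases h2 : u < 3 / 4
    · rw [if_pos h2, if_neg h1, if_neg (by
        rintro (h | h)
        · exact h1 h
        · linarith)]
      ring
    · rw [if_neg h2, if_neg h1, if_pos (Or.inr (not_lt.1 h2))]
      ring

lemma cos_fract (t : ℝ) : Real.cos (2 * π * t) = Real.cos (2 * π * Int.fract t) := by
  have h3 : 2 * π * t = 2 * π * Int.fract t + ((⌊t⌋ : ℤ) : ℝ) * (2 * π) := by
    have := Int.fract_add_floor t
    linear_combination (-(2 * π)) * this
  rw [h3, Real.cos_add_int_mul_two_pi]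

lemma sig_sym (t : ℝ) : (sig t + sig (-t)) / 2 = Real.sign (Real.cos (2 * π * t)) := by
  have hpi := Real.pi_pos
  rw [sig_val, sig_val, cos_fract]
  have hu0 := Int.fract_nonneg t
  have hu1 := Int.fract_lt_one t
  by_cases h0 : Int.fract t = 0
  · have h1 : Int.fract (-t) = 0 := Int.fract_neg_eq_zero.2 h0
    rw [h0, h1]
    norm_num [Real.sign_one]
  · have h1 : Int.fract (-t) = 1 - Int.fract t := Int.fract_neg h0
    rw [h1]
    set u := Int.fract t with hu
    rcases lt_trichotomy u (1 / 4) with h | h | h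
    · rw [if_pos (Or.inl h), if_pos (Or.inr (by linarith)), Real.sign_of_pos]
      · norm_num
      · apply Real.cos_pos_of_mem_Ioo
        constructor <;> nlinarith
    · rw [h]
      have : Real.cos (2 * π * (1 / 4)) = 0 := by
        have : 2 * π * (1 / 4) = π / 2 := by ring
        rw [this, Real.cos_pi_div_two]
      rw [this, Real.sign_zero]
      norm_num
    · rcases lt_trichotomy u (3 / 4) with h' | h' | h'
      · rw [if_neg (by
          rintro (h2 | h2) <;> linarith), if_neg (by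
          rintro (h2 | h2) <;> linarith), Real.sign_of_neg]
        · norm_num
        · apply Real.cos_neg_of_pi_div_two_lt_of_lt <;> nlinarith
      · rw [h']
        have : Real.cos (2 * π * (3 / 4)) = 0 := by
          have : 2 * π * (3 / 4) = π / 2 + π := by ring
          rw [this, Real.cos_add_pi, Real.cos_pi_div_two, neg_zero]
        rw [this, Real.sign_zero]
        norm_num
      · rw [if_pos (Or.inr h'.le), if_pos (Or.inl (by linarith)), Real.sign_of_pos]
        · norm_num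
        · have : Real.cos (2 * π * u) = Real.cos (2 * π * u - 2 * π) := by
            rw [Real.cos_sub_two_pi]
          rw [this]
          apply Real.cos_pos_of_mem_Ioo
          constructor <;> nlinarith

/-- the coefficient `μ(j) χ(j) / j` -/
noncomputable def cf (j : ℕ) : ℝ := ((ArithmeticFunction.moebius j : ℤ) : ℝ) * x4 j / j

lemma cf_abs (j : ℕ) : |cf j| ≤ 1 / j := by
  unfold cf
  rw [abs_div, abs_mul, Nat.abs_cast]
  apply div_le_div_of_nonneg_right _ (Nat.cast_nonneg _)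
  have h1 : |((ArithmeticFunction.moebius j : ℤ) : ℝ)| ≤ 1 := by
    exact_mod_cast ArithmeticFunction.abs_moebius_le_one (n := j)
  exact mul_le_one₀ h1 (abs_nonneg _) (x4_abs j)

lemma DD4 (J : ℕ) (y : ℝ) :
    DD 4 g4 J y = -Complex.I * ((π / 4 * ∑ j ∈ Icc 1 J, cf j * sig (j * y) : ℝ) : ℂ) := by
  unfold DD
  rw [mul_sum]
  push_cast
  rw [mul_sum]
  refine sum_congr rfl fun j _ => ?_
  rw [EE4]
  unfold mu g4 cf
  push_cast
  ring

/-- **The cosine and the square waves.** -/
theorem cos_approx (A : ℕ) : ∃ C : ℝ, 0 < C ∧ ∀ J : ℕ, 2 ≤ J → ∀ θ : ℝ,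
    |Real.cos θ - π / 4 * ∑ j ∈ Icc 1 J, cf j * Real.sign (Real.cos (j * θ))| ≤
      C / Real.log J ^ A := by
  obtain ⟨C, hC, h⟩ := approx (b := 4) (by norm_num) PG4 A
  refine ⟨C, hC, fun J hJ θ => ?_⟩
  have hpi : π ≠ 0 := Real.pi_ne_zero
  have key : ∀ y : ℝ, |Real.cos (2 * π * y) - π / 4 * ∑ j ∈ Icc 1 J, cf j * sig (j * y)| ≤
      C / Real.log J ^ A := by
    intro y
    have h1 := h J hJ y
    have h2 : g4 (4 - 1) = -1 := by unfold g4 x4; norm_num
    have h3 : (ee y - g4 (4 - 1) * ee (-y)) / (2 * Complex.I) =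
        -Complex.I * ((Real.cos (2 * π * y) : ℝ) : ℂ) := by
      rw [h2, Pool.Agent.Run7.h776.MS.cos_ee, neg_one_mul, sub_neg_eq_add]
      have hI : Complex.I ≠ 0 := Complex.I_ne_zero
      field_simp
      rw [Complex.I_sq]
      ring
    rw [h3, DD4, ← mul_sub, ← Complex.ofReal_sub, norm_mul, norm_neg, Complex.norm_I, one_mul,
      Complex.norm_real, Real.norm_eq_abs] at h1
    exact h1
  have h1 := key (θ / (2 * π))
  have h2 := key (-(θ / (2 * π)))
  have e1 : 2 * π * (θ / (2 * π)) = θ := by field_simp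
  rw [mul_neg, Real.cos_neg, e1] at h2
  rw [e1] at h1
  have e2 : π / 4 * ∑ j ∈ Icc 1 J, cf j * Real.sign (Real.cos (j * θ)) =
      (π / 4 * ∑ j ∈ Icc 1 J, cf j * sig (j * (θ / (2 * π))) +
        π / 4 * ∑ j ∈ Icc 1 J, cf j * sig (j * (-(θ / (2 * π))))) / 2 := by
    rw [← mul_add, mul_div_assoc, ← sum_add_distrib, sum_div]
    congr 1
    refine sum_congr rfl fun j _ => ?_
    have e3 : Real.cos (j * θ) = Real.cos (2 * π * (j * (θ / (2 * π)))) := by
      congr 1
      field_simp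
    rw [e3, ← sig_sym, mul_neg]
    ring
  rw [e2]
  rw [abs_le] at h1 h2 ⊢
  constructor <;> linarith [h1.1, h1.2, h2.1, h2.2]

/-- the mean of the sign of `cos (m θ)` -/
noncomputable def sm (m : ℕ) : ℝ := if m = 2 then -(2 / π) else 0

/-- the mean of `cos (h θ)` -/
noncomputable def cm (h : ℕ) : ℝ := if h = 2 then -(1 / 2) else 0

lemma sm_id (J h : ℕ) (hJ : 1 ≤ J) : π / 4 * ∑ j ∈ Icc 1 J, cf j * sm (j * h) = cm h := by
  have hpi : π ≠ 0 := Real.pi_ne_zero
  have h1 : ∀ j ∈ Icc 1 J, cf j * sm (j * h) = if j = 1 then sm h else 0 := by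
    intro j hj
    rw [mem_Icc] at hj
    split_ifs with hj1
    · subst hj1
      unfold cf x4
      norm_num
    · unfold sm
      split_ifs with h2
      · have h3 : j ∣ 2 := ⟨h, h2.symm⟩
        have h4 : j ≤ 2 := Nat.le_of_dvd (by norm_num) h3
        have h5 : j = 2 := by omega
        subst h5
        unfold cf
        rw [x4_even 2 (dvd_refl 2)]
        simp
      · rw [mul_zero]
  rw [sum_congr rfl h1, sum_ite_eq' (Icc 1 J) 1 (fun _ => sm h), if_pos (mem_Icc.2 ⟨le_rfl, hJ⟩)]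
  unfold sm cm
  split_ifs
  · field_simp
    norm_num
  · ring

/-- **The averages of the cosines and of the signs of the cosines.** -/
theorem weyl (A : ℕ) : ∃ C : ℝ, 0 < C ∧ ∀ J : ℕ, 2 ≤ J → ∀ {ι : Type} (S : Finset ι) (θ : ι → ℝ)
    (h : ℕ), |∑ i ∈ S, Real.cos (h * θ i) - S.card * cm h| ≤
      C * (S.card / Real.log J ^ A) + ∑ j ∈ Icc 1 J, 1 / (j : ℝ) *
        |∑ i ∈ S, Real.sign (Real.cos ((j * h : ℕ) * θ i)) - S.card * sm (j * h)| := by
  obtain ⟨C, hC, hc⟩ := cos_approx A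
  refine ⟨C, hC, fun J hJ ι S θ h => ?_⟩
  have hpi4 : π / 4 ≤ 1 := by
    have := Real.pi_lt_four
    linarith
  have hpi0 : 0 ≤ π / 4 := by positivity
  have e1 : ∑ i ∈ S, Real.cos (h * θ i) - S.card * cm h =
      ∑ i ∈ S, (Real.cos (h * θ i) - π / 4 * ∑ j ∈ Icc 1 J, cf j *
        Real.sign (Real.cos (j * (h * θ i)))) +
      π / 4 * ∑ j ∈ Icc 1 J, cf j *
        (∑ i ∈ S, Real.sign (Real.cos ((j * h : ℕ) * θ i)) - S.card * sm (j * h)) := by
    rw [sum_sub_distrib, ← mul_sum, sum_comm, ← sm_id J h (by omega)]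
    simp only [mul_sub, sum_sub_distrib, ← mul_sum]
    have e2 : ∀ j : ℕ, ∀ i, Real.sign (Real.cos (j * (h * θ i))) =
        Real.sign (Real.cos ((j * h : ℕ) * θ i)) := by
      intro j i
      congr 2
      push_cast
      ring
    simp only [e2]
    have e3 : ∑ j ∈ Icc 1 J, cf j * ((S.card : ℝ) * sm (j * h)) =
        S.card * ∑ j ∈ Icc 1 J, cf j * sm (j * h) := by
      rw [mul_sum]
      refine sum_congr rfl fun j _ => ?_
      ring
    rw [e3]
    ring
  rw [e1]
  refine (abs_add_le _ _).trans (add_le_add ?_ ?_)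
  · refine (abs_sum_le_sum_abs _ _).trans ?_
    refine (sum_le_sum fun i _ => hc J hJ (h * θ i)).trans ?_
    rw [sum_const, nsmul_eq_mul]
    apply le_of_eq
    ring
  · rw [abs_mul, abs_of_nonneg hpi0]
    refine (mul_le_of_le_one_left (abs_nonneg _) hpi4).trans ?_
    refine (abs_sum_le_sum_abs _ _).trans (sum_le_sum fun j _ => ?_)
    rw [abs_mul]
    exact mul_le_mul_of_nonneg_right (cf_abs j) (abs_nonneg _)

end Pool.Agent.Run7.h724.Sign
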