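import Pool.Agent.Run7.h724.SignA

/-!
# Counting with the Sato-Tate measure by the signs of the cosines
-/

set_option autoImplicit false

namespace Pool.Agent.Run7.h724.Sign

open Finset Filter Topology
open Pool.Agent.W565.MOFS (P2 cos_sum saw_upper saw_lower)
open Pool.Agent.Run7.h724.Thirds (pairs_le harm_le sqrt_le)
open scoped Real

/-- a bound for the sum of a series with two bounds for the terms -/
lemma hasSum_bound {f : ℕ → ℝ} {s B : ℝ} {a : ℕ → ℝ} (hf : HasSum f s) (hf0 : f 0 = 0)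
    (h1 : ∀ k, 1 ≤ k → |f k| ≤ a k) (h2 : ∀ k, |f k| ≤ ((k : ℝ) ^ 2)⁻¹ * B) (hB : 0 ≤ B)
    (K : ℕ) (hK : 1 ≤ K) : |s| ≤ ∑ k ∈ Icc 1 K, a k + B / K := by
  have hK0 : (0 : ℝ) < K := by exact_mod_cast hK
  have hpart : ∀ M : ℕ, |∑ h ∈ range M, f h| ≤ ∑ k ∈ Icc 1 K, a k + B / K := by
    intro M
    refine (abs_sum_le_sum_abs _ _).trans ?_
    have hM : range M ⊆ insert 0 (Icc 1 K ∪ Ioc K (max K M)) := by
      intro h hh
      rw [mem_range] at hh
      rw [mem_insert, mem_union, mem_Icc, mem_Ioc]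
      by_cases h1 : h = 0
      · exact Or.inl h1
      · by_cases h2 : h ≤ K
        · exact Or.inr (Or.inl ⟨by omega, h2⟩)
        · exact Or.inr (Or.inr ⟨by omega, le_max_of_le_right hh.le⟩)
    refine (sum_le_sum_of_subset_of_nonneg hM (fun _ _ _ => abs_nonneg _)).trans ?_
    have h0 : 0 ∉ Icc 1 K ∪ Ioc K (max K M) := by
      rw [mem_union, mem_Icc, mem_Ioc]; omega
    have hdisj : Disjoint (Icc 1 K) (Ioc K (max K M)) := by
      rw [disjoint_left]
      intro a ha ha'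
      rw [mem_Icc] at ha
      rw [mem_Ioc] at ha'
      omega
    rw [sum_insert h0, hf0, abs_zero, zero_add, sum_union hdisj]
    refine add_le_add (sum_le_sum fun h hh => h1 h (mem_Icc.1 hh).1) ?_
    refine (sum_le_sum fun h _ => h2 h).trans ?_
    rw [← sum_mul]
    have h5 := sum_Ioc_inv_sq_le_sub (α := ℝ) (k := K) (n := max K M) (by omega) (le_max_left _ _)
    have h6 : (0 : ℝ) ≤ ((max K M : ℕ) : ℝ)⁻¹ := by positivity
    calc (∑ h ∈ Ioc K (max K M), ((h : ℝ) ^ 2)⁻¹) * B ≤ (K : ℝ)⁻¹ * B := by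
          refine mul_le_mul_of_nonneg_right ?_ hB
          linarith
      _ = B / K := by rw [div_eq_mul_inv]; ring
  exact le_of_tendsto (hf.tendsto_sum_nat.abs) (Eventually.of_forall hpart)

section Fam

variable {ι : Type} (S : Finset ι) (θ : ι → ℝ)

/-- the deviation of the sum of the cosines -/
noncomputable def Dc (k : ℕ) : ℝ := ∑ i ∈ S, Real.cos (k * θ i) - S.card * cm k

/-- the deviation of the sum of the signs -/
noncomputable def dv (m : ℕ) : ℝ :=
  |∑ i ∈ S, Real.sign (Real.cos (m * θ i)) - S.card * sm m|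

/-- the sum of the sawtooth function -/
noncomputable def TT1 (c : ℝ) : ℝ :=
  ∑ i ∈ S, ((Int.fract (θ i / (2 * π) - c) - 1 / 2) + (Int.fract (-(θ i / (2 * π)) - c) - 1 / 2))

/-- the sum of its primitive -/
noncomputable def V0 (c : ℝ) : ℝ :=
  ∑ i ∈ S, (P2 (Int.fract (θ i / (2 * π) - c)) + P2 (Int.fract (-(θ i / (2 * π)) - c)))

/-- the deviation of the sum of the primitive -/
noncomputable def V1 (c : ℝ) : ℝ := V0 S θ c + S.card * (Real.cos (4 * π * c) / (4 * π ^ 2))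

lemma V1_series (c : ℝ) :
    HasSum (fun k : ℕ => 1 / (k : ℝ) ^ 2 * (2 * Dc S θ k * Real.cos (2 * π * k * c)))
      (π ^ 2 * V1 S θ c) := by
  have hpi : π ≠ 0 := Real.pi_ne_zero
  have h1 : HasSum (fun k : ℕ => ∑ i ∈ S, (1 / (k : ℝ) ^ 2 * Real.cos (2 * π * k *
      (θ i / (2 * π) - c)) + 1 / (k : ℝ) ^ 2 * Real.cos (2 * π * k * (-(θ i / (2 * π)) - c))))
      (∑ i ∈ S, (π ^ 2 * P2 (Int.fract (θ i / (2 * π) - c)) +
        π ^ 2 * P2 (Int.fract (-(θ i / (2 * π)) - c)))) :=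
    hasSum_sum fun i _ => (cos_sum _).add (cos_sum _)
  have h2 : HasSum (fun k : ℕ => if k = 2 then S.card * (Real.cos (4 * π * c) / 4) else 0)
      (S.card * (Real.cos (4 * π * c) / 4)) := hasSum_ite_eq 2 _
  have h3 := h1.add h2
  convert h3 using 1
  · funext k
    unfold Dc
    have e1 : ∀ i, 1 / (k : ℝ) ^ 2 * Real.cos (2 * π * k * (θ i / (2 * π) - c)) +
        1 / (k : ℝ) ^ 2 * Real.cos (2 * π * k * (-(θ i / (2 * π)) - c)) =
        1 / (k : ℝ) ^ 2 * (2 * Real.cos (2 * π * k * c)) * Real.cos (k * θ i) := by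
      intro i
      have a1 : 2 * π * k * (θ i / (2 * π) - c) = k * θ i - 2 * π * k * c := by
        field_simp
      have a2 : 2 * π * k * (-(θ i / (2 * π)) - c) = -(k * θ i + 2 * π * k * c) := by
        field_simp
        ring
      rw [a1, a2, Real.cos_neg, Real.cos_sub, Real.cos_add]
      ring
    simp only [e1]
    rw [← mul_sum]
    have e2 : (if k = 2 then S.card * (Real.cos (4 * π * c) / 4) else (0 : ℝ)) =
        -(1 / (k : ℝ) ^ 2 * (2 * Real.cos (2 * π * k * c))) * (S.card * cm k) := by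
      unfold cm
      split_ifs with hk
      · subst hk
        have : 2 * π * ((2 : ℕ) : ℝ) * c = 4 * π * c := by push_cast; ring
        rw [this]
        push_cast
        ring
      · ring
    rw [e2]
    ring
  · unfold V1 V0
    rw [mul_add, mul_sum]
    congr 1
    · refine sum_congr rfl fun i _ => ?_
      ring
    · field_simp

lemma Dc_abs (k : ℕ) : |Dc S θ k| ≤ 2 * S.card := by
  unfold Dc
  refine (abs_sub _ _).trans ?_
  have h1 : |∑ i ∈ S, Real.cos (k * θ i)| ≤ S.card := by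
    refine (abs_sum_le_sum_abs _ _).trans ?_
    refine (sum_le_sum fun i _ => Real.abs_cos_le_one _).trans ?_
    simp
  have h2 : |(S.card : ℝ) * cm k| ≤ S.card := by
    rw [abs_mul, Nat.abs_cast]
    refine mul_le_of_le_one_right (Nat.cast_nonneg _) ?_
    unfold cm
    split_ifs <;> norm_num
  linarith

lemma cos_sub_cos_le (x y : ℝ) : |Real.cos x - Real.cos y| ≤ |x - y| := by
  rw [Real.cos_sub_cos, abs_mul, abs_mul]
  have h1 : |Real.sin ((x - y) / 2)| ≤ |(x - y) / 2| := Real.abs_sin_le_abs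
  have h2 := Real.abs_sin_le_one ((x + y) / 2)
  rw [abs_div, abs_two] at h1
  rw [abs_neg, abs_two]
  have h3 : 0 ≤ |Real.sin ((x - y) / 2)| := abs_nonneg _
  nlinarith [abs_nonneg (Real.sin ((x + y) / 2))]

lemma V1_diff (c δ : ℝ) (K : ℕ) (hK : 1 ≤ K) :
    |V1 S θ (c + δ) - V1 S θ c| ≤
      1 / π ^ 2 * (∑ k ∈ Icc 1 K, 4 * π * |δ| / k * |Dc S θ k| + 8 * S.card / K) := by
  have hpi : 0 < π := Real.pi_pos
  have h1 := (V1_series S θ (c + δ)).sub (V1_series S θ c)
  have h2 := hasSum_bound (a := fun k => 4 * π * |δ| / k * |Dc S θ k|) (B := 8 * S.card) h1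
    (by simp) ?_ ?_ (by positivity) K hK
  · rw [← mul_sub, abs_mul, abs_of_pos (by positivity : (0 : ℝ) < π ^ 2)] at h2
    rw [one_div, ← div_eq_inv_mul, le_div_iff₀ (by positivity), mul_comm]
    exact h2
  · intro k hk
    have hk0 : (0 : ℝ) < k := by exact_mod_cast hk
    rw [← mul_sub, ← mul_sub, abs_mul, abs_mul, abs_mul, abs_two,
      abs_of_pos (by positivity : (0 : ℝ) < 1 / (k : ℝ) ^ 2)]
    have h3 := cos_sub_cos_le (2 * π * k * (c + δ)) (2 * π * k * c)
    have h4 : 2 * π * k * (c + δ) - 2 * π * k * c = 2 * π * k * δ := by ring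
    rw [h4, abs_mul, abs_of_pos (by positivity : (0 : ℝ) < 2 * π * k)] at h3
    calc 1 / (k : ℝ) ^ 2 * (2 * |Dc S θ k| *
          |Real.cos (2 * π * k * (c + δ)) - Real.cos (2 * π * k * c)|)
        ≤ 1 / (k : ℝ) ^ 2 * (2 * |Dc S θ k| * (2 * π * k * |δ|)) := by gcongr
      _ = _ := by field_simp; ring
  · intro k
    rw [← mul_sub, ← mul_sub, abs_mul, abs_mul, abs_mul, abs_two,
      abs_of_nonneg (by positivity : (0 : ℝ) ≤ 1 / (k : ℝ) ^ 2), one_div]
    refine mul_le_mul_of_nonneg_left ?_ (by positivity)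
    have h3 := Dc_abs S θ k
    have h4 : |Real.cos (2 * π * k * (c + δ)) - Real.cos (2 * π * k * c)| ≤ 2 := by
      have h5 := Real.abs_cos_le_one (2 * π * k * (c + δ))
      have h6 := Real.abs_cos_le_one (2 * π * k * c)
      have := abs_sub (Real.cos (2 * π * k * (c + δ))) (Real.cos (2 * π * k * c))
      linarith
    calc 2 * |Dc S θ k| * |Real.cos (2 * π * k * (c + δ)) - Real.cos (2 * π * k * c)|
        ≤ 2 * (2 * S.card) * 2 := by gcongr
      _ = _ := by ring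

lemma sin_lin (t : ℝ) (h0 : 0 ≤ t) : |Real.sin t - t| ≤ 2 * t ^ 2 := by
  have h1 : Real.sin t ≤ t := Real.sin_le h0
  rw [abs_of_nonpos (by linarith)]
  rcases h0.eq_or_lt with rfl | h0
  · simp
  rcases le_or_gt t 1 with h | h
  · have h2 := Real.sin_gt_sub_cube h0
    nlinarith [pow_nonneg h0.le 3, mul_nonneg (sq_nonneg t) (sub_nonneg.2 h)]
  · have h2 := Real.neg_one_le_sin t
    nlinarith

lemma sin_lin' (t : ℝ) : |Real.sin t - t| ≤ 2 * t ^ 2 := by
  rcases le_total 0 t with h | h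
  · exact sin_lin t h
  · have h1 := sin_lin (-t) (by linarith)
    rw [Real.sin_neg, neg_sq] at h1
    rwa [← abs_neg, show -(Real.sin t - t) = -Real.sin t - -t by ring]

lemma cos_lin (x t : ℝ) : |Real.cos x - Real.cos (x + t) - t * Real.sin x| ≤ 5 / 2 * t ^ 2 := by
  have e : Real.cos x - Real.cos (x + t) - t * Real.sin x =
      Real.cos x * (1 - Real.cos t) + Real.sin x * (Real.sin t - t) := by
    rw [Real.cos_add]
    ring
  rw [e]
  refine (abs_add_le _ _).trans ?_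
  rw [abs_mul, abs_mul]
  have h1 : |1 - Real.cos t| ≤ t ^ 2 / 2 := by
    rw [abs_of_nonneg (by linarith [Real.cos_le_one t])]
    linarith [Real.one_sub_sq_div_two_le_cos (x := t)]
  have h2 := sin_lin' t
  have h3 := Real.abs_cos_le_one x
  have h4 := Real.abs_sin_le_one x
  have h5 : |Real.cos x| * |1 - Real.cos t| ≤ 1 * (t ^ 2 / 2) :=
    mul_le_mul h3 h1 (abs_nonneg _) zero_le_one
  have h6 : |Real.sin x| * |Real.sin t - t| ≤ 1 * (2 * t ^ 2) :=
    mul_le_mul h4 h2 (abs_nonneg _) zero_le_one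
  linarith

lemma quot (c δ : ℝ) (h0 : 0 < |δ|) :
    |(Real.cos (4 * π * c) / (4 * π ^ 2) - Real.cos (4 * π * (c + δ)) / (4 * π ^ 2)) / (2 * δ) -
      Real.sin (4 * π * c) / (2 * π)| ≤ 5 * |δ| := by
  have hpi : 0 < π := Real.pi_pos
  have hδ : δ ≠ 0 := abs_pos.1 h0
  have h := cos_lin (4 * π * c) (4 * π * δ)
  have e1 : 4 * π * c + 4 * π * δ = 4 * π * (c + δ) := by ring
  rw [e1] at h
  have e2 : (Real.cos (4 * π * c) / (4 * π ^ 2) - Real.cos (4 * π * (c + δ)) / (4 * π ^ 2)) /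
      (2 * δ) - Real.sin (4 * π * c) / (2 * π) = (Real.cos (4 * π * c) -
      Real.cos (4 * π * (c + δ)) - 4 * π * δ * Real.sin (4 * π * c)) / (8 * π ^ 2 * δ) := by
    field_simp
    ring
  rw [e2, abs_div, abs_mul, abs_of_pos (by positivity : (0 : ℝ) < 8 * π ^ 2),
    div_le_iff₀ (by positivity)]
  refine h.trans (le_of_eq ?_)
  have : |δ| * |δ| = δ ^ 2 := by rw [abs_mul_abs_self]; ring
  calc 5 / 2 * (4 * π * δ) ^ 2 = 5 * (8 * π ^ 2) * δ ^ 2 := by ring
    _ = _ := by rw [← this]; ring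

/-- the sawtooth sums -/
theorem saw_ST (c : ℝ) (K : ℕ) (hK : 1 ≤ K) (δ : ℝ) (hδ0 : 0 < δ) (hδ1 : δ ≤ 1) :
    |TT1 S θ c + S.card * (Real.sin (4 * π * c) / (2 * π))| ≤
      ∑ k ∈ Icc 1 K, |Dc S θ k| / k + S.card / (K * δ) + 6 * (S.card * δ) := by
  have hpi : 3 < π := Real.pi_gt_three
  have hpi0 : 0 < π := Real.pi_pos
  have hK0 : (0 : ℝ) < K := by exact_mod_cast hK
  have hc0 : (0 : ℝ) ≤ S.card := Nat.cast_nonneg _
  set D : ℝ := 1 / π ^ 2 * (∑ k ∈ Icc 1 K, 4 * π * δ / k * |Dc S θ k| + 8 * S.card / K) with hD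
  have hu : |V1 S θ (c + δ) - V1 S θ c| ≤ D := by
    have := V1_diff S θ c δ K hK
    rwa [abs_of_pos hδ0] at this
  have hl : |V1 S θ (c + -δ) - V1 S θ c| ≤ D := by
    have := V1_diff S θ c (-δ) K hK
    rwa [abs_neg, abs_of_pos hδ0] at this
  have q1 := quot c δ (abs_pos.2 hδ0.ne')
  have q2 := quot c (-δ) (abs_pos.2 (neg_ne_zero.2 hδ0.ne'))
  rw [abs_neg] at q2
  rw [abs_of_pos hδ0] at q1 q2
  set s := Real.sin (4 * π * c) / (2 * π) with hs
  set z0 := Real.cos (4 * π * c) / (4 * π ^ 2) with hz0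
  set z1 := Real.cos (4 * π * (c + δ)) / (4 * π ^ 2) with hz1
  set z2 := Real.cos (4 * π * (c + -δ)) / (4 * π ^ 2) with hz2
  have hup : TT1 S θ c ≤ (V0 S θ c - V0 S θ (c + δ)) / (2 * δ) + S.card * δ := by
    unfold TT1 V0
    rw [← sum_sub_distrib, sum_div]
    have e : (S.card : ℝ) * δ = ∑ i ∈ S, δ := by rw [sum_const, nsmul_eq_mul]
    rw [e, ← sum_add_distrib]
    refine sum_le_sum fun i _ => ?_
    have a1 := saw_upper (θ i / (2 * π) - c) δ hδ0 hδ1
    have a2 := saw_upper (-(θ i / (2 * π)) - c) δ hδ0 hδ1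
    rw [show θ i / (2 * π) - (c + δ) = θ i / (2 * π) - c - δ by ring,
      show -(θ i / (2 * π)) - (c + δ) = -(θ i / (2 * π)) - c - δ by ring]
    refine (add_le_add a1 a2).trans (le_of_eq ?_)
    ring
  have hlo : (V0 S θ (c + -δ) - V0 S θ c) / (2 * δ) - S.card * δ ≤ TT1 S θ c := by
    unfold TT1 V0
    rw [← sum_sub_distrib, sum_div]
    have e : (S.card : ℝ) * δ = ∑ i ∈ S, δ := by rw [sum_const, nsmul_eq_mul]
    rw [e, ← sum_sub_distrib]
    refine sum_le_sum fun i _ => ?_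
    have a1 := saw_lower (θ i / (2 * π) - c) δ hδ0 hδ1
    have a2 := saw_lower (-(θ i / (2 * π)) - c) δ hδ0 hδ1
    rw [show θ i / (2 * π) - (c + -δ) = θ i / (2 * π) - c + δ by ring,
      show -(θ i / (2 * π)) - (c + -δ) = -(θ i / (2 * π)) - c + δ by ring]
    refine (le_of_eq ?_).trans (add_le_add a1 a2)
    ring
  have hv0 : V0 S θ c = V1 S θ c - S.card * z0 := by unfold V1; ring
  have hv1 : V0 S θ (c + δ) = V1 S θ (c + δ) - S.card * z1 := by unfold V1; ring
  have hv2 : V0 S θ (c + -δ) = V1 S θ (c + -δ) - S.card * z2 := by unfold V1; ring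
  have h2δ : 0 < 2 * δ := by linarith
  -- upper bound
  have u1 : (V0 S θ c - V0 S θ (c + δ)) / (2 * δ) =
      (V1 S θ c - V1 S θ (c + δ)) / (2 * δ) - S.card * ((z0 - z1) / (2 * δ)) := by
    rw [hv0, hv1]
    field_simp
    ring
  have u2 : (V1 S θ c - V1 S θ (c + δ)) / (2 * δ) ≤ D / (2 * δ) := by
    apply div_le_div_of_nonneg_right _ h2δ.le
    linarith [(abs_le.1 hu).1]
  have u3 : s - 5 * δ ≤ (z0 - z1) / (2 * δ) := by linarith [(abs_le.1 q1).1]
  have u4 : (S.card : ℝ) * (s - 5 * δ) ≤ S.card * ((z0 - z1) / (2 * δ)) :=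
    mul_le_mul_of_nonneg_left u3 hc0
  -- lower bound
  have l1 : (V0 S θ (c + -δ) - V0 S θ c) / (2 * δ) =
      (V1 S θ (c + -δ) - V1 S θ c) / (2 * δ) - S.card * ((z0 - z2) / (2 * -δ)) := by
    rw [hv0, hv2]
    field_simp
    ring
  have l2 : -(D / (2 * δ)) ≤ (V1 S θ (c + -δ) - V1 S θ c) / (2 * δ) := by
    rw [← neg_div]
    apply div_le_div_of_nonneg_right _ h2δ.le
    linarith [(abs_le.1 hl).1]
  have l3 : (z0 - z2) / (2 * -δ) ≤ s + 5 * δ := by linarith [(abs_le.1 q2).2]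
  have l4 : (S.card : ℝ) * ((z0 - z2) / (2 * -δ)) ≤ S.card * (s + 5 * δ) :=
    mul_le_mul_of_nonneg_left l3 hc0
  have h3 : D / (2 * δ) ≤ ∑ k ∈ Icc 1 K, |Dc S θ k| / k + S.card / (K * δ) := by
    have e1 : D / (2 * δ) = 2 / π * ∑ k ∈ Icc 1 K, |Dc S θ k| / k +
        4 / π ^ 2 * (S.card / (K * δ)) := by
      rw [hD, mul_add, add_div]
      congr 1
      · rw [mul_sum, sum_div, mul_sum]
        refine sum_congr rfl fun h hh => ?_
        have : (h : ℝ) ≠ 0 := by
          have := (mem_Icc.1 hh).1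
          positivity
        field_simp
        ring
      · field_simp
        ring
    rw [e1]
    have e2 : 2 / π ≤ 1 := by rw [div_le_one (by positivity)]; linarith
    have e3 : 4 / π ^ 2 ≤ 1 := by rw [div_le_one (by positivity)]; nlinarith
    have e4 : 0 ≤ ∑ k ∈ Icc 1 K, |Dc S θ k| / k :=
      sum_nonneg fun h _ => by positivity
    have e5 : 0 ≤ (S.card : ℝ) / (K * δ) := by positivity
    have e6 := mul_le_of_le_one_left e4 e2
    have e7 := mul_le_of_le_one_left e5 e3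
    linarith
  rw [abs_le]
  constructor <;> nlinarith [hup, hlo, u1, u2, u4, l1, l2, l4, h3]

/-- the number of the `θ i < b` -/
noncomputable def Nl (b : ℝ) : ℕ := (S.filter fun i => θ i < b).card

/-- the number of the `θ i ≤ b` -/
noncomputable def Ne (b : ℝ) : ℕ := (S.filter fun i => θ i ≤ b).card

/-- the distribution function of the Sato-Tate measure -/
noncomputable def FF (b : ℝ) : ℝ := (b - Real.sin b * Real.cos b) / π

lemma four_saw (u b : ℝ) (hu0 : 0 ≤ u) (hu1 : u ≤ 1 / 2) (hb0 : 0 < b) (hb1 : b < 1 / 2) :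
    ((Int.fract (u - b) - 1 / 2) + (Int.fract (-u - b) - 1 / 2)) -
      ((Int.fract (u - -b) - 1 / 2) + (Int.fract (-u - -b) - 1 / 2)) =
      -(4 * b) + ((if u < b then (1 : ℝ) else 0) + if u ≤ b then (1 : ℝ) else 0) := by
  have e1 : Int.fract (u - b) = if u < b then u - b + 1 else u - b := by
    split_ifs with h
    · have : u - b = (u - b + 1) + ((-1 : ℤ) : ℝ) := by push_cast; ring
      rw [this, Int.fract_add_intCast, Int.fract_eq_self.2 ⟨by linarith, by linarith⟩]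
      push_cast; ring
    · exact Int.fract_eq_self.2 ⟨by linarith, by linarith⟩
  have e2 : Int.fract (-u - b) = 1 - u - b := by
    have : -u - b = (1 - u - b) + ((-1 : ℤ) : ℝ) := by push_cast; ring
    rw [this, Int.fract_add_intCast, Int.fract_eq_self.2 ⟨by linarith, by linarith⟩]
  have e3 : Int.fract (u - -b) = u + b := by
    rw [sub_neg_eq_add]
    exact Int.fract_eq_self.2 ⟨by linarith, by linarith⟩
  have e4 : Int.fract (-u - -b) = if u ≤ b then b - u else b - u + 1 := by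
    split_ifs with h
    · have : -u - -b = b - u := by ring
      rw [this]
      exact Int.fract_eq_self.2 ⟨by linarith, by linarith⟩
    · have : -u - -b = (b - u + 1) + ((-1 : ℤ) : ℝ) := by push_cast; ring
      rw [this, Int.fract_add_intCast, Int.fract_eq_self.2 ⟨by linarith, by linarith⟩]
  rw [e1, e2, e3, e4]
  split_ifs <;> ring

lemma count_eq (hθ : ∀ i ∈ S, 0 ≤ θ i ∧ θ i ≤ π) (b : ℝ) (h0 : 0 < b) (h1 : b < π) :
    (Nl S θ b : ℝ) + Ne S θ b - 2 * (S.card * FF b) =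
      (TT1 S θ (b / (2 * π)) + S.card * (Real.sin (4 * π * (b / (2 * π))) / (2 * π))) -
      (TT1 S θ (-(b / (2 * π))) + S.card * (Real.sin (4 * π * (-(b / (2 * π)))) / (2 * π))) := by
  have hpi0 : 0 < π := Real.pi_pos
  have h2 : TT1 S θ (b / (2 * π)) - TT1 S θ (-(b / (2 * π))) =
      -(4 * (b / (2 * π))) * S.card + ((Nl S θ b : ℝ) + Ne S θ b) := by
    unfold TT1 Nl Ne
    rw [← sum_sub_distrib]
    have e : ∀ i ∈ S, ((Int.fract (θ i / (2 * π) - b / (2 * π)) - 1 / 2) +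
        (Int.fract (-(θ i / (2 * π)) - b / (2 * π)) - 1 / 2)) -
        ((Int.fract (θ i / (2 * π) - -(b / (2 * π))) - 1 / 2) +
        (Int.fract (-(θ i / (2 * π)) - -(b / (2 * π))) - 1 / 2)) =
        -(4 * (b / (2 * π))) + ((if θ i < b then (1 : ℝ) else 0) +
          if θ i ≤ b then (1 : ℝ) else 0) := by
      intro i hi
      have a1 : θ i / (2 * π) ≤ 1 / 2 := by
        rw [div_le_iff₀ (by positivity)]
        linarith [(hθ i hi).2]
      have a2 : b / (2 * π) < 1 / 2 := by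
        rw [div_lt_iff₀ (by positivity)]
        linarith
      have a3 : (θ i / (2 * π) < b / (2 * π)) = (θ i < b) := by
        rw [div_lt_div_iff_of_pos_right (by positivity)]
      have a4 : (θ i / (2 * π) ≤ b / (2 * π)) = (θ i ≤ b) := by
        rw [div_le_div_iff_of_pos_right (by positivity)]
      have a5 := four_saw (θ i / (2 * π)) (b / (2 * π)) (div_nonneg (hθ i hi).1 (by positivity)) a1
        (by positivity) a2
      simp only [a3, a4] at a5
      exact a5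
    rw [sum_congr rfl e, sum_add_distrib, sum_add_distrib, sum_const, nsmul_eq_mul, card_filter,
      card_filter]
    push_cast
    ring
  have e3 : 4 * π * (b / (2 * π)) = 2 * b := by field_simp; ring
  rw [mul_neg, Real.sin_neg, e3, Real.sin_two_mul]
  have e4 : (Nl S θ b : ℝ) + Ne S θ b = TT1 S θ (b / (2 * π)) - TT1 S θ (-(b / (2 * π))) +
      4 * (b / (2 * π)) * S.card := by linarith
  rw [e4]
  unfold FF
  field_simp
  ring

/-- the error term -/
noncomputable def Er (K : ℕ) : ℝ :=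
  ∑ k ∈ Icc 1 K, |Dc S θ k| / k + 7 * (S.card * (1 / Real.sqrt K))

lemma mid (hθ : ∀ i ∈ S, 0 ≤ θ i ∧ θ i ≤ π) (b : ℝ) (h0 : 0 < b) (h1 : b < π) (K : ℕ)
    (hK : 1 ≤ K) : |((Nl S θ b : ℝ) + Ne S θ b) / 2 - S.card * FF b| ≤ Er S θ K := by
  have hK0 : (0 : ℝ) < K := by exact_mod_cast hK
  have hK1 : (1 : ℝ) ≤ K := by exact_mod_cast hK
  have hs0 : 0 < Real.sqrt K := Real.sqrt_pos.2 hK0
  have hs1 : 1 ≤ Real.sqrt K := Real.one_le_sqrt.2 hK1
  have hss : Real.sqrt K * Real.sqrt K = K := Real.mul_self_sqrt hK0.le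
  have key : ∀ c : ℝ, |TT1 S θ c + S.card * (Real.sin (4 * π * c) / (2 * π))| ≤ Er S θ K := by
    intro c
    refine (saw_ST S θ c K hK (1 / Real.sqrt K) (by positivity)
      (by rw [div_le_one hs0]; exact hs1)).trans (le_of_eq ?_)
    have h4 : (S.card : ℝ) / (K * (1 / Real.sqrt K)) = S.card * (1 / Real.sqrt K) := by
      have h5 : (K : ℝ) * (1 / Real.sqrt K) = Real.sqrt K := by
        rw [mul_one_div, div_eq_iff hs0.ne', hss]
      rw [h5, div_eq_mul_one_div]
    rw [h4]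
    unfold Er
    ring
  have h2 := count_eq S θ hθ b h0 h1
  have h3 := key (b / (2 * π))
  have h4 := key (-(b / (2 * π)))
  rw [abs_le] at h3 h4 ⊢
  constructor <;> linarith [h3.1, h3.2, h4.1, h4.2]

lemma Er_nonneg (K : ℕ) : 0 ≤ Er S θ K := by
  unfold Er
  have : 0 ≤ ∑ k ∈ Icc 1 K, |Dc S θ k| / k := sum_nonneg fun h _ => by positivity
  positivity

lemma Nl_le_Ne (b : ℝ) : Nl S θ b ≤ Ne S θ b := by
  unfold Nl Ne
  apply card_le_card
  intro i hi
  rw [mem_filter] at hi ⊢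
  exact ⟨hi.1, hi.2.le⟩

lemma Ne_le_Nl {b c : ℝ} (h : b < c) : Ne S θ b ≤ Nl S θ c := by
  unfold Nl Ne
  apply card_le_card
  intro i hi
  rw [mem_filter] at hi ⊢
  exact ⟨hi.1, hi.2.trans_lt h⟩

lemma FF_cont : Continuous FF := by
  unfold FF
  fun_prop

lemma FF_zero : FF 0 = 0 := by simp [FF]

lemma FF_pi : FF π = 1 := by
  unfold FF
  rw [Real.sin_pi, zero_mul, sub_zero, div_self Real.pi_ne_zero]

lemma Ne_le_card (b : ℝ) : Ne S θ b ≤ S.card := card_filter_le _ _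

lemma bound_Ne (hθ : ∀ i ∈ S, 0 ≤ θ i ∧ θ i ≤ π) (b : ℝ) (h0 : 0 ≤ b) (h1 : b ≤ π) (K : ℕ)
    (hK : 1 ≤ K) : |(Ne S θ b : ℝ) - S.card * FF b| ≤ Er S θ K := by
  have hE := Er_nonneg S θ K
  rcases h1.eq_or_lt with rfl | h1
  · have h2 : Ne S θ π = S.card := by
      unfold Ne
      rw [filter_true_of_mem fun i hi => (hθ i hi).2]
    rw [h2, FF_pi, mul_one, sub_self, abs_zero]
    exact hE
  rw [abs_le]
  constructor
  · rcases h0.eq_or_lt with rfl | h0
    · rw [FF_zero, mul_zero, sub_zero]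
      have : (0 : ℝ) ≤ Ne S θ 0 := Nat.cast_nonneg _
      linarith
    · have h2 := (abs_le.1 (mid S θ hθ b h0 h1 K hK)).1
      have h3 : (Nl S θ b : ℝ) ≤ Ne S θ b := by exact_mod_cast Nl_le_Ne S θ b
      linarith
  · have h2 : ∀ᶠ c in 𝓝[>] b, (Ne S θ b : ℝ) ≤ S.card * FF c + Er S θ K := by
      filter_upwards [Ioo_mem_nhdsGT h1] with c hc
      have h3 := (abs_le.1 (mid S θ hθ c (h0.trans_lt hc.1) hc.2 K hK)).2
      have h4 : (Nl S θ c : ℝ) ≤ Ne S θ c := by exact_mod_cast Nl_le_Ne S θ c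
      have h5 : (Ne S θ b : ℝ) ≤ Nl S θ c := by exact_mod_cast Ne_le_Nl S θ hc.1
      linarith
    have h3 : Tendsto (fun c => (S.card : ℝ) * FF c + Er S θ K) (𝓝[>] b)
        (𝓝 (S.card * FF b + Er S θ K)) :=
      ((FF_cont.tendsto b).mono_left nhdsWithin_le_nhds |>.const_mul _).add_const _
    have h4 := ge_of_tendsto h3 h2
    linarith

lemma bound_Nl (hθ : ∀ i ∈ S, 0 ≤ θ i ∧ θ i ≤ π) (b : ℝ) (h0 : 0 ≤ b) (h1 : b ≤ π) (K : ℕ)
    (hK : 1 ≤ K) : |(Nl S θ b : ℝ) - S.card * FF b| ≤ Er S θ K := by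
  have hE := Er_nonneg S θ K
  rcases h0.eq_or_lt with rfl | h0
  · have h2 : Nl S θ 0 = 0 := by
      unfold Nl
      rw [card_eq_zero, filter_eq_empty_iff]
      intro i hi
      exact not_lt.2 (hθ i hi).1
    rw [h2, FF_zero, mul_zero, Nat.cast_zero, sub_self, abs_zero]
    exact hE
  rw [abs_le]
  constructor
  · have h2 : ∀ᶠ c in 𝓝[<] b, S.card * FF c - Er S θ K ≤ (Nl S θ b : ℝ) := by
      filter_upwards [Ioo_mem_nhdsLT h0] with c hc
      have h3 := (abs_le.1 (mid S θ hθ c hc.1 (hc.2.trans_le h1) K hK)).1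
      have h4 : (Nl S θ c : ℝ) ≤ Ne S θ c := by exact_mod_cast Nl_le_Ne S θ c
      have h5 : (Ne S θ c : ℝ) ≤ Nl S θ b := by exact_mod_cast Ne_le_Nl S θ hc.2
      linarith
    have h3 : Tendsto (fun c => (S.card : ℝ) * FF c - Er S θ K) (𝓝[<] b)
        (𝓝 (S.card * FF b - Er S θ K)) :=
      ((FF_cont.tendsto b).mono_left nhdsWithin_le_nhds |>.const_mul _).sub_const _
    have h4 := le_of_tendsto h3 h2
    linarith
  · rcases h1.eq_or_lt with rfl | h1
    · rw [FF_pi, mul_one]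
      have : (Nl S θ π : ℝ) ≤ S.card := by
        exact_mod_cast (Nl_le_Ne S θ π).trans (Ne_le_card S θ π)
      linarith
    · have h2 := (abs_le.1 (mid S θ hθ b h0 h1 K hK)).2
      have h3 : (Nl S θ b : ℝ) ≤ Ne S θ b := by exact_mod_cast Nl_le_Ne S θ b
      linarith

/-- the number of the `i` with `α ≤ θ i ≤ β` -/
noncomputable def ct (α β : ℝ) : ℕ := (S.filter fun i => α ≤ θ i ∧ θ i ≤ β).card

lemma ct_eq {α β : ℝ} (h : α ≤ β) : (ct S θ α β : ℝ) = Ne S θ β - Nl S θ α := by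
  classical
  have h1 : Ne S θ β = ct S θ α β + Nl S θ α := by
    unfold Ne ct Nl
    rw [← card_union_of_disjoint]
    · congr 1
      ext i
      simp only [mem_union, mem_filter]
      constructor
      · rintro ⟨h1, h2⟩
        rcases lt_or_ge (θ i) α with h3 | h3
        · exact Or.inr ⟨h1, h3⟩
        · exact Or.inl ⟨h1, h3, h2⟩
      · rintro (⟨h1, h2, h3⟩ | ⟨h1, h2⟩)
        · exact ⟨h1, h3⟩
        · exact ⟨h1, h2.le.trans h⟩
    · rw [disjoint_left]
      intro i h1 h2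
      rw [mem_filter] at h1 h2
      exact absurd h2.2 (not_lt.2 h1.2.1)
  rw [h1]
  push_cast
  ring

lemma ct_bound (hθ : ∀ i ∈ S, 0 ≤ θ i ∧ θ i ≤ π) (α β : ℝ) (h0 : 0 ≤ α) (h1 : α ≤ β)
    (h2 : β ≤ π) (K : ℕ) (hK : 1 ≤ K) :
    |(ct S θ α β : ℝ) - S.card * (FF β - FF α)| ≤ 2 * Er S θ K := by
  rw [ct_eq S θ h1]
  have h3 := bound_Ne S θ hθ β (h0.trans h1) h2 K hK
  have h4 := bound_Nl S θ hθ α h0 (h1.trans h2) K hK
  rw [abs_le] at h3 h4 ⊢
  constructor <;> linarith [h3.1, h3.2, h4.1, h4.2]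

end Fam

/-- the inequality for a square -/
theorem disc_sq (A : ℕ) : ∃ C : ℝ, 0 < C ∧ ∀ K : ℕ, 2 ≤ K → ∀ {ι : Type} (S : Finset ι)
    (θ : ι → ℝ), (∀ i ∈ S, 0 ≤ θ i ∧ θ i ≤ π) → ∀ α β : ℝ, 0 ≤ α → α ≤ β → β ≤ π →
    |(ct S θ α β : ℝ) - S.card * (FF β - FF α)| ≤ C * (S.card / Real.log K ^ A +
      ∑ m ∈ Icc 1 (K * K), (m.divisors.card : ℝ) / m * dv S θ m) := by
  obtain ⟨C1, hC1, h1⟩ := weyl (A + 1)
  obtain ⟨C2, hC2, h2⟩ := sqrt_le A
  refine ⟨2 * (3 * C1 + 7 * C2) + 2, by positivity, fun K hK ι S θ hθ α β ha hab hb => ?_⟩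
  have hlog : 0 < Real.log K := Real.log_pos (by exact_mod_cast (by omega : 1 < K))
  have hc0 : (0 : ℝ) ≤ S.card := Nat.cast_nonneg _
  set f : ℕ → ℝ := fun m => 1 / (m : ℝ) * dv S θ m with hf
  have hd0 : ∀ m, 0 ≤ dv S θ m := fun m => abs_nonneg _
  have hf0 : ∀ m, 0 ≤ f m := fun m => mul_nonneg (by positivity) (hd0 m)
  have h3 : ∀ h ∈ Icc 1 K, |Dc S θ h| / h ≤
      C1 * (S.card / Real.log K ^ (A + 1)) * (1 / h) + ∑ j ∈ Icc 1 K, f (h * j) := by
    intro h hh
    have hh0 : (0 : ℝ) < h := by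
      have := (mem_Icc.1 hh).1
      exact_mod_cast this
    rw [div_le_iff₀ hh0]
    refine (h1 K hK S θ h).trans (le_of_eq ?_)
    rw [add_mul, mul_assoc _ (1 / (h : ℝ)) (h : ℝ), one_div_mul_cancel hh0.ne', mul_one, sum_mul]
    congr 1
    refine sum_congr rfl fun j hj => ?_
    have hj0 : (0 : ℝ) < j := by
      have := (mem_Icc.1 hj).1
      exact_mod_cast this
    rw [hf]
    simp only
    rw [mul_comm h j]
    unfold dv
    push_cast
    field_simp
  have h4 : ∑ h ∈ Icc 1 K, |Dc S θ h| / h ≤ 3 * C1 * (S.card / Real.log K ^ A) +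
        ∑ m ∈ Icc 1 (K * K), (m.divisors.card : ℝ) / m * dv S θ m := by
    refine (sum_le_sum h3).trans ?_
    rw [sum_add_distrib, ← mul_sum]
    refine add_le_add ?_ ?_
    · calc C1 * (S.card / Real.log K ^ (A + 1)) * ∑ h ∈ Icc 1 K, 1 / (h : ℝ)
          ≤ C1 * (S.card / Real.log K ^ (A + 1)) * (3 * Real.log K) :=
            mul_le_mul_of_nonneg_left (harm_le K hK) (by positivity)
        _ = 3 * C1 * (S.card / Real.log K ^ A) := by
            rw [pow_succ]
            field_simp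
    · refine (pairs_le K f hf0).trans (le_of_eq ?_)
      refine sum_congr rfl fun m _ => ?_
      rw [hf]
      simp only
      ring
  have h5 := ct_bound S θ hθ α β ha hab hb K (by omega)
  have h6 : (S.card : ℝ) * (1 / Real.sqrt K) ≤ C2 * (S.card / Real.log K ^ A) := by
    calc (S.card : ℝ) * (1 / Real.sqrt K) ≤ S.card * (C2 / Real.log K ^ A) :=
          mul_le_mul_of_nonneg_left (h2 K hK) hc0
      _ = _ := by ring
  have h7 : 0 ≤ (S.card : ℝ) / Real.log K ^ A := by positivity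
  have h8 : 0 ≤ ∑ m ∈ Icc 1 (K * K), (m.divisors.card : ℝ) / m * dv S θ m :=
    sum_nonneg fun m _ => mul_nonneg (by positivity) (hd0 m)
  have h9 := mul_nonneg hC1.le h8
  have h10 := mul_nonneg hC2.le h8
  unfold Er at h5
  nlinarith [h4, h5, h6, h7, h8, h9, h10]

lemma FF_mem {α β : ℝ} (h : α ≤ β) : 0 ≤ FF β - FF α ∧ FF β - FF α ≤ (β - α) * (2 / π) := by
  have hpi : 0 < π := Real.pi_pos
  have h1 : (2 / π) * ∫ u in α..β, Real.sin u ^ 2 = FF β - FF α := by
    rw [integral_sin_sq]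
    unfold FF
    field_simp
    ring
  rw [← h1]
  constructor
  · refine mul_nonneg (by positivity) ?_
    exact intervalIntegral.integral_nonneg h fun u _ => sq_nonneg _
  · have h2 : ∫ u in α..β, Real.sin u ^ 2 ≤ ∫ _ in α..β, (1 : ℝ) := by
      apply intervalIntegral.integral_mono_on h
      · exact (Real.continuous_sin.pow 2).intervalIntegrable _ _
      · exact intervalIntegrable_const
      · intro u _
        exact Real.sin_sq_le_one u
    rw [intervalIntegral.integral_const, smul_eq_mul, mul_one] at h2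
    rw [mul_comm]
    exact mul_le_mul_of_nonneg_right h2 (by positivity)

lemma FF_integral (α β : ℝ) : (2 / π) * ∫ u in α..β, Real.sin u ^ 2 = FF β - FF α := by
  rw [integral_sin_sq]
  have hpi : 0 < π := Real.pi_pos
  unfold FF
  field_simp
  ring

lemma FF_le_one {α β : ℝ} (h0 : 0 ≤ α) (h : α ≤ β) (h1 : β ≤ π) : FF β - FF α ≤ 1 := by
  have h2 := (FF_mem h0).1
  have h3 := (FF_mem h1).1
  rw [FF_zero] at h2
  rw [FF_pi] at h3
  linarith

lemma ct_triv {ι : Type} (S : Finset ι) (θ : ι → ℝ) (α β : ℝ) (h0 : 0 ≤ α) (h1 : α ≤ β)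
    (h2 : β ≤ π) : |(ct S θ α β : ℝ) - S.card * (FF β - FF α)| ≤ S.card := by
  have h3 : (ct S θ α β : ℝ) ≤ S.card := by
    exact_mod_cast card_filter_le _ _
  have h4 : (0 : ℝ) ≤ ct S θ α β := Nat.cast_nonneg _
  have h5 : (0 : ℝ) ≤ S.card := Nat.cast_nonneg _
  have h6 : (S.card : ℝ) * (FF β - FF α) ≤ S.card := mul_le_of_le_one_right h5 (FF_le_one h0 h1 h2)
  have h7 : 0 ≤ (S.card : ℝ) * (FF β - FF α) := mul_nonneg h5 (FF_mem h1).1
  rw [abs_le]
  constructor <;> linarith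

/-- **Counting by the signs.** -/
theorem disc (A : ℕ) : ∃ C : ℝ, 0 < C ∧ ∀ M : ℕ, 2 ≤ M → ∀ {ι : Type} (S : Finset ι)
    (θ : ι → ℝ), (∀ i ∈ S, 0 ≤ θ i ∧ θ i ≤ π) → ∀ α β : ℝ, 0 ≤ α → α ≤ β → β ≤ π →
    |(ct S θ α β : ℝ) - S.card * (FF β - FF α)| ≤ C * (S.card / Real.log M ^ A +
      ∑ m ∈ Icc 1 M, (m.divisors.card : ℝ) / m * dv S θ m) := by
  obtain ⟨C, hC, h1⟩ := disc_sq A
  refine ⟨4 ^ A * (C + 1), by positivity, fun M hM ι S θ hθ α β ha hab hb1 => ?_⟩
  have hlog : 0 < Real.log M := Real.log_pos (by exact_mod_cast (by omega : 1 < M))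
  have h8 : ∀ L : ℕ, 0 ≤ ∑ m ∈ Icc 1 L, (m.divisors.card : ℝ) / m * dv S θ m :=
    fun L => sum_nonneg fun m _ => mul_nonneg (by positivity) (abs_nonneg _)
  have h4A : (1 : ℝ) ≤ 4 ^ A := one_le_pow₀ (by norm_num)
  have hN0 : (0 : ℝ) ≤ S.card := Nat.cast_nonneg _
  rcases lt_or_ge M 4 with hM4 | hM4
  · have h2 : Real.log M ≤ 4 := by
      have h3 : Real.log M ≤ M - 1 := Real.log_le_sub_one_of_pos (by positivity)
      have h4 : (M : ℝ) ≤ 4 := by exact_mod_cast hM4.le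
      linarith
    have h3 : Real.log M ^ A ≤ 4 ^ A := pow_le_pow_left₀ hlog.le h2 A
    have h5 : (S.card : ℝ) ≤ 4 ^ A * (S.card / Real.log M ^ A) := by
      rw [mul_div_assoc', le_div_iff₀ (by positivity), mul_comm]
      exact mul_le_mul_of_nonneg_right h3 hN0
    refine (ct_triv S θ α β ha hab hb1).trans (h5.trans ?_)
    have h6 : 0 ≤ (S.card : ℝ) / Real.log M ^ A := by positivity
    have h7 : (4 : ℝ) ^ A * (S.card / Real.log M ^ A) ≤
        4 ^ A * (C + 1) * (S.card / Real.log M ^ A) := by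
      have : (4 : ℝ) ^ A * 1 ≤ 4 ^ A * (C + 1) := by
        refine mul_le_mul_of_nonneg_left (by linarith) (by positivity)
      rw [mul_one] at this
      exact mul_le_mul_of_nonneg_right this h6
    refine h7.trans ?_
    refine mul_le_mul_of_nonneg_left ?_ (by positivity)
    linarith [h8 M]
  · set K := Nat.sqrt M with hKdef
    have hK2 : 2 ≤ K := Nat.le_sqrt.2 (by omega)
    have hKK : K * K ≤ M := Nat.sqrt_le M
    have hKM : M < (K + 1) * (K + 1) := Nat.lt_succ_sqrt M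
    have hM4' : (M : ℝ) ≤ (K : ℝ) ^ 4 := by
      have h3 : (K + 1) * (K + 1) ≤ K ^ 4 := by
        have h4 : K + 1 ≤ K ^ 2 := by nlinarith
        calc (K + 1) * (K + 1) ≤ K ^ 2 * K ^ 2 := Nat.mul_le_mul h4 h4
          _ = K ^ 4 := by ring
      exact_mod_cast (hKM.le.trans h3)
    have hK0 : (0 : ℝ) < K := by
      have : 0 < K := by omega
      exact_mod_cast this
    have hlogK : 0 < Real.log K := Real.log_pos (by exact_mod_cast (by omega : 1 < K))
    have h2 : Real.log M ≤ 4 * Real.log K := by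
      have h3 := Real.log_le_log (by positivity) hM4'
      rw [Real.log_pow] at h3
      exact_mod_cast h3
    have h3 : Real.log M ^ A ≤ 4 ^ A * Real.log K ^ A := by
      rw [← mul_pow]
      exact pow_le_pow_left₀ hlog.le h2 A
    have h4 : (S.card : ℝ) / Real.log K ^ A ≤ 4 ^ A * (S.card / Real.log M ^ A) := by
      rw [mul_div_assoc', div_le_div_iff₀ (by positivity) (by positivity)]
      calc (S.card : ℝ) * Real.log M ^ A ≤ S.card * (4 ^ A * Real.log K ^ A) :=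
            mul_le_mul_of_nonneg_left h3 hN0
        _ = _ := by ring
    have h5 : ∑ m ∈ Icc 1 (K * K), (m.divisors.card : ℝ) / m * dv S θ m ≤
        ∑ m ∈ Icc 1 M, (m.divisors.card : ℝ) / m * dv S θ m := by
      refine sum_le_sum_of_subset_of_nonneg (Icc_subset_Icc_right hKK) fun m _ _ => ?_
      exact mul_nonneg (by positivity) (abs_nonneg _)
    refine (h1 K hK2 S θ hθ α β ha hab hb1).trans ?_
    have h6 : 0 ≤ (S.card : ℝ) / Real.log M ^ A := by positivity
    calc C * (S.card / Real.log K ^ A + ∑ m ∈ Icc 1 (K * K), (m.divisors.card : ℝ) / m *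
            dv S θ m)
        ≤ C * (4 ^ A * (S.card / Real.log M ^ A) + 4 ^ A * ∑ m ∈ Icc 1 M,
            (m.divisors.card : ℝ) / m * dv S θ m) := by
          refine mul_le_mul_of_nonneg_left (add_le_add h4 (h5.trans ?_)) hC.le
          exact le_mul_of_one_le_left (h8 M) h4A
      _ = 4 ^ A * C * (S.card / Real.log M ^ A + ∑ m ∈ Icc 1 M, (m.divisors.card : ℝ) / m *
            dv S θ m) := by ring
      _ ≤ _ := by
          refine mul_le_mul_of_nonneg_right ?_ (add_nonneg h6 (h8 M))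
          exact mul_le_mul_of_nonneg_left (by linarith) (by positivity)

end Pool.Agent.Run7.h724.Sign
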