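import Pool.Agent.Run7.h724.SignB

/-!
# The signs of the cosines by the distribution function
-/

set_option autoImplicit false

namespace Pool.Agent.Run7.h724.Sign

open Finset Filter Topology
open scoped Real

/-- the zeros of `cos (m θ)` -/
noncomputable def zr (m j : ℕ) : ℝ := (2 * j + 1) * π / (2 * m)

lemma zr_mem (m j : ℕ) (hj : j < m) : 0 ≤ zr m j ∧ zr m j ≤ π := by
  have hpi : 0 < π := Real.pi_pos
  have hm : (0 : ℝ) < m := by exact_mod_cast (by omega : 0 < m)
  unfold zr
  constructor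
  · positivity
  · rw [div_le_iff₀ (by positivity)]
    have : (j : ℝ) + 1 ≤ m := by exact_mod_cast hj
    nlinarith

lemma alt_sum (n : ℕ) : ∑ j ∈ range n, (-1 : ℝ) ^ (j + 1) = ((-1) ^ n - 1) / 2 := by
  induction n with
  | zero => simp
  | succ n ih =>
    rw [sum_range_succ, ih, pow_succ]
    ring

lemma alt_sum_if (m n : ℕ) (h : n ≤ m) :
    ∑ j ∈ range m, (-1 : ℝ) ^ (j + 1) * (if j < n then (1 : ℝ) else 0) = ((-1) ^ n - 1) / 2 := by
  simp only [mul_ite, mul_one, mul_zero]
  rw [← sum_filter]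
  have : (range m).filter (fun j => j < n) = range n := by
    ext j
    simp only [mem_filter, mem_range]
    omega
  rw [this, alt_sum]

/-- the sign of `cos (m θ)` -/
lemma sgn_eq (m : ℕ) (hm : 1 ≤ m) (θ : ℝ) (h0 : 0 ≤ θ) (h1 : θ ≤ π) :
    Real.sign (Real.cos (m * θ)) = 1 + ∑ j ∈ range m, (-1 : ℝ) ^ (j + 1) *
      ((if zr m j < θ then (1 : ℝ) else 0) + if zr m j ≤ θ then (1 : ℝ) else 0) := by
  have hpi : 0 < π := Real.pi_pos
  have hm0 : (0 : ℝ) < m := by exact_mod_cast hm
  set φ : ℝ := m * θ / π with hφ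
  have hφ0 : 0 ≤ φ := by positivity
  have hφm : φ ≤ m := by
    rw [hφ, div_le_iff₀ hpi]
    exact mul_le_mul_of_nonneg_left h1 hm0.le
  have hcos : Real.cos (m * θ) = Real.cos (φ * π) := by
    rw [hφ]
    congr 1
    field_simp
  have z1 : ∀ j : ℕ, (zr m j ≤ θ) = ((j : ℝ) + 1 / 2 ≤ φ) := by
    intro j
    unfold zr
    rw [hφ, eq_iff_iff, div_le_iff₀ (by positivity), le_div_iff₀ hpi]
    constructor <;> intro h <;> nlinarith
  have z2 : ∀ j : ℕ, (zr m j < θ) = ((j : ℝ) + 1 / 2 < φ) := by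
    intro j
    unfold zr
    rw [hφ, eq_iff_iff, div_lt_iff₀ (by positivity), lt_div_iff₀ hpi]
    constructor <;> intro h <;> nlinarith
  set n : ℕ := ⌊φ + 1 / 2⌋₊ with hn
  have hn1 : (n : ℝ) ≤ φ + 1 / 2 := Nat.floor_le (by linarith)
  have hn2 : φ + 1 / 2 < n + 1 := Nat.lt_floor_add_one _
  have hnm : n ≤ m := by
    have : (n : ℝ) < m + 1 := by linarith
    have : n < m + 1 := by exact_mod_cast this
    omega
  have z3 : ∀ j : ℕ, ((j : ℝ) + 1 / 2 ≤ φ) = (j < n) := by
    intro j
    rw [eq_iff_iff]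
    constructor
    · intro h
      rw [hn]
      have : j + 1 ≤ ⌊φ + 1 / 2⌋₊ := by
        rw [Nat.le_floor_iff (by linarith)]
        push_cast
        linarith
      omega
    · intro h
      have : (j : ℝ) + 1 ≤ n := by exact_mod_cast h
      linarith
  set r : ℝ := φ - n with hr
  have hcos2 : Real.cos (m * θ) = (-1) ^ n * Real.cos (r * π) := by
    rw [hcos, ← Real.cos_add_nat_mul_pi]
    congr 1
    rw [hr]
    ring
  simp only [mul_add, sum_add_distrib, z1, z3]
  rw [alt_sum_if m n hnm]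
  rcases (show -(1 / 2) ≤ r by rw [hr]; linarith).eq_or_lt with hr2 | hr2
  · -- a zero
    have hφn : φ = n - 1 / 2 := by rw [hr] at hr2; linarith
    have hn0 : 1 ≤ n := by
      by_contra hcon
      have : n = 0 := by omega
      rw [this] at hφn
      push_cast at hφn
      linarith
    have z4 : ∀ j : ℕ, ((j : ℝ) + 1 / 2 < φ) = (j < n - 1) := by
      intro j
      rw [eq_iff_iff, hφn]
      constructor
      · intro h
        have : (j : ℝ) + 1 < n := by linarith
        have : j + 1 < n := by exact_mod_cast this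
        omega
      · intro h
        have : j + 1 < n := by omega
        have : (j : ℝ) + 1 < n := by exact_mod_cast this
        linarith
    simp only [z2, z4]
    rw [alt_sum_if m (n - 1) (by omega), hcos2, ← hr2]
    have h2 : Real.cos (-(1 / 2) * π) = 0 := by
      have : -(1 / 2) * π = -(π / 2) := by ring
      rw [this, Real.cos_neg, Real.cos_pi_div_two]
    rw [h2, mul_zero, Real.sign_zero]
    obtain ⟨k, hk⟩ : ∃ k, n = k + 1 := ⟨n - 1, by omega⟩
    rw [hk, Nat.add_sub_cancel, pow_succ]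
    ring
  · have z4 : ∀ j : ℕ, ((j : ℝ) + 1 / 2 < φ) = (j < n) := by
      intro j
      rw [eq_iff_iff]
      constructor
      · intro h
        rw [← z3]
        exact h.le
      · intro h
        have : (j : ℝ) + 1 ≤ n := by exact_mod_cast h
        rw [hr] at hr2
        linarith
    simp only [z2, z4]
    rw [alt_sum_if m n hnm, hcos2]
    have hc : 0 < Real.cos (r * π) := by
      have hr3 : r < 1 / 2 := by rw [hr]; linarith
      apply Real.cos_pos_of_mem_Ioo
      constructor <;> nlinarith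
    rcases Nat.even_or_odd n with he | ho
    · rw [he.neg_one_pow, one_mul, Real.sign_of_pos hc]
      ring
    · rw [ho.neg_one_pow, neg_one_mul, Real.sign_of_neg (by linarith)]
      ring

lemma alt_odd (n : ℕ) : ∑ j ∈ range n, (-1 : ℝ) ^ (j + 1) * (2 * j + 1) = (-1) ^ n * n := by
  induction n with
  | zero => simp
  | succ n ih =>
    rw [sum_range_succ, ih, pow_succ]
    push_cast
    ring

lemma tele (x : ℝ) (n : ℕ) :
    2 * Real.cos x * ∑ j ∈ range n, (-1 : ℝ) ^ j * Real.sin ((2 * j + 1) * x) =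
      -((-1) ^ n * Real.sin (2 * n * x)) := by
  induction n with
  | zero => simp
  | succ n ih =>
    rw [sum_range_succ, mul_add, ih, pow_succ]
    push_cast
    have e1 : Real.sin (2 * (n + 1) * x) = Real.sin ((2 * n + 1) * x) * Real.cos x +
        Real.cos ((2 * n + 1) * x) * Real.sin x := by
      rw [← Real.sin_add]
      congr 1
      ring
    have e2 : Real.sin (2 * n * x) = Real.sin ((2 * n + 1) * x) * Real.cos x -
        Real.cos ((2 * n + 1) * x) * Real.sin x := by
      rw [← Real.sin_sub]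
      congr 1
      ring
    rw [e1, e2]
    ring

lemma sin_sum (m : ℕ) (hm : 1 ≤ m) :
    ∑ j ∈ range m, (-1 : ℝ) ^ j * Real.sin ((2 * j + 1) * (π / m)) = if m = 2 then 2 else 0 := by
  have hpi : 0 < π := Real.pi_pos
  have hm0 : (0 : ℝ) < m := by exact_mod_cast hm
  rcases (show m = 1 ∨ m = 2 ∨ 3 ≤ m by omega) with h | h | h
  · subst h
    simp
  · subst h
    rw [sum_range_succ, sum_range_succ, sum_range_zero, if_pos rfl]
    have e1 : (2 * ((0 : ℕ) : ℝ) + 1) * (π / ((2 : ℕ) : ℝ)) = π / 2 := by push_cast; ring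
    have e2 : (2 * ((1 : ℕ) : ℝ) + 1) * (π / ((2 : ℕ) : ℝ)) = π / 2 + π := by push_cast; ring
    rw [e1, e2, Real.sin_add_pi, Real.sin_pi_div_two]
    norm_num
  · rw [if_neg (by omega)]
    have h1 := tele (π / m) m
    have e : 2 * (m : ℝ) * (π / m) = 2 * π := by field_simp
    rw [e, Real.sin_two_pi, mul_zero, neg_zero] at h1
    have hc : 0 < Real.cos (π / m) := by
      apply Real.cos_pos_of_mem_Ioo
      have h3 : (3 : ℝ) ≤ m := by exact_mod_cast h
      have h4 : π / m < π / 2 := by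
        apply div_lt_div_of_pos_left hpi (by norm_num) (by linarith)
      constructor
      · have : 0 < π / m := by positivity
        linarith
      · exact h4
    rcases mul_eq_zero.1 h1 with h2 | h2
    · exfalso
      linarith
    · exact h2

/-- the mean of the sign of `cos (m θ)` by the distribution function -/
lemma sm_formula (m : ℕ) (hm : 1 ≤ m) :
    sm m = 1 + 2 * ∑ j ∈ range m, (-1 : ℝ) ^ (j + 1) * (1 - FF (zr m j)) := by
  have hpi : 0 < π := Real.pi_pos
  have hm0 : (0 : ℝ) < m := by exact_mod_cast hm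
  have h1 : ∀ j : ℕ, (-1 : ℝ) ^ (j + 1) * (1 - FF (zr m j)) = (-1) ^ (j + 1) -
      1 / (2 * m) * ((-1) ^ (j + 1) * (2 * j + 1)) -
      1 / (2 * π) * ((-1) ^ j * Real.sin ((2 * j + 1) * (π / m))) := by
    intro j
    unfold FF
    have e1 : Real.sin (zr m j) * Real.cos (zr m j) = Real.sin ((2 * j + 1) * (π / m)) / 2 := by
      have : (2 * (j : ℝ) + 1) * (π / m) = 2 * zr m j := by
        unfold zr
        field_simp
      rw [this, Real.sin_two_mul]
      ring
    rw [e1]
    unfold zr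
    rw [pow_succ]
    field_simp
    ring
  simp only [h1, sum_sub_distrib, ← mul_sum]
  rw [alt_sum, alt_odd, sin_sum m hm]
  unfold sm
  split_ifs with h
  · subst h
    push_cast
    field_simp
    ring
  · field_simp
    ring

section Fam

variable {ι : Type} (S : Finset ι) (θ : ι → ℝ)

/-- the exact formula for the deviation of the sum of the signs -/
theorem conv_eq (hθ : ∀ i ∈ S, 0 ≤ θ i ∧ θ i ≤ π) (m : ℕ) (hm : 1 ≤ m) :
    ∑ i ∈ S, Real.sign (Real.cos (m * θ i)) - S.card * sm m =
      ∑ j ∈ range m, (-1 : ℝ) ^ (j + 1) *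
        (((ct S θ (zr m j) π : ℝ) - S.card * (FF π - FF (zr m j))) -
         ((ct S θ 0 (zr m j) : ℝ) - S.card * (FF (zr m j) - FF 0))) := by
  have h1 : ∑ i ∈ S, Real.sign (Real.cos (m * θ i)) = S.card + ∑ j ∈ range m,
      (-1 : ℝ) ^ (j + 1) * ((S.card - (ct S θ 0 (zr m j) : ℝ)) + ct S θ (zr m j) π) := by
    rw [sum_congr rfl fun i hi => sgn_eq m hm (θ i) (hθ i hi).1 (hθ i hi).2, sum_add_distrib,
      sum_const, nsmul_eq_mul, mul_one, sum_comm]
    congr 1
    refine sum_congr rfl fun j _ => ?_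
    rw [← mul_sum, sum_add_distrib]
    congr 2
    · have h2 : ∀ i ∈ S, (if zr m j < θ i then (1 : ℝ) else 0) =
          1 - if 0 ≤ θ i ∧ θ i ≤ zr m j then (1 : ℝ) else 0 := by
        intro i hi
        by_cases h : zr m j < θ i
        · rw [if_pos h, if_neg (fun h' => absurd h'.2 (not_le.2 h)), sub_zero]
        · rw [if_neg h, if_pos ⟨(hθ i hi).1, not_lt.1 h⟩, sub_self]
      rw [sum_congr rfl h2, sum_sub_distrib, sum_const, nsmul_eq_mul, mul_one]
      unfold ct
      rw [card_filter]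
      push_cast
      rfl
    · unfold ct
      rw [card_filter]
      push_cast
      refine sum_congr rfl fun i hi => ?_
      have := (hθ i hi).2
      simp only [this, and_true]
  rw [h1, sm_formula m hm, FF_pi, FF_zero]
  have h2 : (S.card : ℝ) * (1 + 2 * ∑ j ∈ range m, (-1 : ℝ) ^ (j + 1) * (1 - FF (zr m j))) =
      S.card + ∑ j ∈ range m, (-1 : ℝ) ^ (j + 1) * (2 * S.card * (1 - FF (zr m j))) := by
    rw [mul_add, mul_one, mul_sum, mul_sum]
    congr 1
    refine sum_congr rfl fun j _ => ?_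
    ring
  rw [h2, add_sub_add_left_eq_sub, ← sum_sub_distrib]
  refine sum_congr rfl fun j _ => ?_
  ring

/-- **The deviation of the signs by the discrepancy.** -/
theorem conv_bound (hθ : ∀ i ∈ S, 0 ≤ θ i ∧ θ i ≤ π) (D : ℝ)
    (hD : ∀ α β : ℝ, 0 ≤ α → α ≤ β → β ≤ π →
      |(ct S θ α β : ℝ) - S.card * (FF β - FF α)| ≤ D) (m : ℕ) (hm : 1 ≤ m) :
    |∑ i ∈ S, Real.sign (Real.cos (m * θ i)) - S.card * sm m| ≤ 2 * m * D := by
  rw [conv_eq S θ hθ m hm]
  refine (abs_sum_le_sum_abs _ _).trans ?_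
  have h1 : ∀ j ∈ range m, |(-1 : ℝ) ^ (j + 1) *
        (((ct S θ (zr m j) π : ℝ) - S.card * (FF π - FF (zr m j))) -
         ((ct S θ 0 (zr m j) : ℝ) - S.card * (FF (zr m j) - FF 0)))| ≤ 2 * D := by
    intro j hj
    have hz := zr_mem m j (mem_range.1 hj)
    rw [abs_mul, abs_pow, abs_neg, abs_one, one_pow, one_mul]
    refine (abs_sub _ _).trans ?_
    have a1 := hD (zr m j) π hz.1 hz.2 le_rfl
    have a2 := hD 0 (zr m j) le_rfl hz.1 hz.2
    linarith
  refine (sum_le_sum h1).trans (le_of_eq ?_)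
  rw [sum_const, card_range, nsmul_eq_mul]
  ring

end Fam

end Pool.Agent.Run7.h724.Sign
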