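import Pool.Agent.Run7.h724.SignC

/-!
# The Sato-Tate law and the means of the signs
-/

set_option autoImplicit false

namespace Pool.Agent.Run7.h724.Sign

open Finset Filter Topology
open scoped Real

/-- **The criterion.** -/
theorem crit {ι : Type} (S : ℕ → Finset ι) (θ : ι → ℝ)
    (hθ : ∀ N, ∀ i ∈ S N, 0 ≤ θ i ∧ θ i ≤ π) (w : ℕ → ℝ)
    (hw : Tendsto (fun N : ℕ => ((S N).card : ℝ) / w N) atTop (𝓝 1))
    (hw0 : ∀ᶠ N in atTop, 0 < w N) :
    (∀ α β : ℝ, 0 ≤ α → α ≤ β → β ≤ π →
      Tendsto (fun N : ℕ => (ct (S N) θ α β : ℝ) / w N) atTop (𝓝 (FF β - FF α))) ↔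
    ∀ m : ℕ, 1 ≤ m →
      Tendsto (fun N : ℕ => (∑ i ∈ S N, Real.sign (Real.cos (m * θ i))) / w N) atTop
        (𝓝 (sm m)) := by
  constructor
  · intro h m hm
    have h1 : ∀ α β : ℝ, 0 ≤ α → α ≤ β → β ≤ π →
        Tendsto (fun N : ℕ => (ct (S N) θ α β : ℝ) / w N - ((S N).card : ℝ) / w N * (FF β - FF α))
          atTop (𝓝 0) := by
      intro α β h0 h1 h2
      have h3 := (h α β h0 h1 h2).sub (hw.mul_const (FF β - FF α))
      rw [one_mul, sub_self] at h3
      exact h3
    have h2 : Tendsto (fun N : ℕ => ((S N).card : ℝ) / w N * sm m + ∑ j ∈ range m,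
        (-1 : ℝ) ^ (j + 1) *
        (((ct (S N) θ (zr m j) π : ℝ) / w N - ((S N).card : ℝ) / w N * (FF π - FF (zr m j))) -
         ((ct (S N) θ 0 (zr m j) : ℝ) / w N - ((S N).card : ℝ) / w N * (FF (zr m j) - FF 0))))
        atTop (𝓝 (1 * sm m + ∑ j ∈ range m, (-1 : ℝ) ^ (j + 1) * (0 - 0))) := by
      refine (hw.mul_const _).add (tendsto_finsetSum _ fun j hj => Tendsto.const_mul _ ?_)
      have hz := zr_mem m j (mem_range.1 hj)
      exact (h1 _ _ hz.1 hz.2 le_rfl).sub (h1 _ _ le_rfl hz.1 hz.2)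
    simp only [sub_self, mul_zero, sum_const_zero, add_zero, one_mul] at h2
    refine h2.congr fun N => ?_
    have h3 := conv_eq (S N) θ (hθ N) m hm
    rw [sub_eq_iff_eq_add'] at h3
    rw [h3, add_div, sum_div]
    congr 1
    · ring
    · refine sum_congr rfl fun j _ => ?_
      ring
  · intro h α β h0 h1 h2
    obtain ⟨C, hC, hdisc⟩ := disc 1
    have hdv : ∀ m : ℕ, 1 ≤ m →
        Tendsto (fun N : ℕ => dv (S N) θ m / w N) atTop (𝓝 0) := by
      intro m hm
      have h3 := ((h m hm).sub (hw.mul_const (sm m))).abs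
      rw [one_mul, sub_self, abs_zero] at h3
      refine h3.congr' ?_
      filter_upwards [hw0] with N hN
      unfold dv
      rw [div_mul_eq_mul_div, ← sub_div, abs_div, abs_of_pos hN]
    have key : Tendsto (fun N : ℕ => |(ct (S N) θ α β : ℝ) - (S N).card * (FF β - FF α)| / w N)
        atTop (𝓝 0) := by
      rw [Metric.tendsto_atTop]
      intro ε hε
      obtain ⟨M, hM2, hM⟩ : ∃ M : ℕ, 2 ≤ M ∧ 2 * C / Real.log M < ε / 2 := by
        have h1 : Tendsto (fun M : ℕ => 2 * C / Real.log M) atTop (𝓝 0) :=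
          (Real.tendsto_log_atTop.comp tendsto_natCast_atTop_atTop).const_div_atTop _
        obtain ⟨M, hM⟩ := ((h1.eventually (gt_mem_nhds (half_pos hε))).and
          (eventually_ge_atTop 2)).exists
        exact ⟨M, hM.2, hM.1⟩
      have h3 : Tendsto (fun N : ℕ => C * ∑ m ∈ Icc 1 M, (m.divisors.card : ℝ) / m *
          (dv (S N) θ m / w N)) atTop
          (𝓝 (C * ∑ m ∈ Icc 1 M, (m.divisors.card : ℝ) / m * 0)) := by
        apply Tendsto.const_mul
        apply tendsto_finsetSum
        intro m hm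
        rw [mem_Icc] at hm
        exact (hdv m hm.1).const_mul _
      simp only [mul_zero, sum_const_zero] at h3
      have h4 : ∀ᶠ N in atTop, ((S N).card : ℝ) / w N < 2 :=
        hw.eventually (gt_mem_nhds (by norm_num))
      obtain ⟨N₀, hN₀⟩ := eventually_atTop.1 ((h3.eventually (gt_mem_nhds (half_pos hε))).and
        (h4.and hw0))
      refine ⟨N₀, fun N hN => ?_⟩
      obtain ⟨h5, h6, h7⟩ := hN₀ N hN
      rw [Real.dist_eq, sub_zero, abs_of_nonneg (by positivity)]
      have h8 := hdisc M hM2 (S N) θ (hθ N) α β h0 h1 h2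
      rw [pow_one] at h8
      have hlog : 0 < Real.log M := Real.log_pos (by exact_mod_cast (by omega : 1 < M))
      have h9 : |(ct (S N) θ α β : ℝ) - (S N).card * (FF β - FF α)| / w N ≤
          C / Real.log M * (((S N).card : ℝ) / w N) +
          C * ∑ m ∈ Icc 1 M, (m.divisors.card : ℝ) / m * (dv (S N) θ m / w N) := by
        rw [div_le_iff₀ h7]
        refine h8.trans (le_of_eq ?_)
        rw [add_mul, mul_assoc C _ (w N), sum_mul, mul_add]
        congr 1
        · field_simp
        · congr 1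
          refine sum_congr rfl fun m _ => ?_
          field_simp
      have h10 : C / Real.log M * (((S N).card : ℝ) / w N) ≤ 2 * C / Real.log M := by
        calc C / Real.log M * (((S N).card : ℝ) / w N) ≤ C / Real.log M * 2 :=
              mul_le_mul_of_nonneg_left h6.le (by positivity)
          _ = _ := by ring
      linarith
    have h3 : Tendsto (fun N : ℕ => ((ct (S N) θ α β : ℝ) - (S N).card * (FF β - FF α)) / w N)
        atTop (𝓝 0) := by
      refine squeeze_zero_norm' ?_ key
      filter_upwards [hw0] with N hN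
      rw [Real.norm_eq_abs, abs_div, abs_of_pos hN]
    have h4 := h3.add (hw.mul_const (FF β - FF α))
    rw [zero_add, one_mul] at h4
    refine h4.congr fun N => ?_
    ring

end Pool.Agent.Run7.h724.Sign
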