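import Pool.Agent.H498R2.SM_T8

/-!
# Kloosterman sums over the extensions of a prime field

The recursion for the Kloosterman sums over the extensions of a finite field, by the logarithmic
derivative identity of `Pool.Agent.H498R2.Kl`, and the angle.
-/

set_option autoImplicit false
set_option linter.unusedSectionVars false

namespace Pool.Agent.Run7.h724.Lift

open Polynomial Finset
open Pool.Agent.H498R2.Kl
open Pool.Agent.H341R2.Sharp (Mon mem_Mon Mon_zero)

section Field

variable {F : Type*} [Field F] [Fintype F] [DecidableEq F]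

lemma quad_coeff (c d : F) : (C (1 : F) * X ^ 2 + C c * X + C d).coeff 0 = d ∧
    (C (1 : F) * X ^ 2 + C c * X + C d).coeff 1 = c := by
  constructor
  · simp
  · simp [coeff_X, coeff_C, coeff_X_pow]

lemma AG_two {ψ : AddChar F ℂ} (hψ : ψ.IsPrimitive) {a b : F} (ha : a ≠ 0) (hb : b ≠ 0) :
    AG (lamK ψ a b) 2 = Fintype.card F := by
  have h1 : AG (lamK ψ a b) 2 = ∑ x : F × F,
      (if x.2 = 0 then (0 : ℂ) else ψ (-(a * x.1 + b * (x.1 / x.2)))) := by
    unfold AG
    refine sum_bij' (fun h _ => (h.coeff 1, h.coeff 0))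
      (fun x _ => C (1 : F) * X ^ 2 + C x.1 * X + C x.2) ?_ ?_ ?_ ?_ ?_
    · intro h _
      exact mem_univ _
    · intro x _
      rw [mem_Mon]
      exact ⟨leadingCoeff_quadratic one_ne_zero, natDegree_quadratic one_ne_zero⟩
    · intro h hh
      rw [mem_Mon] at hh
      have h2 : h.coeff 2 = 1 := by
        have := hh.1
        rw [Monic, leadingCoeff, hh.2] at this
        exact this
      ext n
      rcases (show n = 0 ∨ n = 1 ∨ n = 2 ∨ 3 ≤ n by omega) with h3 | h3 | h3 | h3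
      · subst h3
        exact (quad_coeff _ _).1
      · subst h3
        exact (quad_coeff _ _).2
      · subst h3
        rw [h2]
        simp [coeff_X, coeff_C]
      · have e1 : h.coeff n = 0 := coeff_eq_zero_of_natDegree_lt (by rw [hh.2]; omega)
        have e2 : (C (1 : F) * X ^ 2 + C (h.coeff 1) * X + C (h.coeff 0)).coeff n = 0 :=
          coeff_eq_zero_of_natDegree_lt (by rw [natDegree_quadratic one_ne_zero]; omega)
        rw [e1, e2]
    · intro x _
      exact Prod.ext (quad_coeff _ _).2 (quad_coeff _ _).1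
    · intro h hh
      rw [mem_Mon] at hh
      unfold lamK
      have h2 : h.nextCoeff = h.coeff 1 := by
        rw [nextCoeff_of_natDegree_pos (by omega), hh.2]
      rw [h2]
  rw [h1, Fintype.sum_prod_type_right]
  simp only
  have h2 : ∀ d : F, ∑ c : F, (if d = 0 then (0 : ℂ) else ψ (-(a * c + b * (c / d)))) =
      if d = -(b / a) then (Fintype.card F : ℂ) else 0 := by
    intro d
    by_cases hd : d = 0
    · subst hd
      simp only [if_true, sum_const_zero]
      rw [if_neg]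
      intro h
      have : b / a = 0 := by
        rw [← neg_eq_zero]
        exact h.symm
      rcases div_eq_zero_iff.1 this with h3 | h3
      · exact hb h3
      · exact ha h3
    · simp only [if_neg hd]
      have h3 : ∀ c : F, ψ (-(a * c + b * (c / d))) = ψ (c * (-(a + b / d))) := by
        intro c
        congr 1
        ring
      simp only [h3]
      rw [AddChar.sum_mulShift _ hψ]
      have h4 : -(a + b / d) = 0 ↔ d = -(b / a) := by
        rw [neg_eq_zero]
        constructor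
        · intro h
          field_simp at h ⊢
          linear_combination h
        · intro h
          rw [h]
          field_simp
          ring
      by_cases h5 : d = -(b / a)
      · rw [if_pos h5, if_pos (h4.2 h5)]
      · rw [if_neg h5, if_neg (fun h => h5 (h4.1 h))]
        simp
  simp only [h2]
  rw [sum_ite_eq' univ (-(b / a)) (fun _ => (Fintype.card F : ℂ)), if_pos (mem_univ _)]

variable {ψ : AddChar F ℂ} {a b : F}

lemma TG_one_eq (ψ : AddChar F ℂ) (a b : F) : AG (lamK ψ a b) 1 = TG (lamK ψ a b) 1 := by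
  have h := n_mul_AG (lamK_mult ψ a b) 1
  rw [Icc_self, sum_singleton, Nat.sub_self, AG_zero (lamK_mult ψ a b), one_mul, Nat.cast_one,
    one_mul] at h
  exact h

lemma TG_two_eq (hψ : ψ.IsPrimitive) (ha : a ≠ 0) (hb : b ≠ 0) :
    TG (lamK ψ a b) 2 = 2 * Fintype.card F - TG (lamK ψ a b) 1 ^ 2 := by
  have h := n_mul_AG (lamK_mult ψ a b) 2
  have e : Icc 1 2 = {1, 2} := by decide
  rw [e, sum_pair (by norm_num), AG_two hψ ha hb] at h
  have e2 : 2 - 1 = 1 := rfl
  have e3 : 2 - 2 = 0 := rfl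
  rw [e2, e3, AG_zero (lamK_mult ψ a b), TG_one_eq] at h
  push_cast at h
  linear_combination -h

lemma prim_ne_one (hψ : ψ.IsPrimitive) : ψ ≠ 1 := by
  rintro rfl
  exact hψ one_ne_zero (by simp)

lemma TG_rec (hψ : ψ.IsPrimitive) (ha : a ≠ 0) (hb : b ≠ 0) (n : ℕ) (hn : 1 ≤ n) :
    TG (lamK ψ a b) (n + 2) =
      -(TG (lamK ψ a b) 1 * TG (lamK ψ a b) (n + 1)) - Fintype.card F * TG (lamK ψ a b) n := by
  have h := n_mul_AG (lamK_mult ψ a b) (n + 2)
  rw [AK_eq_zero (prim_ne_one hψ) ha b (n + 2) (by omega), mul_zero] at h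
  have h1 : ∑ m ∈ Icc 1 (n + 2), AG (lamK ψ a b) (n + 2 - m) * TG (lamK ψ a b) m =
      ∑ m ∈ ({n, n + 1, n + 2} : Finset ℕ), AG (lamK ψ a b) (n + 2 - m) * TG (lamK ψ a b) m := by
    symm
    apply sum_subset
    · intro m hm
      simp only [mem_insert, mem_singleton] at hm
      rw [mem_Icc]
      omega
    · intro m hm hm'
      rw [mem_Icc] at hm
      simp only [mem_insert, mem_singleton] at hm'
      rw [AK_eq_zero (prim_ne_one hψ) ha b (n + 2 - m) (by omega), zero_mul]
  rw [h1, sum_insert (by simp), sum_pair (by simp)] at h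
  have e1 : n + 2 - n = 2 := by omega
  have e2 : n + 2 - (n + 1) = 1 := by omega
  have e3 : n + 2 - (n + 2) = 0 := by omega
  rw [e1, e2, e3, AG_zero (lamK_mult ψ a b), AG_two hψ ha hb, TG_one_eq] at h
  linear_combination -h

/-- the sums over the extensions by the angle -/
theorem TG_cos (hψ : ψ.IsPrimitive) (ha : a ≠ 0) (hb : b ≠ 0) (s θ : ℝ)
    (hs : s ^ 2 = Fintype.card F) (h1 : TG (lamK ψ a b) 1 = ((2 * s * Real.cos θ : ℝ) : ℂ))
    (m : ℕ) (hm : 1 ≤ m) :
    TG (lamK ψ a b) m = (((-1) ^ (m + 1) * (2 * s ^ m * Real.cos (m * θ)) : ℝ) : ℂ) := by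
  have hq : (Fintype.card F : ℂ) = ((s ^ 2 : ℝ) : ℂ) := by
    rw [hs]
    push_cast
    rfl
  have key : ∀ n : ℕ, TG (lamK ψ a b) (n + 1) =
      (((-1) ^ (n + 2) * (2 * s ^ (n + 1) * Real.cos ((n + 1 : ℕ) * θ)) : ℝ) : ℂ) ∧
      TG (lamK ψ a b) (n + 2) =
      (((-1) ^ (n + 3) * (2 * s ^ (n + 2) * Real.cos ((n + 2 : ℕ) * θ)) : ℝ) : ℂ) := by
    intro n
    induction n with
    | zero =>
      constructor
      · rw [zero_add, h1]
        norm_num
      · rw [zero_add, TG_two_eq hψ ha hb, h1, hq]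
        have : Real.cos ((0 + 2 : ℕ) * θ) = 2 * Real.cos θ ^ 2 - 1 := by
          rw [← Real.cos_two_mul]
          norm_num
        rw [this]
        push_cast
        ring
    | succ n ih =>
      refine ⟨ih.2, ?_⟩
      rw [TG_rec hψ ha hb (n + 1) (by omega), ih.1, ih.2, h1, hq]
      have e1 : Real.cos ((n + 1 + 2 : ℕ) * θ) =
          2 * Real.cos θ * Real.cos ((n + 2 : ℕ) * θ) - Real.cos ((n + 1 : ℕ) * θ) := by
        have a1 : ((n + 1 + 2 : ℕ) : ℝ) * θ = (n + 2 : ℕ) * θ + θ := by push_cast; ring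
        have a2 : ((n + 1 : ℕ) : ℝ) * θ = (n + 2 : ℕ) * θ - θ := by push_cast; ring
        rw [a1, a2, Real.cos_add, Real.cos_sub]
        ring
      rw [e1]
      push_cast
      ring
  obtain ⟨n, rfl⟩ : ∃ n, m = n + 1 := ⟨m - 1, by omega⟩
  exact (key n).1

end Field

/-- The Kloosterman sum `S(a, 1; p)`. -/
noncomputable def kloosterman (p : ℕ) (a : ℤ) : ℝ :=
  ∑ x ∈ Finset.Ico 1 p, Real.cos (2 * Real.pi *
    ((((a : ZMod p) * (x : ZMod p) + (x : ZMod p)⁻¹).val : ℕ) : ℝ) / (p : ℝ))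

/-- The Kloosterman sum over the field with `p ^ m` elements. -/
noncomputable def liftedSum (p m : ℕ) (a : ℤ) : ℝ :=
  if h : p.Prime then
    haveI : Fact p.Prime := ⟨h⟩
    ∑ᶠ x : (GaloisField p m)ˣ, Real.cos (2 * Real.pi *
      ((Algebra.trace (ZMod p) (GaloisField p m)
        ((a : GaloisField p m) * (x : GaloisField p m) + (x : GaloisField p m)⁻¹)).val : ℝ) / (p : ℝ))
  else 0

lemma re_std {p : ℕ} [Fact p.Prime] (z : ZMod p) :
    (ZMod.stdAddChar z : ℂ).re = Real.cos (2 * Real.pi * ((z.val : ℕ) : ℝ) / (p : ℝ)) := by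
  rw [ZMod.stdAddChar_apply, ZMod.toCircle_apply]
  have h2 : (2 * (Real.pi : ℂ) * Complex.I * (z.val : ℂ) / (p : ℂ)) =
      ((2 * Real.pi * ((z.val : ℕ) : ℝ) / (p : ℝ) : ℝ) : ℂ) * Complex.I := by
    push_cast
    ring
  rw [h2, Complex.exp_ofReal_mul_I_re]

lemma sum_units {E : Type*} [Field E] [Fintype E] [DecidableEq E] (f : E → ℂ) :
    ∑ x : E, (if x = 0 then (0 : ℂ) else f x) = ∑ x : Eˣ, f (x : E) := by
  have h2 : ∀ x : E, (if x = 0 then (0 : ℂ) else f x) = if x ≠ 0 then f x else 0 := by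
    intro x
    by_cases h0 : x = 0 <;> simp [h0]
  simp_rw [h2]
  rw [← sum_filter]
  symm
  refine sum_bij (fun (x : Eˣ) _ => (x : E)) ?_ ?_ ?_ ?_
  · intro x _
    rw [mem_filter]
    exact ⟨mem_univ _, x.ne_zero⟩
  · intro x _ y _ hxy
    exact Units.ext hxy
  · intro x hx
    rw [mem_filter] at hx
    exact ⟨Units.mk0 x hx.2, mem_univ _, rfl⟩
  · intro x _
    rfl

section Prime

variable {p : ℕ} [hp : Fact p.Prime]

/-- the sums as the real parts -/
lemma lifted_eq (m : ℕ) (hm : 1 ≤ m) (a : ℤ) :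
    liftedSum p m a = (TG (lamK (ZMod.stdAddChar : AddChar (ZMod p) ℂ) (a : ZMod p) 1) m).re := by
  classical
  let _ : Fintype (GaloisField p m) := Fintype.ofFinite _
  have hfr : Module.finrank (ZMod p) (GaloisField p m) = m := GaloisField.finrank p (by omega)
  have h1 := TK_eq_sum (E := GaloisField p m) (ZMod.stdAddChar : AddChar (ZMod p) ℂ)
    (a : ZMod p) 1
  rw [hfr] at h1
  rw [h1, sum_units, Complex.re_sum]
  unfold liftedSum
  rw [dif_pos hp.out, finsum_eq_sum_of_fintype]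
  refine sum_congr rfl fun x _ => ?_
  rw [re_std, map_intCast, map_one, one_mul]

lemma kl_eq (a : ℤ) : kloosterman p a =
    (TG (lamK (ZMod.stdAddChar : AddChar (ZMod p) ℂ) (a : ZMod p) 1) 1).re := by
  classical
  have h1 := TK_eq_sum (E := ZMod p) (ZMod.stdAddChar : AddChar (ZMod p) ℂ) (a : ZMod p) 1
  rw [Module.finrank_self] at h1
  rw [h1, Complex.re_sum]
  have h2 : ∀ z : ZMod p, (if z = 0 then (0 : ℂ) else
      (ZMod.stdAddChar (Algebra.trace (ZMod p) (ZMod p) (algebraMap (ZMod p) (ZMod p) (a : ZMod p) * z +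
        algebraMap (ZMod p) (ZMod p) 1 * z⁻¹)) : ℂ)).re =
      if z = 0 then 0 else Real.cos (2 * Real.pi *
        ((((a : ZMod p) * z + z⁻¹).val : ℕ) : ℝ) / (p : ℝ)) := by
    intro z
    split_ifs with h0
    · simp
    · rw [re_std]
      simp
  simp only [h2]
  have h3 : ∀ z : ZMod p, (if z = 0 then (0 : ℝ) else Real.cos (2 * Real.pi *
        ((((a : ZMod p) * z + z⁻¹).val : ℕ) : ℝ) / (p : ℝ))) = if z ≠ 0 then Real.cos (2 * Real.pi *
        ((((a : ZMod p) * z + z⁻¹).val : ℕ) : ℝ) / (p : ℝ)) else 0 := by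
    intro z
    by_cases h0 : z = 0 <;> simp [h0]
  simp only [h3]
  rw [← sum_filter]
  unfold kloosterman
  refine Finset.sum_nbij' (fun x => (x : ZMod p)) ZMod.val ?_ ?_ ?_ ?_ ?_
  · intro x hx
    rw [Finset.mem_Ico] at hx
    rw [Finset.mem_filter]
    refine ⟨Finset.mem_univ _, ?_⟩
    intro h0
    rw [ZMod.natCast_eq_zero_iff] at h0
    exact absurd (Nat.le_of_dvd hx.1 h0) (not_le.2 hx.2)
  · intro z hz
    rw [Finset.mem_filter] at hz
    rw [Finset.mem_Ico]
    exact ⟨Nat.pos_of_ne_zero fun h0 => hz.2 ((ZMod.val_eq_zero z).1 h0), ZMod.val_lt z⟩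
  · intro x hx
    rw [Finset.mem_Ico] at hx
    exact ZMod.val_cast_of_lt hx.2
  · intro z _
    exact ZMod.natCast_zmod_val z
  · intro x _
    rfl

lemma TG_real (a : ℤ) :
    TG (lamK (ZMod.stdAddChar : AddChar (ZMod p) ℂ) (a : ZMod p) 1) 1 =
      ((kloosterman p a : ℝ) : ℂ) := by
  classical
  rw [kl_eq]
  have h1 := TK_eq_sum (E := ZMod p) (ZMod.stdAddChar : AddChar (ZMod p) ℂ) (a : ZMod p) 1
  rw [Module.finrank_self] at h1
  have h2 : (starRingEnd ℂ) (TG (lamK (ZMod.stdAddChar : AddChar (ZMod p) ℂ) (a : ZMod p) 1) 1) =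
      TG (lamK (ZMod.stdAddChar : AddChar (ZMod p) ℂ) (a : ZMod p) 1) 1 := by
    rw [h1, map_sum, ← Equiv.sum_comp (Equiv.neg (ZMod p))]
    refine sum_congr rfl fun x _ => ?_
    simp only [Equiv.neg_apply, neg_eq_zero]
    split_ifs with h0
    · simp
    · rw [← AddChar.map_neg_eq_conj]
      congr 1
      rw [← map_neg]
      congr 1
      rw [inv_neg]
      ring
  exact (Complex.conj_eq_iff_re.1 h2).symm

lemma cast_ne {a : ℤ} (h : Nat.Coprime p a.natAbs) : (a : ZMod p) ≠ 0 := by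
  intro h0
  rw [ZMod.intCast_zmod_eq_zero_iff_dvd] at h0
  have h1 : p ∣ a.natAbs := Int.natCast_dvd.1 h0
  have h2 := Nat.dvd_gcd (dvd_refl p) h1
  rw [h] at h2
  exact hp.out.one_lt.ne' (Nat.dvd_one.1 h2)

lemma weil {a : ℤ} (h : Nat.Coprime p a.natAbs) : |kloosterman p a| ≤ 2 * Real.sqrt p := by
  classical
  have h1 := Pool.Agent.H498R2.kloosterman_prime p (a : ZMod p) 1 (cast_ne h) one_ne_zero
  have h2 := TK_eq_sum (E := ZMod p) (ZMod.stdAddChar : AddChar (ZMod p) ℂ) (a : ZMod p) 1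
  rw [Module.finrank_self, sum_units] at h2
  have h3 : TG (lamK (ZMod.stdAddChar : AddChar (ZMod p) ℂ) (a : ZMod p) 1) 1 =
      ∑ x : (ZMod p)ˣ, (ZMod.stdAddChar
      ((a : ZMod p) * (x : ZMod p) + 1 * ((x⁻¹ : (ZMod p)ˣ) : ZMod p)) : ℂ) := by
    rw [h2]
    refine sum_congr rfl fun x _ => ?_
    rw [Algebra.trace_self_apply, Algebra.algebraMap_self, RingHom.id_apply, RingHom.id_apply,
      Units.val_inv_eq_inv_val]
  rw [← h3] at h1
  rw [kl_eq]
  exact (Complex.abs_re_le_norm _).trans h1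

/-- The angle. -/
noncomputable def angle (p : ℕ) (a : ℤ) : ℝ :=
  Real.arccos (kloosterman p a / (2 * Real.sqrt (p : ℝ)))

lemma kl_cos {a : ℤ} (h : Nat.Coprime p a.natAbs) :
    kloosterman p a = 2 * Real.sqrt p * Real.cos (angle p a) := by
  have hp0 : (0 : ℝ) < p := by exact_mod_cast hp.out.pos
  have hs : 0 < 2 * Real.sqrt p := by
    have := Real.sqrt_pos.2 hp0
    positivity
  have h1 := weil h
  rw [abs_le] at h1
  unfold angle
  rw [Real.cos_arccos]
  · field_simp
  · rw [le_div_iff₀ hs]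
    linarith [h1.1]
  · rw [div_le_iff₀ hs]
    linarith [h1.2]

/-- **The Kloosterman sums over the extensions.** -/
theorem lifted_cos {a : ℤ} (h : Nat.Coprime p a.natAbs) (m : ℕ) (hm : 1 ≤ m) :
    liftedSum p m a = (-1) ^ (m + 1) * (2 * Real.sqrt p ^ m * Real.cos (m * angle p a)) := by
  have h1 := TG_cos (ψ := (ZMod.stdAddChar : AddChar (ZMod p) ℂ))
    (ZMod.isPrimitive_stdAddChar p) (cast_ne h) one_ne_zero (Real.sqrt p) (angle p a)
    (by rw [Real.sq_sqrt (Nat.cast_nonneg _), ZMod.card]) (by rw [TG_real, kl_cos h]) m hm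
  rw [lifted_eq m hm, h1, Complex.ofReal_re]

theorem lifted_sign {a : ℤ} (h : Nat.Coprime p a.natAbs) (m : ℕ) (hm : 1 ≤ m) :
    Real.sign (liftedSum p m a) = (-1) ^ (m + 1) * Real.sign (Real.cos (m * angle p a)) := by
  have hp0 : (0 : ℝ) < p := by exact_mod_cast hp.out.pos
  have hs : 0 < Real.sqrt p := Real.sqrt_pos.2 hp0
  rw [lifted_cos h m hm]
  have key : ∀ c : ℝ, Real.sign (2 * Real.sqrt p ^ m * c) = Real.sign c := by
    intro c
    rcases lt_trichotomy c 0 with hc | hc | hc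
    · rw [Real.sign_of_neg hc, Real.sign_of_neg (mul_neg_of_pos_of_neg (by positivity) hc)]
    · rw [hc, mul_zero]
    · rw [Real.sign_of_pos hc, Real.sign_of_pos (mul_pos (by positivity) hc)]
  rcases Nat.even_or_odd (m + 1) with he | ho
  · rw [he.neg_one_pow, one_mul, one_mul, key]
  · rw [ho.neg_one_pow, neg_one_mul, neg_one_mul, Real.sign_neg, key]

end Prime

end Pool.Agent.Run7.h724.Lift
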