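import Pool.Agent.Run7.h724.Thirds

/-!
# Equidistribution and the thirds of the multiples
-/

set_option autoImplicit false

namespace Pool.Agent.Run7.h724.Thirds

open Finset Filter Topology
open Pool.Agent.Run7.h776.MS (cnt dev cnt_eq dev_nonneg ud_of_cnt dig dig_lt)
open Pool.Agent.H534R3.UDist (UD Weyl ud_of_weyl)

/-- the number of the `1 ≤ n ≤ N` with `a ≤ {u n} < b` -/
noncomputable def visits (u : ℕ → ℝ) (a b : ℝ) (N : ℕ) : ℕ :=
  ((Finset.Icc 1 N).filter fun n : ℕ => a ≤ Int.fract (u n) ∧ Int.fract (u n) < b).card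

/-- equidistribution modulo one -/
def Equidistributed (u : ℕ → ℝ) : Prop := ∀ a b : ℝ, 0 ≤ a → a < b → b ≤ 1 →
  Tendsto (fun N : ℕ => (visits u a b N : ℝ) / (N : ℝ)) atTop (𝓝 (b - a))

lemma card_shift (P : ℕ → Prop) [DecidablePred P] (N : ℕ) :
    ((Icc 1 N).filter P).card = ((range N).filter fun n => P (n + 1)).card := by
  rw [card_filter, card_filter]
  have h : ∀ N : ℕ, ∑ n ∈ Icc 1 N, (if P n then 1 else 0) =
      ∑ n ∈ range N, (if P (n + 1) then 1 else 0) := by
    intro N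
    induction N with
    | zero => simp
    | succ N ih => rw [← Finset.insert_Icc_right_eq_Icc_add_one (by omega), sum_insert (by simp), ih,
        sum_range_succ, add_comm]
  exact h N

lemma visits_eq (u : ℕ → ℝ) (a b : ℝ) (N : ℕ) :
    visits u a b N = vis (fun n => u (n + 1)) a b N := card_shift _ N

lemma equi_iff (u : ℕ → ℝ) : Equidistributed u ↔ UD fun n => u (n + 1) := by
  constructor
  · intro h s t hs hst ht
    rcases hst.eq_or_lt with rfl | hlt
    · have h1 : ∀ N : ℕ, ((range N).filter fun n =>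
          s ≤ Int.fract (u (n + 1)) ∧ Int.fract (u (n + 1)) < s).card = 0 := by
        intro N
        rw [card_eq_zero, filter_eq_empty_iff]
        intro n _ hn
        linarith [hn.1, hn.2]
      simp only [h1, Nat.cast_zero, zero_div, sub_self]
      exact tendsto_const_nhds
    · refine (h s t hs hlt ht).congr fun N => ?_
      rw [visits_eq]
      rfl
  · intro h a b ha hab hb
    refine (h a b ha hab.le hb).congr fun N => ?_
    rw [visits_eq]
    rfl

theorem ud_int {x : ℕ → ℝ} (h : UD x) (m : ℤ) (hm : m ≠ 0) : UD fun n => m * x n := by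
  apply ud_of_weyl
  intro k hk
  have := Pool.Agent.N915.WT.weyl_int h ((k : ℤ) * m) (mul_ne_zero (by
    have : (k : ℤ) ≠ 0 := by exact_mod_cast (by omega : k ≠ 0)
    exact this) hm)
  refine this.congr fun N => ?_
  congr 2
  refine sum_congr rfl fun n _ => ?_
  congr 1
  push_cast
  ring

/-- changing a counting function by a bounded quantity -/
lemma transfer {u v : ℕ → ℝ} {L C : ℝ} (h : ∀ N, |u N - v N| ≤ C)
    (hv : Tendsto (fun N : ℕ => v N / (N : ℝ)) atTop (𝓝 L)) :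
    Tendsto (fun N : ℕ => u N / (N : ℝ)) atTop (𝓝 L) := by
  have h1 : Tendsto (fun N : ℕ => (u N - v N) / (N : ℝ)) atTop (𝓝 0) := by
    refine squeeze_zero_norm (a := fun N : ℕ => C / (N : ℝ)) (fun N => ?_)
      (tendsto_const_div_atTop_nhds_zero_nat C)
    rw [Real.norm_eq_abs, abs_div, Nat.abs_cast]
    exact div_le_div_of_nonneg_right (h N) (Nat.cast_nonneg _)
  have h2 := hv.add h1
  rw [add_zero] at h2
  refine h2.congr fun N => ?_
  ring

/-- two properties with finitely many differences -/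
lemma card_diff (P Q : ℕ → Prop) [DecidablePred P] [DecidablePred Q]
    (hfin : {n : ℕ | ¬ (P n ↔ Q n)}.Finite) (N : ℕ) :
    |(((range N).filter P).card : ℝ) - (((range N).filter Q).card : ℝ)| ≤ hfin.toFinset.card := by
  have h1 : ∀ (P Q : ℕ → Prop) [DecidablePred P] [DecidablePred Q]
      (hfin : {n : ℕ | ¬ (P n ↔ Q n)}.Finite) (N : ℕ),
      ((range N).filter P).card ≤ ((range N).filter Q).card + hfin.toFinset.card := by
    intro P Q _ _ hfin N
    refine (card_le_card ?_).trans (card_union_le _ _)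
    intro n hn
    rw [mem_filter] at hn
    rw [mem_union, mem_filter]
    by_cases hq : Q n
    · exact Or.inl ⟨hn.1, hq⟩
    · right
      rw [Set.Finite.mem_toFinset, Set.mem_ofPred_eq]
      intro h
      exact hq (h.1 hn.2)
  have hfin' : {n : ℕ | ¬ (Q n ↔ P n)}.Finite := by
    refine hfin.subset fun n hn => ?_
    rw [Set.mem_ofPred_eq] at hn ⊢
    intro h
    exact hn h.symm
  have h2 := h1 P Q hfin N
  have h3 := h1 Q P hfin' N
  have h4 : hfin'.toFinset = hfin.toFinset := by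
    ext n
    simp only [Set.Finite.mem_toFinset, Set.mem_ofPred_eq]
    constructor
    · intro h h'
      exact h h'.symm
    · intro h h'
      exact h h'.symm
  rw [h4] at h3
  have h2' : (((range N).filter P).card : ℝ) ≤ ((range N).filter Q).card + hfin.toFinset.card := by
    exact_mod_cast h2
  have h3' : (((range N).filter Q).card : ℝ) ≤ ((range N).filter P).card + hfin.toFinset.card := by
    exact_mod_cast h3
  rw [abs_le]
  constructor <;> linarith

lemma cnt_sum (N : ℕ) (x : ℕ → ℝ) : cnt 3 N x 0 + cnt 3 N x 1 + cnt 3 N x 2 = N := by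
  have h : ((range N).card) = ∑ d ∈ range 3, cnt 3 N x d := by
    unfold cnt
    refine card_eq_sum_card_fiberwise fun n _ => ?_
    rw [mem_coe, mem_range]
    exact dig_lt (by norm_num) _
  rw [card_range, sum_range_succ, sum_range_succ, sum_range_succ, sum_range_zero, zero_add] at h
  exact h.symm

/-- the last third and the first third of the negative -/
lemma neg_third {y : ℝ} (hy : ¬ ∃ k : ℤ, 3 * y = k) :
    (0 ≤ Int.fract (-y) ∧ Int.fract (-y) < 1 / 3) ↔
      (2 / 3 ≤ Int.fract y ∧ Int.fract y < 1) := by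
  have h0 : Int.fract y ≠ 0 := by
    intro h
    apply hy
    refine ⟨3 * ⌊y⌋, ?_⟩
    have := Int.fract_add_floor y
    rw [h, zero_add] at this
    push_cast
    rw [this]
  have h1 : Int.fract (-y) = 1 - Int.fract y := Int.fract_neg h0
  have h2 : Int.fract y ≠ 2 / 3 := by
    intro h
    apply hy
    refine ⟨3 * ⌊y⌋ + 2, ?_⟩
    have := Int.fract_add_floor y
    rw [h] at this
    push_cast
    linarith
  have h3 := Int.fract_lt_one y
  rw [h1]
  constructor
  · rintro ⟨_, h4⟩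
    exact ⟨by linarith, h3⟩
  · rintro ⟨h4, _⟩
    have h5 : 2 / 3 < Int.fract y := lt_of_le_of_ne h4 (Ne.symm h2)
    exact ⟨by linarith, by linarith⟩

/-- **The criterion.** -/
theorem criterion (u : ℕ → ℝ)
    (hfin : ∀ m : ℕ, 1 ≤ m → {n : ℕ | ∃ k : ℤ, (m : ℝ) * u n = k}.Finite) :
    Equidistributed u ↔ ∀ m : ℤ, m ≠ 0 →
      Tendsto (fun N : ℕ => (visits (fun n => (m : ℝ) * u n) 0 (1 / 3) N : ℝ) / (N : ℝ)) atTop
        (𝓝 (1 / 3)) := by
  constructor
  · intro h m hm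
    have h1 : Equidistributed fun n => (m : ℝ) * u n :=
      (equi_iff _).2 (ud_int ((equi_iff u).1 h) m hm)
    have h2 := h1 0 (1 / 3) le_rfl (by norm_num) (by norm_num)
    rwa [sub_zero] at h2
  · intro h
    rw [equi_iff]
    refine ud_of_cnt (b := 3) le_rfl _ fun m hm => ?_
    have hm0 : (m : ℤ) ≠ 0 := by exact_mod_cast (by omega : m ≠ 0)
    have c0 : Tendsto (fun N : ℕ => (cnt 3 N (fun n => m * u (n + 1)) 0 : ℝ) / N) atTop
        (𝓝 (1 / 3)) := by
      refine (h m hm0).congr fun N => ?_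
      rw [visits_eq, cnt_eq (by norm_num)]
      unfold vis
      congr 3
      ext n
      push_cast
      norm_num
    have c2 : Tendsto (fun N : ℕ => (cnt 3 N (fun n => m * u (n + 1)) 2 : ℝ) / N) atTop
        (𝓝 (1 / 3)) := by
      have hF : {n : ℕ | ¬ ((2 / 3 ≤ Int.fract ((m : ℝ) * u (n + 1)) ∧
          Int.fract ((m : ℝ) * u (n + 1)) < 1) ↔
          (0 ≤ Int.fract (((-(m : ℤ) : ℤ) : ℝ) * u (n + 1)) ∧
          Int.fract (((-(m : ℤ) : ℤ) : ℝ) * u (n + 1)) < 1 / 3))}.Finite := by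
        have h1 := hfin (3 * m) (by omega)
        refine Set.Finite.preimage (f := fun n : ℕ => n + 1) (by
          intro a _ b _ hab
          simpa using hab) h1 |>.subset fun n hn => ?_
        rw [Set.mem_preimage, Set.mem_ofPred_eq]
        by_contra hcon
        apply hn
        have h2 := neg_third (y := (m : ℝ) * u (n + 1)) (by
          rintro ⟨k, hk⟩
          apply hcon
          refine ⟨k, ?_⟩
          push_cast
          rw [← hk]
          ring)
        have h3 : ((-(m : ℤ) : ℤ) : ℝ) * u (n + 1) = -((m : ℝ) * u (n + 1)) := by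
          push_cast
          ring
        rw [h3]
        exact h2.symm
      refine transfer (C := hF.toFinset.card) (fun N => ?_) (h (-(m : ℤ)) (neg_ne_zero.2 hm0))
      rw [visits_eq, cnt_eq (by norm_num)]
      unfold vis
      have h3 := card_diff _ _ hF N
      refine le_trans (le_of_eq ?_) h3
      congr 4
      ext n
      push_cast
      norm_num
    intro d hd
    have e3 : (1 : ℝ) / ((3 : ℕ) : ℝ) = 1 / 3 := by norm_num
    rw [e3]
    interval_cases d
    · exact c0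
    · have h1 : Tendsto (fun N : ℕ => 1 - (cnt 3 N (fun n => m * u (n + 1)) 0 : ℝ) / N -
          (cnt 3 N (fun n => m * u (n + 1)) 2 : ℝ) / N) atTop (𝓝 (1 - 1 / 3 - 1 / 3)) :=
        (c0.const_sub 1).sub c2
      have e4 : (1 : ℝ) - 1 / 3 - 1 / 3 = 1 / 3 := by norm_num
      rw [e4] at h1
      refine h1.congr' ?_
      filter_upwards [eventually_gt_atTop 0] with N hN
      have hN' : (N : ℝ) ≠ 0 := by exact_mod_cast hN.ne'
      have h2 : (cnt 3 N (fun n => m * u (n + 1)) 0 : ℝ) + cnt 3 N (fun n => m * u (n + 1)) 1 +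
          cnt 3 N (fun n => m * u (n + 1)) 2 = N := by
        exact_mod_cast cnt_sum N (fun n => m * u (n + 1))
      field_simp
      linarith
    · exact c2

/-- powers with no integral power -/
lemma finite_int (θ : ℝ) (hθ : 1 < θ) (hint : ∀ k : ℕ, 1 ≤ k → ∀ j : ℤ, θ ^ k ≠ j) (m : ℕ)
    (hm : 1 ≤ m) : {n : ℕ | ∃ k : ℤ, (m : ℝ) * θ ^ n = k}.Finite := by
  have hθ0 : θ ≠ 0 := by linarith
  have hm0 : (m : ℝ) ≠ 0 := by exact_mod_cast (by omega : m ≠ 0)
  by_contra hinf
  have hinf : {n : ℕ | ∃ k : ℤ, (m : ℝ) * θ ^ n = k}.Infinite := hinf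
  obtain ⟨n₀, k₀, hk₀⟩ := hinf.nonempty
  obtain ⟨n₁, ⟨k₁, hk₁⟩, hn₁⟩ := hinf.exists_gt n₀
  have hk00 : (k₀ : ℝ) ≠ 0 := by
    rw [← hk₀]
    exact mul_ne_zero hm0 (pow_ne_zero _ hθ0)
  set d := n₁ - n₀ with hd
  have hd1 : 1 ≤ d := by omega
  set r : ℚ := k₁ / k₀ with hr
  have hrθ : (r : ℝ) = θ ^ d := by
    rw [hr]
    push_cast
    rw [div_eq_iff hk00, ← hk₁, ← hk₀, mul_left_comm, ← pow_add]
    congr 2
    omega
  have hden : 2 ≤ r.den := by
    by_contra hlt
    have h1 : r.den = 1 := by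
      have := r.den_pos
      omega
    apply hint d hd1 r.num
    rw [← hrθ]
    have h2 := Rat.num_div_den r
    rw [h1] at h2
    rw [← h2]
    push_cast
    simp
  obtain ⟨n₂, ⟨k₂, hk₂⟩, hn₂⟩ := hinf.exists_gt (n₀ + k₀.natAbs ^ d)
  have h1 : (r : ℝ) ^ (n₂ - n₀) * (k₀ : ℝ) ^ d = (k₂ : ℝ) ^ d := by
    rw [hrθ, ← hk₀, ← hk₂, mul_pow, mul_pow, ← pow_mul, ← pow_mul, ← pow_mul]
    rw [mul_left_comm, ← pow_add]
    congr 2
    have h2 : n₀ ≤ n₂ := by omega
    obtain ⟨t, rfl⟩ := Nat.exists_eq_add_of_le h2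
    rw [Nat.add_sub_cancel_left]
    ring
  have h2 : r ^ (n₂ - n₀) * (k₀ : ℚ) ^ d = (k₂ : ℚ) ^ d := by exact_mod_cast h1
  have h3 : (r.num : ℤ) ^ (n₂ - n₀) * k₀ ^ d = k₂ ^ d * (r.den : ℤ) ^ (n₂ - n₀) := by
    have h4 : r * r.den = r.num := Rat.mul_den_eq_num r
    have h5 : (r.num : ℚ) ^ (n₂ - n₀) * k₀ ^ d = k₂ ^ d * (r.den : ℚ) ^ (n₂ - n₀) := by
      rw [← h4, mul_pow, ← h2]
      ring
    exact_mod_cast h5
  have h4 : (r.den : ℤ) ^ (n₂ - n₀) ∣ r.num ^ (n₂ - n₀) * k₀ ^ d := ⟨k₂ ^ d, by rw [h3, mul_comm]⟩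
  have hcop : IsCoprime ((r.den : ℤ) ^ (n₂ - n₀)) (r.num ^ (n₂ - n₀)) := by
    apply IsCoprime.pow
    rw [Int.isCoprime_iff_nat_coprime, Int.natAbs_natCast]
    exact r.reduced.symm
  have h5 : (r.den : ℤ) ^ (n₂ - n₀) ∣ k₀ ^ d := hcop.dvd_of_dvd_mul_left h4
  have h6 : r.den ^ (n₂ - n₀) ∣ k₀.natAbs ^ d := by
    have := Int.natAbs_dvd_natAbs.2 h5
    rwa [Int.natAbs_pow, Int.natAbs_pow, Int.natAbs_natCast] at this
  have hk0n : k₀ ≠ 0 := by exact_mod_cast hk00
  have h7 : r.den ^ (n₂ - n₀) ≤ k₀.natAbs ^ d :=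
    Nat.le_of_dvd (pow_pos (Int.natAbs_pos.2 hk0n) _) h6
  have h8 : 2 ^ (n₂ - n₀) ≤ r.den ^ (n₂ - n₀) := Nat.pow_le_pow_left hden _
  have h9 : n₂ - n₀ < 2 ^ (n₂ - n₀) := Nat.lt_two_pow_self
  omega

/-- **The powers of a real number.** -/
theorem powers (θ : ℝ) (hθ : 1 < θ) (hint : ∀ k : ℕ, 1 ≤ k → ∀ j : ℤ, θ ^ k ≠ j) :
    Equidistributed (fun n => θ ^ n) ↔ ∀ m : ℤ, m ≠ 0 →
      Tendsto (fun N : ℕ => (visits (fun n => (m : ℝ) * θ ^ n) 0 (1 / 3) N : ℝ) / (N : ℝ)) atTop
        (𝓝 (1 / 3)) :=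
  criterion _ fun m hm => finite_int θ hθ hint m hm

lemma transcendental_no_int {θ : ℝ} (h : Transcendental ℚ θ) (k : ℕ) (hk : 1 ≤ k) (j : ℤ) :
    θ ^ k ≠ j := by
  intro hkj
  have h1 : Transcendental ℚ (θ ^ k) := h.pow hk
  apply h1
  rw [hkj]
  exact isAlgebraic_intCast j

end Pool.Agent.Run7.h724.Thirds
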